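import Pool.Agent.H2NS.Prod

/-!
Integral identities for transport operators and the curl.
-/

open MeasureTheory Set H459R3.NS
open scoped ENNReal ContDiff

set_option autoImplicit false

namespace Pool.Agent.H2NS

open Pool.Agent.W12.MD.R0 (kk kk_pos)

/-- The transport operator `u · ∇`. -/
noncomputable def tr (u : Fin 3 → V → ℝ) (f : V → ℝ) (x : V) : ℝ := ∑ l, u l x * pd l f x

/-- The curl. -/
noncomputable def cu (v : Fin 3 → V → ℝ) (i : Fin 3) (x : V) : ℝ :=
  pd (i + 1) (v (i + 2)) x - pd (i + 2) (v (i + 1)) x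

theorem sp_sub {f g : V → ℝ} (hf : SP f) (hg : SP g) : SP (fun x => f x - g x) where
  smooth := hf.smooth.sub hg.smooth
  per := fun i x => by simp only [hf.per i x, hg.per i x]

theorem sp_cmul {f : V → ℝ} (c : ℝ) (hf : SP f) : SP (fun x => c * f x) where
  smooth := contDiff_const.mul hf.smooth
  per := fun i x => by simp only [hf.per i x]

theorem pd_add' {f g : V → ℝ} (hf : SP f) (hg : SP g) (j : Fin 3) (x : V) :
    pd j (fun y => f y + g y) x = pd j f x + pd j g x := by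
  unfold pd
  have h : HasFDerivAt (fun y => f y + g y) _ x := (hf.diff x).hasFDerivAt.add (hg.diff x).hasFDerivAt
  rw [h.fderiv]
  simp

theorem pd_sub' {f g : V → ℝ} (hf : SP f) (hg : SP g) (j : Fin 3) (x : V) :
    pd j (fun y => f y - g y) x = pd j f x - pd j g x := by
  unfold pd
  have h : HasFDerivAt (fun y => f y - g y) _ x := (hf.diff x).hasFDerivAt.sub (hg.diff x).hasFDerivAt
  rw [h.fderiv]
  simp

section

variable {u v w : Fin 3 → V → ℝ} {f g : V → ℝ}

theorem tr_sp (hu : ∀ j, SP (u j)) (hf : SP f) : SP (tr u f) := by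
  unfold tr
  exact SP.sum fun l _ => (hu l).mul (hf.pd l)

theorem cu_sp (hv : ∀ j, SP (v j)) (i : Fin 3) : SP (cu v i) := by
  unfold cu
  exact sp_sub ((hv _).pd _) ((hv _).pd _)

theorem int_tr (hu : ∀ j, SP (u j)) (hdiv : ∀ x, ∑ j, pd j (u j) x = 0) (hf : SP f) :
    ∫ x in cube, tr u f x = 0 := by
  have h : ∀ x, tr u f x = ∑ l, pd l (fun y => u l y * f y) x := by
    intro x
    simp_rw [pd_mul (hu _) hf]
    rw [Finset.sum_add_distrib, ← Finset.sum_mul, hdiv, zero_mul, add_zero]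
    rfl
  simp_rw [h]
  rw [integral_finsetSum _ fun l _ => (((hu l).mul hf).pd l).int]
  exact Finset.sum_eq_zero fun l _ => int_pd_zero ((hu l).mul hf) l

theorem int_tr_anti (hu : ∀ j, SP (u j)) (hdiv : ∀ x, ∑ j, pd j (u j) x = 0) (hf : SP f)
    (hg : SP g) : ∫ x in cube, tr u f x * g x = -∫ x in cube, f x * tr u g x := by
  have h := int_tr hu hdiv (hf.mul hg)
  have h1 : ∀ x, tr u (fun y => f y * g y) x = tr u f x * g x + f x * tr u g x := by
    intro x
    unfold tr
    simp_rw [pd_mul hf hg]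
    rw [Finset.sum_mul, Finset.mul_sum, ← Finset.sum_add_distrib]
    exact Finset.sum_congr rfl fun l _ => by ring
  simp_rw [h1] at h
  rw [integral_add ((tr_sp hu hf).mul hg).int (hf.mul (tr_sp hu hg)).int] at h
  linarith

theorem f3a : ((0 : Fin 3) + 1 = 1) ∧ ((0 : Fin 3) + 2 = 2) ∧ ((1 : Fin 3) + 1 = 2) ∧
    ((1 : Fin 3) + 2 = 0) ∧ ((2 : Fin 3) + 1 = 0) ∧ ((2 : Fin 3) + 2 = 1) := by decide

theorem int_cu_symm (hv : ∀ j, SP (v j)) (hw : ∀ j, SP (w j)) :
    ∑ i, ∫ x in cube, cu v i x * w i x = ∑ i, ∫ x in cube, v i x * cu w i x := by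
  have h1 : ∀ i a b : Fin 3, ∫ x in cube, (pd a (v b) x - pd b (v a) x) * w i x
      = -(∫ x in cube, v b x * pd a (w i) x) + ∫ x in cube, v a x * pd b (w i) x := by
    intro i a b
    simp_rw [sub_mul]
    rw [integral_sub (((hv b).pd a).mul (hw i)).int (((hv a).pd b).mul (hw i)).int,
      ibp (hv b) (hw i) a, ibp (hv a) (hw i) b]
    ring
  have h2 : ∀ i a b : Fin 3, ∫ x in cube, v i x * (pd a (w b) x - pd b (w a) x)
      = (∫ x in cube, v i x * pd a (w b) x) - ∫ x in cube, v i x * pd b (w a) x := by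
    intro i a b
    simp_rw [mul_sub]
    rw [integral_sub ((hv i).mul ((hw b).pd a)).int ((hv i).mul ((hw a).pd b)).int]
  obtain ⟨a1, a2, a3, a4, a5, a6⟩ := f3a
  unfold cu
  simp_rw [h1, h2]
  simp only [Fin.sum_univ_three, a1, a2, a3, a4, a5, a6]
  ring

/-- The commutator of the curl with the transport operator. -/
noncomputable def cc (u v : Fin 3 → V → ℝ) (i : Fin 3) (x : V) : ℝ :=
  ∑ l, (pd (i + 1) (u l) x * pd l (v (i + 2)) x - pd (i + 2) (u l) x * pd l (v (i + 1)) x)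

theorem cc_sp (hu : ∀ j, SP (u j)) (hv : ∀ j, SP (v j)) (i : Fin 3) : SP (cc u v i) := by
  unfold cc
  exact SP.sum fun l _ => sp_sub (((hu l).pd _).mul ((hv _).pd _)) (((hu l).pd _).mul ((hv _).pd _))

theorem pd_tr (hu : ∀ j, SP (u j)) (hf : SP f) (m : Fin 3) (x : V) :
    pd m (tr u f) x = ∑ l, pd m (u l) x * pd l f x + tr u (pd m f) x := by
  unfold tr
  rw [pd_sum (fun l _ => (hu l).mul (hf.pd l))]
  simp_rw [pd_mul (hu _) (hf.pd _)]
  rw [Finset.sum_add_distrib, add_comm]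
  congr 1
  refine Finset.sum_congr rfl fun l _ => ?_
  rw [pd_comm hf]

theorem cu_tr (hu : ∀ j, SP (u j)) (hv : ∀ j, SP (v j)) (i : Fin 3) (x : V) :
    cu (fun j => tr u (v j)) i x = cc u v i x + tr u (cu v i) x := by
  have h1 : tr u (cu v i) x = tr u (pd (i + 1) (v (i + 2))) x - tr u (pd (i + 2) (v (i + 1))) x := by
    unfold tr
    rw [← Finset.sum_sub_distrib]
    refine Finset.sum_congr rfl fun l _ => ?_
    have : pd l (cu v i) x = pd l (pd (i + 1) (v (i + 2))) x - pd l (pd (i + 2) (v (i + 1))) x :=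
      pd_sub' ((hv _).pd _) ((hv _).pd _) l x
    rw [this, mul_sub]
  rw [h1]
  unfold cu cc
  rw [pd_tr hu (hv _), pd_tr hu (hv _), Finset.sum_sub_distrib]
  ring

/-- Conservation of helicity by the Euler nonlinearity. -/
theorem helicity (hu : ∀ j, SP (u j)) : ∑ i, ∫ x in cube, tr u (u i) x * cu u i x = 0 := by
  set e : V → ℝ := fun x => ∑ j, u j x * u j x with he
  have hes : SP e := SP.sum fun j _ => (hu j).mul (hu j)
  have hc := cu_sp hu
  have hp : ∀ i x, pd i e x = ∑ l, (u l x * pd i (u l) x + pd i (u l) x * u l x) := by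
    intro i x
    rw [he, pd_sum fun j _ => (hu j).mul (hu j)]
    exact Finset.sum_congr rfl fun l _ => pd_mul (hu l) (hu l) i x
  obtain ⟨a1, a2, a3, a4, a5, a6⟩ := f3a
  have h1 : ∀ x, ∑ i, tr u (u i) x * cu u i x = ∑ i, 1 / 2 * (pd i e x * cu u i x) := by
    intro x
    simp_rw [hp]
    unfold tr cu
    simp only [Fin.sum_univ_three, a1, a2, a3, a4, a5, a6]
    ring
  rw [← integral_finsetSum _ fun i _ => ((tr_sp hu (hu i)).mul (hc i)).int]
  simp_rw [h1]
  rw [integral_finsetSum _ fun i _ => (sp_cmul _ ((hes.pd i).mul (hc i))).int]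
  have h2 : ∀ i, ∫ x in cube, 1 / 2 * (pd i e x * cu u i x)
      = -(1 / 2) * ∫ x in cube, e x * pd i (cu u i) x := by
    intro i
    rw [integral_const_mul, ibp hes (hc i) i]
    ring
  simp_rw [h2]
  rw [← Finset.mul_sum, ← integral_finsetSum _ fun i _ => (hes.mul ((hc i).pd i)).int]
  have h3 : ∀ x, ∑ i, e x * pd i (cu u i) x = 0 := by
    intro x
    rw [← Finset.mul_sum]
    have h4 : ∀ i, pd i (cu u i) x
        = pd i (pd (i + 1) (u (i + 2))) x - pd i (pd (i + 2) (u (i + 1))) x := fun i =>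
      pd_sub' ((hu _).pd _) ((hu _).pd _) i x
    simp_rw [h4]
    simp only [Fin.sum_univ_three, a1, a2, a3, a4, a5, a6]
    rw [pd_comm (hu 2) 0 1, pd_comm (hu 1) 0 2, pd_comm (hu 0) 1 2]
    ring
  simp_rw [h3]
  simp

end

end Pool.Agent.H2NS
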