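import Pool.Agent.H2NS.Mop
import Pool.Agent.H459R3.NS.Final

/-!
Trilinear forms given by integrals over a parameter.
-/

open MeasureTheory Set H459R3.NS
open scoped ENNReal ContDiff

set_option autoImplicit false

namespace Pool.Agent.H2NS

open Pool.Agent.W12.MD.R0 (kk kk_pos)

variable {Ω : Type} [MeasurableSpace Ω]

/-- A family of multipliers with square integrals `A`. -/
structure Fam (μ : Measure Ω) (φ : Ω → K3 → ℂ) (A : K3 → ℝ) : Prop where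
  mlt : ∀ o, Mlt (φ o)
  meas : ∀ k, Measurable (fun o => φ o k)
  nonneg : ∀ k, 0 ≤ A k
  poly : ∃ (C : ℝ) (n : ℕ), 0 ≤ C ∧ ∀ k, A k ≤ C * (1 + (N k : ℝ) ^ n)
  bd : ∀ k, ∫⁻ o, ENNReal.ofReal (‖φ o k‖ ^ 2) ∂μ ≤ ENNReal.ofReal (A k)

variable {μ : Measure Ω} {φ ψ : Ω → K3 → ℂ} {A B : K3 → ℝ}

theorem Fam.int_sq (h : Fam μ φ A) (k : K3) : Integrable (fun o => ‖φ o k‖ ^ 2) μ := by
  refine ⟨((h.meas k).norm.pow_const 2).aestronglyMeasurable, ?_⟩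
  rw [hasFiniteIntegral_iff_ofReal (Filter.Eventually.of_forall fun o => by positivity)]
  exact (h.bd k).trans_lt ENNReal.ofReal_lt_top

theorem Fam.int_sq_le (h : Fam μ φ A) (k : K3) : ∫ o, ‖φ o k‖ ^ 2 ∂μ ≤ A k := by
  have h1 := ofReal_integral_eq_lintegral_ofReal (h.int_sq k)
    (Filter.Eventually.of_forall fun o => by positivity)
  rw [← ENNReal.ofReal_le_ofReal_iff (h.nonneg k), h1]
  exact h.bd k

theorem int_mul (h1 : Fam μ φ A) (h2 : Fam μ ψ B) (k l : K3) :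
    Integrable (fun o => φ o k * ψ o l) μ := by
  refine Integrable.mono' ((h1.int_sq k).add (h2.int_sq l))
    ((h1.meas k).mul (h2.meas l)).aestronglyMeasurable
    (Filter.Eventually.of_forall fun o => ?_)
  rw [norm_mul]
  simp only [Pi.add_apply]
  nlinarith [sq_nonneg (‖φ o k‖ - ‖ψ o l‖), sq_nonneg ‖φ o k‖, sq_nonneg ‖ψ o l‖]

theorem int_mul_le (h1 : Fam μ φ A) (h2 : Fam μ ψ B) (k l : K3) :
    ∫ o, ‖φ o k * ψ o l‖ ∂μ ≤ A k + B l := by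
  refine (integral_mono (int_mul h1 h2 k l).norm ((h1.int_sq k).add (h2.int_sq l))
    fun o => ?_).trans ?_
  · simp only [Pi.add_apply, norm_mul]
    nlinarith [sq_nonneg (‖φ o k‖ - ‖ψ o l‖), sq_nonneg ‖φ o k‖, sq_nonneg ‖ψ o l‖]
  · have e : ∫ o, ((fun o => ‖φ o k‖ ^ 2) + fun o => ‖ψ o l‖ ^ 2) o ∂μ
        = ∫ o, ‖φ o k‖ ^ 2 ∂μ + ∫ o, ‖ψ o l‖ ^ 2 ∂μ := integral_add (h1.int_sq k) (h2.int_sq l)
    rw [e]
    exact add_le_add (h1.int_sq_le k) (h2.int_sq_le l)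

theorem summ_A (h : Fam μ φ A) {a : K3 → ℂ} (ha : Rap a) : Summable fun k => A k * ‖a k‖ := by
  obtain ⟨C, n, hC, hA⟩ := h.poly
  refine Summable.of_nonneg_of_le (fun k => mul_nonneg (h.nonneg k) (norm_nonneg _))
    (fun k => mul_le_mul_of_nonneg_right (hA k) (norm_nonneg _)) ?_
  refine ((ha.summable.norm.mul_left C).add ((ha n).mul_left C)).congr fun k => ?_
  ring

theorem summ_A2 (h : Fam μ φ A) {a : K3 → ℂ} (ha : Rap a) :
    Summable fun k => A k * ‖a k‖ ^ 2 := by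
  have h1 : ∀ k, ‖a k‖ ≤ ∑' m, ‖a m‖ := fun k => ha.summable.norm.le_tsum k
    fun _ _ => norm_nonneg _
  refine Summable.of_nonneg_of_le (fun k => mul_nonneg (h.nonneg k) (by positivity))
    (fun k => ?_) ((summ_A h ha).mul_left (∑' m, ‖a m‖))
  have := mul_le_mul_of_nonneg_left (h1 k) (mul_nonneg (h.nonneg k) (norm_nonneg (a k)))
  nlinarith

theorem summ_A3 (h : Fam μ φ A) {a : K3 → ℂ} (ha : Rap a) :
    Summable fun k => A k * (4 * Real.pi ^ 2 * kk k * ‖a k‖ ^ 2) := by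
  have h1 : Summable fun k => ∑ j, A k * ‖D j a k‖ ^ 2 :=
    summable_sum fun j _ => summ_A2 h (ha.D j)
  refine h1.congr fun k => ?_
  rw [← Finset.mul_sum, sum_D]

theorem bil_ident (h1 : Fam μ φ A) (h2 : Fam μ ψ B) {F G s : V → ℝ} (hF : SP F) (hG : SP G)
    (hs : SP s) :
    HasSum (fun p : K3 × K3 => fr F p.1 * fr G p.2 * fr s (-p.1 - p.2)
        * ∫ o, φ o p.1 * ψ o p.2 ∂μ)
      (∫ o, ((∫ x in cube, Mop (φ o) F x * (Mop (ψ o) G x * s x) : ℝ) : ℂ) ∂μ) := by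
  set T : K3 × K3 → Ω → ℂ := fun p o =>
    fr F p.1 * fr G p.2 * fr s (-p.1 - p.2) * (φ o p.1 * ψ o p.2) with hT
  have e : ∀ o, ((∫ x in cube, Mop (φ o) F x * (Mop (ψ o) G x * s x) : ℝ) : ℂ)
      = ∑' p, T p o := by
    intro o
    rw [← tri_fr (Mop_sp (h1.mlt o) hF) (Mop_sp (h2.mlt o) hG) hs]
    unfold Tri
    refine tsum_congr fun p => ?_
    rw [fr_Mop (h1.mlt o) hF, fr_Mop (h2.mlt o) hG]
    simp only [hT]
    ring
  simp_rw [e]
  have hint : ∀ p, Integrable (T p) μ := fun p => (int_mul h1 h2 p.1 p.2).const_mul _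
  have hM : ∀ k, ‖fr s k‖ ≤ ∑' m, ‖fr s m‖ := fun k =>
    (rap_fr hs).summable.norm.le_tsum k fun _ _ => norm_nonneg _
  have hsum : Summable fun p => ∫ o, ‖T p o‖ ∂μ := by
    have hA := summ_A h1 (rap_fr hF)
    have hB := summ_A h2 (rap_fr hG)
    have hF' := (rap_fr hF).summable.norm
    have hG' := (rap_fr hG).summable.norm
    have k1 := hA.mul_of_nonneg hG' (fun k => mul_nonneg (h1.nonneg k) (norm_nonneg _))
      (fun k => norm_nonneg (fr G k))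
    have k2 := hF'.mul_of_nonneg hB (fun k => norm_nonneg (fr F k))
      (fun k => mul_nonneg (h2.nonneg k) (norm_nonneg _))
    refine Summable.of_nonneg_of_le (fun p => integral_nonneg fun _ => norm_nonneg _)
      (fun p => ?_) ((k1.add k2).mul_left (∑' m, ‖fr s m‖))
    simp only [hT]
    have e2 : ∀ o, ‖fr F p.1 * fr G p.2 * fr s (-p.1 - p.2) * (φ o p.1 * ψ o p.2)‖
        = ‖fr F p.1‖ * ‖fr G p.2‖ * ‖fr s (-p.1 - p.2)‖ * ‖φ o p.1 * ψ o p.2‖ := by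
      intro o
      rw [norm_mul, norm_mul, norm_mul]
    simp_rw [e2]
    rw [integral_const_mul]
    calc ‖fr F p.1‖ * ‖fr G p.2‖ * ‖fr s (-p.1 - p.2)‖ * ∫ o, ‖φ o p.1 * ψ o p.2‖ ∂μ
        ≤ ‖fr F p.1‖ * ‖fr G p.2‖ * (∑' m, ‖fr s m‖) * (A p.1 + B p.2) := by
          have := int_mul_le h1 h2 p.1 p.2
          have h0 : 0 ≤ ∑' m, ‖fr s m‖ := tsum_nonneg fun _ => norm_nonneg _
          refine mul_le_mul (mul_le_mul_of_nonneg_left (hM _) (by positivity)) this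
            (integral_nonneg fun o => norm_nonneg (φ o p.1 * ψ o p.2)) (by positivity)
      _ = _ := by ring
  have h3 := hasSum_integral_of_summable_integral_norm hint hsum
  have e3 : (fun p : K3 × K3 => ∫ o, T p o ∂μ) = fun p : K3 × K3 =>
      fr F p.1 * fr G p.2 * fr s (-p.1 - p.2) * ∫ o, φ o p.1 * ψ o p.2 ∂μ := by
    funext p
    simp only [hT]
    rw [integral_const_mul]
  rw [e3] at h3
  exact h3

/-- Sum over frequencies with the parameter fixed. -/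
noncomputable def Lf (φ : Ω → K3 → ℂ) (a : K3 → ℝ) (o : Ω) : ℝ≥0∞ :=
  ∑' k, ENNReal.ofReal (‖φ o k‖ ^ 2) * ENNReal.ofReal (a k)

theorem Lf_meas (h : Fam μ φ A) (a : K3 → ℝ) : Measurable (Lf φ a) := by
  unfold Lf
  exact Measurable.tsum fun k => ((h.meas k).norm.pow_const 2).ennreal_ofReal.mul_const _

omit [MeasurableSpace Ω] in
theorem le_Lf (φ : Ω → K3 → ℂ) {a : K3 → ℝ} (ha : ∀ k, 0 ≤ a k) (o : Ω) :
    ENNReal.ofReal (∑' k, ‖φ o k‖ ^ 2 * a k) ≤ Lf φ a o := by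
  unfold Lf
  by_cases hc : Summable fun k => ‖φ o k‖ ^ 2 * a k
  · rw [ENNReal.ofReal_tsum_of_nonneg (fun k => mul_nonneg (sq_nonneg _) (ha k)) hc]
    refine ENNReal.tsum_le_tsum fun k => ?_
    rw [ENNReal.ofReal_mul (sq_nonneg _)]
  · rw [tsum_eq_zero_of_not_summable hc]
    simp

/-- Integration of a sum over frequencies against the parameter. -/
theorem lint_Lf (h : Fam μ φ A) {a : K3 → ℝ} (ha : ∀ k, 0 ≤ a k)
    (hs : Summable fun k => A k * a k) :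
    ∫⁻ o, Lf φ a o ∂μ ≤ ENNReal.ofReal (∑' k, A k * a k) := by
  unfold Lf
  rw [lintegral_tsum fun k => (((h.meas k).norm.pow_const 2).ennreal_ofReal.mul_const _).aemeasurable]
  rw [ENNReal.ofReal_tsum_of_nonneg (fun k => mul_nonneg (h.nonneg k) (ha k)) hs]
  refine ENNReal.tsum_le_tsum fun k => ?_
  rw [lintegral_mul_const _ ((h.meas k).norm.pow_const 2).ennreal_ofReal,
    ENNReal.ofReal_mul (h.nonneg k)]
  gcongr
  exact h.bd k

/-- `s` is form-bounded with the constants `κ` and `E`. -/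
def Frm (κ E : ℝ) (s : V → ℝ) : Prop :=
  ∀ f g : V → ℝ, SP f → SP g → ∫ x in cube, g x = 0 →
    |∫ x in cube, s x * (f x * g x)| ≤ κ * (nrm f ^ 2 + grd g ^ 2) + E * nrm g ^ 2

/-- The bilinear estimate. -/
theorem bil {F G s : V → ℝ} {κ E : ℝ} (h1 : Fam μ φ A) (h2 : Fam μ ψ B) (hψ : ∀ o, ψ o 0 = 0)
    (hF : SP F) (hG : SP G) (hs : SP s) (hκ : 0 ≤ κ) (hE : 0 ≤ E) (hM : Frm κ E s) :
    ‖∑' p : K3 × K3, fr F p.1 * fr G p.2 * fr s (-p.1 - p.2) * ∫ o, φ o p.1 * ψ o p.2 ∂μ‖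
      ≤ κ * (∑' k, A k * ‖fr F k‖ ^ 2 + ∑' k, B k * (4 * Real.pi ^ 2 * kk k * ‖fr G k‖ ^ 2))
        + E * ∑' k, B k * ‖fr G k‖ ^ 2 := by
  rw [(bil_ident h1 h2 hF hG hs).tsum_eq]
  have hAs : Summable fun k => A k * ‖fr F k‖ ^ 2 := summ_A2 h1 (rap_fr hF)
  have hBs : Summable fun k => B k * ‖fr G k‖ ^ 2 := summ_A2 h2 (rap_fr hG)
  have hBs2 : Summable fun k => B k * (4 * Real.pi ^ 2 * kk k * ‖fr G k‖ ^ 2) :=
    summ_A3 h2 (rap_fr hG)
  have q1 : 0 ≤ ∑' k, A k * ‖fr F k‖ ^ 2 := tsum_nonneg fun k =>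
    mul_nonneg (h1.nonneg k) (sq_nonneg _)
  have q2 : 0 ≤ ∑' k, B k * (4 * Real.pi ^ 2 * kk k * ‖fr G k‖ ^ 2) := tsum_nonneg fun k =>
    mul_nonneg (h2.nonneg k) (by have := kk_nonneg k; positivity)
  have q3 : 0 ≤ ∑' k, B k * ‖fr G k‖ ^ 2 := tsum_nonneg fun k =>
    mul_nonneg (h2.nonneg k) (sq_nonneg _)
  -- pointwise bound
  have hpt : ∀ o, |∫ x in cube, Mop (φ o) F x * (Mop (ψ o) G x * s x)|
      ≤ κ * ∑' k, ‖φ o k‖ ^ 2 * ‖fr F k‖ ^ 2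
        + κ * ∑' k, ‖ψ o k‖ ^ 2 * (4 * Real.pi ^ 2 * kk k * ‖fr G k‖ ^ 2)
        + E * ∑' k, ‖ψ o k‖ ^ 2 * ‖fr G k‖ ^ 2 := by
    intro o
    have m1 := Mop_sp (h1.mlt o) hF
    have m2 := Mop_sp (h2.mlt o) hG
    have hz : ∫ x in cube, Mop (ψ o) G x = 0 := by
      have e := fr_Mop (h2.mlt o) hG 0
      rw [hψ, zero_mul] at e
      have e2 : fr (Mop (ψ o) G) 0 = ((∫ x in cube, Mop (ψ o) G x : ℝ) : ℂ) := by
        rw [← integral_complex_ofReal]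
        unfold fr fc
        congr 1
        funext x
        rw [neg_zero]
        simp [ee, ph]
      rw [e2] at e
      exact_mod_cast e
    have e0 : ∫ x in cube, Mop (φ o) F x * (Mop (ψ o) G x * s x)
        = ∫ x in cube, s x * (Mop (φ o) F x * Mop (ψ o) G x) := by
      congr 1
      funext x
      ring
    rw [e0]
    refine (hM _ _ m1 m2 hz).trans ?_
    rw [nrm_Mop (h1.mlt o) hF, nrm_Mop (h2.mlt o) hG, grd_Mop (h2.mlt o) hG]
    have e3 : ∑' k, 4 * Real.pi ^ 2 * kk k * (‖ψ o k‖ ^ 2 * ‖fr G k‖ ^ 2)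
        = ∑' k, ‖ψ o k‖ ^ 2 * (4 * Real.pi ^ 2 * kk k * ‖fr G k‖ ^ 2) :=
      tsum_congr fun k => by ring
    rw [e3]
    exact le_of_eq (by ring)
  -- integrate
  have hL := enorm_integral_le_lintegral_enorm (μ := μ)
    (fun o => ((∫ x in cube, Mop (φ o) F x * (Mop (ψ o) G x * s x) : ℝ) : ℂ))
  have hR : ∫⁻ o, ‖((∫ x in cube, Mop (φ o) F x * (Mop (ψ o) G x * s x) : ℝ) : ℂ)‖ₑ ∂μ
      ≤ ENNReal.ofReal (κ * (∑' k, A k * ‖fr F k‖ ^ 2
        + ∑' k, B k * (4 * Real.pi ^ 2 * kk k * ‖fr G k‖ ^ 2))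
          + E * ∑' k, B k * ‖fr G k‖ ^ 2) := by
    have hp1 : ∀ o, 0 ≤ ∑' k, ‖φ o k‖ ^ 2 * ‖fr F k‖ ^ 2 := fun o => tsum_nonneg fun k => by
      positivity
    have hp2 : ∀ o, 0 ≤ ∑' k, ‖ψ o k‖ ^ 2 * (4 * Real.pi ^ 2 * kk k * ‖fr G k‖ ^ 2) :=
      fun o => tsum_nonneg fun k => by have := kk_nonneg k; positivity
    have hp3 : ∀ o, 0 ≤ ∑' k, ‖ψ o k‖ ^ 2 * ‖fr G k‖ ^ 2 := fun o => tsum_nonneg fun k => by
      positivity
    have st1 : ∀ o, ‖((∫ x in cube, Mop (φ o) F x * (Mop (ψ o) G x * s x) : ℝ) : ℂ)‖ₑ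
        ≤ ENNReal.ofReal κ * ENNReal.ofReal (∑' k, ‖φ o k‖ ^ 2 * ‖fr F k‖ ^ 2)
          + ENNReal.ofReal κ *
            ENNReal.ofReal (∑' k, ‖ψ o k‖ ^ 2 * (4 * Real.pi ^ 2 * kk k * ‖fr G k‖ ^ 2))
          + ENNReal.ofReal E *
            ENNReal.ofReal (∑' k, ‖ψ o k‖ ^ 2 * ‖fr G k‖ ^ 2) := by
      intro o
      rw [← ofReal_norm, Complex.norm_real, Real.norm_eq_abs]
      rw [← ENNReal.ofReal_mul hκ, ← ENNReal.ofReal_mul hκ,
        ← ENNReal.ofReal_mul hE,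
        ← ENNReal.ofReal_add (mul_nonneg hκ (hp1 o)) (mul_nonneg hκ (hp2 o)),
        ← ENNReal.ofReal_add (add_nonneg (mul_nonneg hκ (hp1 o)) (mul_nonneg hκ (hp2 o)))
          (mul_nonneg hE (hp3 o))]
      exact ENNReal.ofReal_le_ofReal (hpt o)
    have s1 : ∀ k, 0 ≤ ‖fr F k‖ ^ 2 := fun k => sq_nonneg _
    have s2 : ∀ k, 0 ≤ 4 * Real.pi ^ 2 * kk k * ‖fr G k‖ ^ 2 := fun k => by
      have := kk_nonneg k
      positivity
    have s3 : ∀ k, 0 ≤ ‖fr G k‖ ^ 2 := fun k => sq_nonneg _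
    have st2 : ∀ o, ‖((∫ x in cube, Mop (φ o) F x * (Mop (ψ o) G x * s x) : ℝ) : ℂ)‖ₑ
        ≤ ENNReal.ofReal κ * Lf φ (fun k => ‖fr F k‖ ^ 2) o
          + ENNReal.ofReal κ * Lf ψ (fun k => 4 * Real.pi ^ 2 * kk k * ‖fr G k‖ ^ 2) o
          + ENNReal.ofReal E * Lf ψ (fun k => ‖fr G k‖ ^ 2) o := by
      intro o
      refine (st1 o).trans ?_
      gcongr
      · exact le_Lf φ s1 o
      · exact le_Lf ψ s2 o
      · exact le_Lf ψ s3 o
    refine (lintegral_mono st2).trans ?_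
    have n1 := (Lf_meas h1 fun k => ‖fr F k‖ ^ 2).const_mul (ENNReal.ofReal κ)
    have n2 := (Lf_meas h2 fun k => 4 * Real.pi ^ 2 * kk k * ‖fr G k‖ ^ 2).const_mul
      (ENNReal.ofReal κ)
    have n12 : Measurable fun o => ENNReal.ofReal κ * Lf φ (fun k => ‖fr F k‖ ^ 2) o
        + ENNReal.ofReal κ * Lf ψ (fun k => 4 * Real.pi ^ 2 * kk k * ‖fr G k‖ ^ 2) o := n1.add n2
    rw [lintegral_add_left n12, lintegral_add_left n1,
      lintegral_const_mul _ (Lf_meas h1 _), lintegral_const_mul _ (Lf_meas h2 _),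
      lintegral_const_mul _ (Lf_meas h2 _)]
    have l1 := lint_Lf h1 s1 hAs
    have l2 := lint_Lf h2 s2 hBs2
    have l3 := lint_Lf h2 s3 hBs
    rw [mul_add κ, ENNReal.ofReal_add (by positivity) (by positivity),
      ENNReal.ofReal_add (by positivity) (by positivity),
      ENNReal.ofReal_mul hκ, ENNReal.ofReal_mul hκ, ENNReal.ofReal_mul hE]
    gcongr
  have hf := hL.trans hR
  rw [← ofReal_norm] at hf
  exact (ENNReal.ofReal_le_ofReal_iff (by positivity)).1 hf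

end Pool.Agent.H2NS
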