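import Mathlib

/-!
The standard Gaussian measure on `ℝ³`: characteristic function and moments.
-/

open MeasureTheory ProbabilityTheory
open scoped ENNReal

set_option autoImplicit false

namespace Pool.Agent.H2NS

/-- The standard Gaussian measure on `ℝ³`. -/
noncomputable def gm : Measure (Fin 3 → ℝ) := Measure.pi fun _ => gaussianReal 0 1

instance gm_prob : IsProbabilityMeasure gm := by unfold gm; infer_instance

theorem one_cexp (ζ : ℝ) : ∫ x, Complex.exp (Complex.I * (ζ * x : ℝ)) ∂(gaussianReal 0 1)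
    = Complex.exp (-(ζ ^ 2 : ℝ) / 2) := by
  have h := complexMGF_id_gaussianReal (μ := 0) (v := 1) (Complex.I * ζ)
  unfold complexMGF at h
  simp only [id] at h
  have e : ∀ x : ℝ, Complex.exp (Complex.I * (ζ * x : ℝ)) = Complex.exp (Complex.I * ζ * x) := by
    intro x; congr 1; push_cast; ring
  simp_rw [e]
  rw [h]
  congr 1
  push_cast
  rw [mul_pow, Complex.I_sq]
  ring

theorem one_x_cexp (ζ : ℝ) : ∫ x, (x : ℂ) * Complex.exp (Complex.I * (ζ * x : ℝ)) ∂(gaussianReal 0 1)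
    = Complex.I * ζ * Complex.exp (-(ζ ^ 2 : ℝ) / 2) := by
  have h := hasDerivAt_complexMGF (X := id) (μ := gaussianReal 0 1) (z := Complex.I * ζ)
    (by rw [integrableExpSet_id_gaussianReal]; simp)
  have h2 : complexMGF id (gaussianReal 0 1) = fun z : ℂ => Complex.exp (z ^ 2 / 2) := by
    funext z
    rw [complexMGF_id_gaussianReal]
    congr 1
    push_cast
    ring
  rw [h2] at h
  have h3 : HasDerivAt (fun z : ℂ => Complex.exp (z ^ 2 / 2))
      (Complex.exp ((Complex.I * ζ) ^ 2 / 2) * (Complex.I * ζ)) (Complex.I * ζ) := by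
    have h4 : HasDerivAt (fun z : ℂ => z ^ 2 / 2) (Complex.I * ζ) (Complex.I * ζ) := by
      have h5 := (hasDerivAt_pow 2 (Complex.I * (ζ : ℂ))).div_const 2
      refine h5.congr_deriv ?_
      simp
    exact h4.cexp
  have h6 := h.unique h3
  simp only [id] at h6
  have e : ∀ x : ℝ, (x : ℂ) * Complex.exp (Complex.I * (ζ * x : ℝ))
      = (x : ℂ) * Complex.exp (Complex.I * ζ * x) := by
    intro x; congr 2; push_cast; ring
  simp_rw [e]
  rw [h6]
  rw [mul_comm]
  congr 2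
  push_cast
  rw [mul_pow, Complex.I_sq]
  ring

theorem cexp_prod (ζ z : Fin 3 → ℝ) : Complex.exp (Complex.I * (∑ j, ζ j * z j : ℝ))
    = ∏ j, Complex.exp (Complex.I * (ζ j * z j : ℝ)) := by
  rw [← Complex.exp_sum]
  congr 1
  push_cast
  rw [Finset.mul_sum]

theorem exp_prod (ζ : Fin 3 → ℝ) : Complex.exp (-(∑ j, ζ j ^ 2 : ℝ) / 2)
    = ∏ j, Complex.exp (-(ζ j ^ 2 : ℝ) / 2) := by
  rw [← Complex.exp_sum]
  congr 1
  push_cast
  rw [neg_div, Finset.sum_div, ← Finset.sum_neg_distrib]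
  exact Finset.sum_congr rfl fun j _ => by ring

theorem int_cexp (ζ : Fin 3 → ℝ) : ∫ z, Complex.exp (Complex.I * (∑ j, ζ j * z j : ℝ)) ∂gm
    = Complex.exp (-(∑ j, ζ j ^ 2 : ℝ) / 2) := by
  simp_rw [cexp_prod]
  unfold gm
  rw [integral_fintype_prod_eq_prod (𝕜 := ℂ)
    (f := fun j (x : ℝ) => Complex.exp (Complex.I * (ζ j * x : ℝ)))]
  rw [exp_prod]
  exact Finset.prod_congr rfl fun j _ => one_cexp (ζ j)

theorem int_z_cexp (ζ : Fin 3 → ℝ) (i : Fin 3) :
    ∫ z, (z i : ℂ) * Complex.exp (Complex.I * (∑ j, ζ j * z j : ℝ)) ∂gm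
    = Complex.I * ζ i * Complex.exp (-(∑ j, ζ j ^ 2 : ℝ) / 2) := by
  have e : ∀ z : Fin 3 → ℝ, (z i : ℂ) * Complex.exp (Complex.I * (∑ j, ζ j * z j : ℝ))
      = ∏ j, (if j = i then (z j : ℂ) else 1) * Complex.exp (Complex.I * (ζ j * z j : ℝ)) := by
    intro z
    rw [Finset.prod_mul_distrib, ← cexp_prod, Finset.prod_ite_eq' Finset.univ i]
    simp
  simp_rw [e]
  unfold gm
  rw [integral_fintype_prod_eq_prod (𝕜 := ℂ)
    (f := fun j (x : ℝ) => (if j = i then (x : ℂ) else 1)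
      * Complex.exp (Complex.I * (ζ j * x : ℝ)))]
  have e2 : ∀ j, ∫ x : ℝ, (if j = i then (x : ℂ) else 1)
      * Complex.exp (Complex.I * (ζ j * x : ℝ)) ∂(gaussianReal 0 1)
      = (if j = i then (Complex.I * ζ j) else 1) * Complex.exp (-(ζ j ^ 2 : ℝ) / 2) := by
    intro j
    by_cases h : j = i
    · simp only [if_pos h]
      exact one_x_cexp (ζ j)
    · simp only [if_neg h, one_mul]
      exact one_cexp (ζ j)
  rw [Finset.prod_congr rfl fun j _ => e2 j, Finset.prod_mul_distrib, ← exp_prod,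
    Finset.prod_ite_eq' Finset.univ i]
  simp

/-- All moments are finite. -/
theorem moment (n : ℕ) : ∫⁻ z, ENNReal.ofReal ((∑ j, z j ^ 2) ^ n) ∂gm ≠ ⊤ := by
  have h1 : ∀ z : Fin 3 → ℝ, ENNReal.ofReal ((∑ j, z j ^ 2) ^ n)
      ≤ ∑ j, ENNReal.ofReal (3 ^ n * (z j ^ 2) ^ n) := by
    intro z
    rw [← ENNReal.ofReal_sum_of_nonneg fun j _ => by positivity]
    refine ENNReal.ofReal_le_ofReal ?_
    obtain ⟨i, -, hi⟩ := Finset.exists_max_image Finset.univ (fun j => z j ^ 2)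
      ⟨(0 : Fin 3), Finset.mem_univ _⟩
    have h2 : ∑ j, z j ^ 2 ≤ 3 * z i ^ 2 := by
      refine (Finset.sum_le_sum fun j hj => hi j hj).trans ?_
      simp
    refine (pow_le_pow_left₀ (Finset.sum_nonneg fun j _ => sq_nonneg _) h2 n).trans ?_
    rw [mul_pow]
    exact Finset.single_le_sum (f := fun j => (3 : ℝ) ^ n * (z j ^ 2) ^ n)
      (fun j _ => by positivity) (Finset.mem_univ i)
  refine ne_top_of_le_ne_top ?_ (lintegral_mono h1)
  rw [lintegral_finsetSum _ fun j _ => by fun_prop]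
  rw [ENNReal.sum_ne_top]
  intro j _
  have h3 : ∫⁻ z : Fin 3 → ℝ, ENNReal.ofReal (3 ^ n * (z j ^ 2) ^ n) ∂gm
      = ∫⁻ x : ℝ, ENNReal.ofReal (3 ^ n * (x ^ 2) ^ n) ∂(gaussianReal 0 1) := by
    have hm : MeasurePreserving (Function.eval j) gm (gaussianReal 0 1) := by
      unfold gm
      exact measurePreserving_eval (fun _ : Fin 3 => gaussianReal 0 1) j
    have := hm.lintegral_comp (f := fun x : ℝ => ENNReal.ofReal (3 ^ n * (x ^ 2) ^ n))
      (by fun_prop)
    simpa using this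
  rw [h3]
  have h4 : Integrable (fun x : ℝ => (3 : ℝ) ^ n * (x ^ 2) ^ n) (gaussianReal 0 1) := by
    have h5 := (memLp_id_gaussianReal (μ := 0) (v := 1) (2 * n : ℕ)).integrable_norm_pow'
    refine (h5.const_mul ((3 : ℝ) ^ n)).congr (Filter.Eventually.of_forall fun x => ?_)
    simp only [id, Real.norm_eq_abs]
    rw [pow_mul, sq_abs]
  exact (hasFiniteIntegral_iff_ofReal (Filter.Eventually.of_forall fun x => by positivity)).1
    h4.2 |>.ne

end Pool.Agent.H2NS
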