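import Mathlib

/-!
Integrals over the half line and their scaling.
-/

open MeasureTheory Set Filter Topology
open scoped ENNReal

set_option autoImplicit false

namespace Pool.Agent.H2NS

/-- Lebesgue measure on `(0, ∞)`. -/
noncomputable def hm : Measure ℝ := volume.restrict (Ioi 0)

instance hm_sf : SFinite hm := by unfold hm; infer_instance

theorem scal {g : ℝ → ℝ} (hg : Integrable g hm) (hg0 : ∀ h, 0 < h → 0 ≤ g h) {a c : ℝ}
    (ha : 0 < a) (hc : 0 ≤ c) :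
    ∫⁻ h, ENNReal.ofReal (c * g (a * h)) ∂hm = ENNReal.ofReal (c * (a⁻¹ * ∫ h, g h ∂hm)) := by
  unfold hm at *
  have h1 : IntegrableOn (fun h => g (a * h)) (Ioi 0) := by
    have := (integrableOn_Ioi_comp_mul_left_iff g 0 ha).2 (by rw [mul_zero]; exact hg)
    exact this
  have h2 := ofReal_integral_eq_lintegral_ofReal (h1.const_mul c)
    ((ae_restrict_iff' measurableSet_Ioi).2 (Eventually.of_forall fun h hh =>
      mul_nonneg hc (hg0 _ (mul_pos ha hh))))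
  rw [← h2, integral_const_mul, integral_comp_mul_left_Ioi g 0 ha, mul_zero, smul_eq_mul]

theorem scal' {g : ℝ → ℝ} {a : ℝ} (ha : 0 < a) (c : ℝ) :
    ∫ h, c * g (a * h) ∂hm = c * (a⁻¹ * ∫ h, g h ∂hm) := by
  unfold hm
  rw [integral_const_mul, integral_comp_mul_left_Ioi g 0 ha, mul_zero, smul_eq_mul]

theorem integrable_of_bd {g : ℝ → ℝ} (hm1 : Measurable g) {C : ℝ}
    (hb : ∀ h, 0 < h → 0 ≤ g h ∧ g h ≤ C * (1 + h ^ 2)⁻¹) : Integrable g hm := by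
  have h1 : Integrable (fun h : ℝ => C * (1 + h ^ 2)⁻¹) hm :=
    (integrable_inv_one_add_sq.const_mul C).integrableOn
  refine h1.mono' hm1.aestronglyMeasurable ?_
  unfold hm
  refine (ae_restrict_iff' measurableSet_Ioi).2 (Eventually.of_forall fun h hh => ?_)
  rw [Real.norm_eq_abs, abs_of_nonneg (hb h hh).1]
  exact (hb h hh).2

theorem bd_of {x h A B : ℝ} (hh : 0 < h) (hB : 0 ≤ B) (h1 : x ≤ A) (h2 : x ≤ B * (h ^ 2)⁻¹)
    (hA : 0 ≤ A) : x ≤ (2 * A + 2 * B) * (1 + h ^ 2)⁻¹ := by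
  rcases le_total h 1 with hl | hl
  · have h3 : h ^ 2 ≤ 1 := by nlinarith
    have h4 : A ≤ 2 * A * (1 + h ^ 2)⁻¹ := by
      rw [le_mul_inv_iff₀ (by positivity)]
      nlinarith
    have h5 : 0 ≤ 2 * B * (1 + h ^ 2)⁻¹ := by positivity
    linarith [add_mul (2 * A) (2 * B) (1 + h ^ 2)⁻¹]
  · have h3 : 1 ≤ h ^ 2 := by nlinarith
    have h4 : B * (h ^ 2)⁻¹ ≤ 2 * B * (1 + h ^ 2)⁻¹ := by
      rw [← div_eq_mul_inv, ← div_eq_mul_inv, div_le_div_iff₀ (by positivity) (by positivity)]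
      nlinarith
    have h5 : 0 ≤ 2 * A * (1 + h ^ 2)⁻¹ := by positivity
    linarith [add_mul (2 * A) (2 * B) (1 + h ^ 2)⁻¹]

/-! ### The kernel of `|ξ|` -/

/-- the integrand `(1 - exp (- h² / 2)) / h²` -/
noncomputable def g0 (h : ℝ) : ℝ := (h ^ 2)⁻¹ * (1 - Real.exp (-(h ^ 2) / 2))

theorem g0_int : Integrable g0 hm := by
  refine integrable_of_bd (C := 2 * (1 / 2) + 2 * 1) (by unfold g0; fun_prop) fun h hh => ?_
  have h1 : 1 - Real.exp (-(h ^ 2) / 2) ≤ h ^ 2 / 2 := by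
    have := Real.add_one_le_exp (-(h ^ 2) / 2)
    linarith
  have h2 : 0 ≤ 1 - Real.exp (-(h ^ 2) / 2) := by
    have : Real.exp (-(h ^ 2) / 2) ≤ 1 := Real.exp_le_one_iff.2 (by nlinarith)
    linarith
  have h3 : 1 - Real.exp (-(h ^ 2) / 2) ≤ 1 := by linarith [Real.exp_pos (-(h ^ 2) / 2)]
  refine ⟨mul_nonneg (by positivity) h2, bd_of hh zero_le_one ?_ ?_ (by norm_num)⟩
  · unfold g0
    rw [inv_mul_le_iff₀ (by positivity)]
    linarith
  · unfold g0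
    rw [one_mul]
    exact mul_le_of_le_one_right (by positivity) h3

/-- the constant `∫ (1 - exp (- h² / 2)) / h² dh` -/
noncomputable def c0 : ℝ := ∫ h, g0 h ∂hm

theorem g0_pos {h : ℝ} (hh : 0 < h) : 0 < g0 h := by
  unfold g0
  have : Real.exp (-(h ^ 2) / 2) < 1 := Real.exp_lt_one_iff.2 (by nlinarith [sq_pos_of_pos hh])
  have : 0 < 1 - Real.exp (-(h ^ 2) / 2) := by linarith
  positivity

theorem c0_pos : 0 < c0 := by
  unfold c0
  rw [integral_pos_iff_support_of_nonneg_ae _ g0_int]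
  · have h1 : Ioi (0 : ℝ) ⊆ Function.support g0 := fun h hh => (g0_pos hh).ne'
    refine lt_of_lt_of_le ?_ (measure_mono h1)
    unfold hm
    rw [Measure.restrict_apply measurableSet_Ioi, inter_self, Real.volume_Ioi]
    exact ENNReal.zero_lt_top
  · unfold hm
    exact (ae_restrict_iff' measurableSet_Ioi).2 (Eventually.of_forall fun h hh => (g0_pos hh).le)

theorem g0_scal (r : ℝ) (hr : 0 ≤ r) :
    ∫ h, (h ^ 2)⁻¹ * (1 - Real.exp (-(h ^ 2 * r ^ 2) / 2)) ∂hm = c0 * r := by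
  rcases hr.eq_or_lt with h | h
  · simp [← h]
  have h1 := scal' (g := g0) h (r ^ 2)
  rw [← c0] at h1
  have h2 : ∀ x : ℝ, r ^ 2 * g0 (r * x) = (x ^ 2)⁻¹ * (1 - Real.exp (-(x ^ 2 * r ^ 2) / 2)) := by
    intro x
    unfold g0
    rw [mul_pow, mul_inv, show -(r ^ 2 * x ^ 2) / 2 = -(x ^ 2 * r ^ 2) / 2 by ring]
    have : r ^ 2 ≠ 0 := by positivity
    field_simp
  simp_rw [h2] at h1
  rw [h1]
  field_simp

theorem g0_scal_int (r : ℝ) (hr : 0 ≤ r) :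
    Integrable (fun h => (h ^ 2)⁻¹ * (1 - Real.exp (-(h ^ 2 * r ^ 2) / 2))) hm := by
  rcases hr.eq_or_lt with h | h
  · simp [← h]
  have h2 : ∀ x : ℝ, r ^ 2 * g0 (r * x) = (x ^ 2)⁻¹ * (1 - Real.exp (-(x ^ 2 * r ^ 2) / 2)) := by
    intro x
    unfold g0
    rw [mul_pow, mul_inv, show -(r ^ 2 * x ^ 2) / 2 = -(x ^ 2 * r ^ 2) / 2 by ring]
    have : r ^ 2 ≠ 0 := by positivity
    field_simp
  have h1 : Integrable (fun x => g0 (r * x)) hm := by
    have := (integrableOn_Ioi_comp_mul_left_iff g0 0 h).2 (by rw [mul_zero]; exact g0_int)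
    exact this
  refine (h1.const_mul (r ^ 2)).congr (Eventually.of_forall fun x => ?_)
  exact h2 x

/-! ### Bounds for squares of differences -/

/-- there is a constant for the integral of `min 4 (h ζ)² / h²` -/
theorem diff1 : ∃ C : ℝ, 0 ≤ C ∧ ∀ ζ : ℝ, 0 ≤ ζ →
    ∫⁻ h, ENNReal.ofReal ((h ^ 2)⁻¹ * min 4 ((h * ζ) ^ 2)) ∂hm ≤ ENNReal.ofReal (C * ζ) := by
  set g : ℝ → ℝ := fun h => (h ^ 2)⁻¹ * min 4 (h ^ 2) with hg
  have hgm : Measurable g := by rw [hg]; fun_prop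
  have hb : ∀ h, 0 < h → 0 ≤ g h ∧ g h ≤ (2 * 1 + 2 * 4) * (1 + h ^ 2)⁻¹ := by
    intro h hh
    have h0 : 0 ≤ min 4 (h ^ 2) := le_min (by norm_num) (by positivity)
    refine ⟨mul_nonneg (by positivity) h0, bd_of hh (by norm_num) ?_ ?_ zero_le_one⟩
    · simp only [hg]
      rw [inv_mul_le_iff₀ (by positivity), mul_one]
      exact min_le_right _ _
    · simp only [hg]
      rw [mul_comm]
      exact mul_le_mul_of_nonneg_right (min_le_left _ _) (by positivity)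
  have hgi := integrable_of_bd hgm hb
  refine ⟨∫ h, g h ∂hm, ?_, fun ζ hζ => ?_⟩
  · unfold hm
    exact setIntegral_nonneg measurableSet_Ioi fun h hh => (hb h hh).1
  rcases hζ.eq_or_lt with h | h
  · simp [← h]
  have h1 := scal hgi (fun x hx => (hb x hx).1) h (c := ζ ^ 2) (by positivity)
  have h2 : ∀ x : ℝ, ζ ^ 2 * g (ζ * x) = (x ^ 2)⁻¹ * min 4 ((x * ζ) ^ 2) := by
    intro x
    simp only [hg]
    rw [mul_comm ζ x, mul_pow x ζ, mul_inv]
    have : ζ ^ 2 ≠ 0 := by positivity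
    field_simp
  simp_rw [h2] at h1
  rw [h1]
  refine le_of_eq ?_
  congr 1
  field_simp

theorem diff2 : ∃ C : ℝ, 0 ≤ C ∧ ∀ ζ : ℝ, 0 ≤ ζ →
    ∫⁻ h, ENNReal.ofReal ((h ^ 4)⁻¹ * min 16 ((h * ζ) ^ 4)) ∂hm ≤ ENNReal.ofReal (C * ζ ^ 3) := by
  set g : ℝ → ℝ := fun h => (h ^ 4)⁻¹ * min 16 (h ^ 4) with hg
  have hgm : Measurable g := by rw [hg]; fun_prop
  have hb : ∀ h, 0 < h → 0 ≤ g h ∧ g h ≤ (2 * 1 + 2 * 16) * (1 + h ^ 2)⁻¹ := by
    intro h hh
    have h0 : 0 ≤ min 16 (h ^ 4) := le_min (by norm_num) (by positivity)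
    have hg1 : g h ≤ 1 := by
      simp only [hg]
      rw [inv_mul_le_iff₀ (by positivity), mul_one]
      exact min_le_right _ _
    refine ⟨mul_nonneg (by positivity) h0, bd_of hh (by norm_num) hg1 ?_ zero_le_one⟩
    rcases le_total h 1 with hl | hl
    · refine hg1.trans ?_
      rw [← div_eq_mul_inv, le_div_iff₀ (by positivity)]
      nlinarith
    · simp only [hg]
      rw [mul_comm]
      have h3 : (h ^ 4)⁻¹ ≤ (h ^ 2)⁻¹ := by
        apply inv_anti₀ (by positivity)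
        nlinarith [sq_nonneg (h ^ 2), mul_self_nonneg (h ^ 2 - 1)]
      exact mul_le_mul (min_le_left _ _) h3 (by positivity) (by norm_num)
  have hgi := integrable_of_bd hgm hb
  refine ⟨∫ h, g h ∂hm, ?_, fun ζ hζ => ?_⟩
  · unfold hm
    exact setIntegral_nonneg measurableSet_Ioi fun h hh => (hb h hh).1
  rcases hζ.eq_or_lt with h | h
  · simp [← h]
  have h1 := scal hgi (fun x hx => (hb x hx).1) h (c := ζ ^ 4) (by positivity)
  have h2 : ∀ x : ℝ, ζ ^ 4 * g (ζ * x) = (x ^ 4)⁻¹ * min 16 ((x * ζ) ^ 4) := by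
    intro x
    simp only [hg]
    rw [mul_comm ζ x, mul_pow x ζ 4, mul_inv]
    have : ζ ^ 4 ≠ 0 := by positivity
    field_simp
  simp_rw [h2] at h1
  rw [h1]
  refine le_of_eq ?_
  congr 1
  field_simp

/-! ### Heat kernels -/

theorem heat_int : ∫ h, h * Real.exp (-(h ^ 2) / 2) ∂hm = 1 := by
  unfold hm
  have h1 : ∀ x ∈ Ioi (0 : ℝ), HasDerivAt (fun h : ℝ => -Real.exp (-(h ^ 2) / 2))
      (x * Real.exp (-(x ^ 2) / 2)) x := by
    intro x _
    have h2 : HasDerivAt (fun h : ℝ => -(h ^ 2) / 2) (-x) x := by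
      have := ((hasDerivAt_pow 2 x).neg).div_const 2
      refine this.congr_deriv ?_
      simp
      ring
    refine (h2.exp.neg).congr_deriv ?_
    ring
  have h3 : Tendsto (fun h : ℝ => -Real.exp (-(h ^ 2) / 2)) atTop (𝓝 0) := by
    rw [← neg_zero]
    refine (Real.tendsto_exp_atBot.comp ?_).neg
    have : Tendsto (fun h : ℝ => h ^ 2) atTop atTop := tendsto_pow_atTop (by norm_num)
    have h4 := this.const_mul_atTop (show (0 : ℝ) < 1 / 2 by norm_num)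
    have h5 := tendsto_neg_atTop_atBot.comp h4
    refine h5.congr fun h => ?_
    simp only [Function.comp]
    ring
  have h4 := integral_Ioi_of_hasDerivAt_of_nonneg (g := fun h : ℝ => -Real.exp (-(h ^ 2) / 2))
    (g' := fun x => x * Real.exp (-(x ^ 2) / 2)) (a := 0) (l := 0)
    (by fun_prop) h1 (fun x hx => mul_nonneg (le_of_lt hx) (Real.exp_pos _).le) h3
  rw [h4]
  simp

theorem heat_prod (r : ℝ) (hr : 0 < r) :
    ∫ h, h * r ^ 2 * Real.exp (-(h ^ 2 * r ^ 2) / 2) ∂hm = 1 := by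
  have h1 := scal' (g := fun h => h * Real.exp (-(h ^ 2) / 2)) hr r
  rw [heat_int] at h1
  have h2 : ∀ x : ℝ, r * ((r * x) * Real.exp (-((r * x) ^ 2) / 2))
      = x * r ^ 2 * Real.exp (-(x ^ 2 * r ^ 2) / 2) := by
    intro x
    rw [mul_pow, mul_comm (r ^ 2) (x ^ 2)]
    ring
  simp_rw [h2] at h1
  rw [h1]
  field_simp

theorem exp_sq_bd {h : ℝ} : Real.exp (-(h ^ 2)) ≤ 1 * (1 + h ^ 2)⁻¹ := by
  rw [one_mul, Real.exp_neg]
  apply inv_anti₀ (by positivity)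
  linarith [Real.add_one_le_exp (h ^ 2)]

theorem heat1 : ∃ C : ℝ, 0 ≤ C ∧ ∀ r : ℝ, 0 < r →
    ∫⁻ h, ENNReal.ofReal (Real.exp (-(h ^ 2 * r ^ 2))) ∂hm ≤ ENNReal.ofReal (C * r⁻¹) := by
  set g : ℝ → ℝ := fun h => Real.exp (-(h ^ 2)) with hg
  have hb : ∀ h, 0 < h → 0 ≤ g h ∧ g h ≤ 1 * (1 + h ^ 2)⁻¹ := fun h _ =>
    ⟨(Real.exp_pos _).le, exp_sq_bd⟩
  have hgi := integrable_of_bd (by rw [hg]; fun_prop) hb
  refine ⟨∫ h, g h ∂hm, ?_, fun r hr => ?_⟩
  · unfold hm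
    exact setIntegral_nonneg measurableSet_Ioi fun h hh => (hb h hh).1
  have h1 := scal hgi (fun x hx => (hb x hx).1) hr (c := 1) (by positivity)
  have h2 : ∀ x : ℝ, 1 * g (r * x) = Real.exp (-(x ^ 2 * r ^ 2)) := by
    intro x
    simp only [hg, one_mul]
    rw [mul_pow, mul_comm]
  simp_rw [h2] at h1
  rw [h1]
  refine le_of_eq ?_
  congr 1
  ring

theorem heat2 : ∃ C : ℝ, 0 ≤ C ∧ ∀ r : ℝ, 0 < r →
    ∫⁻ h, ENNReal.ofReal ((h * r ^ 2) ^ 2 * Real.exp (-(h ^ 2 * r ^ 2))) ∂hm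
      ≤ ENNReal.ofReal (C * r) := by
  set g : ℝ → ℝ := fun h => h ^ 2 * Real.exp (-(h ^ 2)) with hg
  have hb : ∀ h, 0 < h → 0 ≤ g h ∧ g h ≤ 4 * (1 + h ^ 2)⁻¹ := by
    intro h _
    refine ⟨by positivity, ?_⟩
    have h1 : (h ^ 2 / 2) * Real.exp (-(h ^ 2 / 2)) ≤ 1 := by
      rw [Real.exp_neg, mul_inv_le_iff₀ (Real.exp_pos _), one_mul]
      linarith [Real.add_one_le_exp (h ^ 2 / 2)]
    have h2 : Real.exp (-(h ^ 2 / 2)) ≤ (1 + h ^ 2 / 2)⁻¹ := by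
      rw [Real.exp_neg]
      apply inv_anti₀ (by positivity)
      linarith [Real.add_one_le_exp (h ^ 2 / 2)]
    have h3 : Real.exp (-(h ^ 2)) = Real.exp (-(h ^ 2 / 2)) * Real.exp (-(h ^ 2 / 2)) := by
      rw [← Real.exp_add]; congr 1; ring
    simp only [hg]
    rw [h3]
    have h4 : (1 + h ^ 2 / 2)⁻¹ ≤ 2 * (1 + h ^ 2)⁻¹ := by
      rw [← div_eq_mul_inv, inv_eq_one_div, div_le_div_iff₀ (by positivity) (by positivity)]
      nlinarith [sq_nonneg h]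
    calc h ^ 2 * (Real.exp (-(h ^ 2 / 2)) * Real.exp (-(h ^ 2 / 2)))
        = 2 * ((h ^ 2 / 2) * Real.exp (-(h ^ 2 / 2))) * Real.exp (-(h ^ 2 / 2)) := by ring
      _ ≤ 2 * 1 * (2 * (1 + h ^ 2)⁻¹) := by
        apply mul_le_mul _ (h2.trans h4) (Real.exp_pos _).le (by norm_num)
        linarith
      _ = 4 * (1 + h ^ 2)⁻¹ := by ring
  have hgi := integrable_of_bd (by rw [hg]; fun_prop) hb
  refine ⟨∫ h, g h ∂hm, ?_, fun r hr => ?_⟩
  · unfold hm
    exact setIntegral_nonneg measurableSet_Ioi fun h hh => (hb h hh).1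
  have h1 := scal hgi (fun x hx => (hb x hx).1) hr (c := r ^ 2) (by positivity)
  have h2 : ∀ x : ℝ, r ^ 2 * g (r * x) = (x * r ^ 2) ^ 2 * Real.exp (-(x ^ 2 * r ^ 2)) := by
    intro x
    simp only [hg]
    rw [mul_pow r x, mul_comm (r ^ 2) (x ^ 2)]
    ring
  simp_rw [h2] at h1
  rw [h1]
  refine le_of_eq ?_
  congr 1
  field_simp

end Pool.Agent.H2NS
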