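import Pool.Agent.H2NS.Bil
import Pool.Agent.H2NS.Half
import Pool.Agent.H2NS.Gauss

/-!
The commutator of a transport operator with `|∇|`.
-/

open MeasureTheory Set H459R3.NS
open scoped ENNReal ContDiff

set_option autoImplicit false

namespace Pool.Agent.H2NS

open Pool.Agent.W12.MD.R0 (kk kk_pos)

/-- The parameter space. -/
abbrev Om := ℝ × (Fin 3 → ℝ)

/-- The measure on the parameter space. -/
noncomputable def om : Measure Om := hm.prod gm

/-- The angle. -/
noncomputable def ang (o : Om) (k : K3) : ℝ := ∑ j, (2 * Real.pi * o.1 * k j) * o.2 j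

theorem ang_neg (o : Om) (k : K3) : ang o (-k) = -ang o k := by
  unfold ang
  rw [← Finset.sum_neg_distrib]
  exact Finset.sum_congr rfl fun j _ => by simp

theorem ang_add (o : Om) (k l : K3) : ang o (k + l) = ang o k + ang o l := by
  unfold ang
  rw [← Finset.sum_add_distrib]
  exact Finset.sum_congr rfl fun j _ => by simp only [Pi.add_apply]; push_cast; ring

theorem ang_meas (k : K3) : Measurable fun o => ang o k := by
  unfold ang
  fun_prop

theorem ang_sq_le (o : Om) (k : K3) :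
    ang o k ^ 2 ≤ (o.1 * (2 * Real.pi * eu k * Real.sqrt (∑ j, o.2 j ^ 2))) ^ 2 := by
  have h1 := Finset.sum_mul_sq_le_sq_mul_sq Finset.univ
    (fun j : Fin 3 => 2 * Real.pi * o.1 * (k j : ℝ)) (fun j => o.2 j)
  have h2 : ∑ j, (2 * Real.pi * o.1 * (k j : ℝ)) ^ 2 = (2 * Real.pi * o.1) ^ 2 * kk k := by
    unfold kk
    rw [Finset.mul_sum]
    exact Finset.sum_congr rfl fun j _ => by ring
  rw [h2] at h1
  refine h1.trans (le_of_eq ?_)
  rw [mul_pow o.1, mul_pow (2 * Real.pi * eu k), mul_pow (2 * Real.pi) (eu k), eu_sq,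
    Real.sq_sqrt (Finset.sum_nonneg fun _ _ => sq_nonneg _)]
  ring

/-- First family. -/
noncomputable def fa (j : Fin 3) (o : Om) (k : K3) : ℂ :=
  (((o.1 ^ 2)⁻¹ * o.2 j * (2 * Real.cos (ang o k) - 2) : ℝ) : ℂ)

/-- Second family. -/
noncomputable def fb (o : Om) (k : K3) : ℂ :=
  ((o.1⁻¹ : ℝ) : ℂ) * (Complex.exp (Complex.I * (ang o k : ℝ)) - 1)

/-- Third family. -/
noncomputable def fb' (o : Om) (k : K3) : ℂ := fb o (-k)

theorem conj_E (o : Om) (k : K3) : (starRingEnd ℂ) (Complex.exp (Complex.I * (ang o k : ℝ)))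
    = Complex.exp (Complex.I * (ang o (-k) : ℝ)) := by
  rw [← Complex.exp_conj, map_mul, Complex.conj_I, Complex.conj_ofReal, ang_neg]
  congr 1
  push_cast
  ring

theorem norm_E (x : ℝ) : ‖Complex.exp (Complex.I * (x : ℝ)) - 1‖ ^ 2 = 2 - 2 * Real.cos x := by
  rw [← Complex.normSq_eq_norm_sq, mul_comm, Complex.normSq_apply, Complex.sub_re, Complex.sub_im,
    Complex.exp_ofReal_mul_I_re, Complex.exp_ofReal_mul_I_im]
  simp only [Complex.one_re, Complex.one_im]
  nlinarith [Real.sin_sq_add_cos_sq x]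

theorem cos_bd (x : ℝ) : 0 ≤ 2 - 2 * Real.cos x ∧ 2 - 2 * Real.cos x ≤ 4 ∧
    2 - 2 * Real.cos x ≤ x ^ 2 := by
  refine ⟨by linarith [Real.cos_le_one x], by linarith [Real.neg_one_le_cos x], ?_⟩
  linarith [Real.one_sub_sq_div_two_le_cos (x := x)]

theorem fa_mlt (j : Fin 3) (o : Om) : Mlt (fa j o) where
  herm := fun k => by
    unfold fa
    rw [Complex.conj_ofReal, ang_neg, Real.cos_neg]
  poly := by
    refine ⟨|(o.1 ^ 2)⁻¹ * o.2 j| * 4, 0, by positivity, fun k => ?_⟩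
    unfold fa
    rw [Complex.norm_real, Real.norm_eq_abs, abs_mul, pow_zero]
    have h := cos_bd (ang o k)
    have : |2 * Real.cos (ang o k) - 2| ≤ 4 := by
      rw [abs_le]
      constructor <;> linarith [h.1, h.2.1]
    have := mul_le_mul_of_nonneg_left this (abs_nonneg ((o.1 ^ 2)⁻¹ * o.2 j))
    nlinarith [abs_nonneg ((o.1 ^ 2)⁻¹ * o.2 j)]

theorem fb_norm (o : Om) (k : K3) : ‖fb o k‖ ^ 2 = (o.1 ^ 2)⁻¹ * (2 - 2 * Real.cos (ang o k)) := by
  unfold fb
  rw [norm_mul, mul_pow, norm_E, Complex.norm_real, Real.norm_eq_abs, sq_abs, inv_pow]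

theorem fb_mlt (o : Om) : Mlt (fb o) where
  herm := fun k => by
    unfold fb
    rw [map_mul, map_sub, conj_E, Complex.conj_ofReal, map_one]
  poly := by
    refine ⟨|o.1⁻¹| * 2, 0, by positivity, fun k => ?_⟩
    unfold fb
    rw [norm_mul, Complex.norm_real, Real.norm_eq_abs, pow_zero]
    have : ‖Complex.exp (Complex.I * (ang o k : ℝ)) - 1‖ ≤ 2 := by
      have h := norm_E (ang o k)
      have h2 := cos_bd (ang o k)
      nlinarith [norm_nonneg (Complex.exp (Complex.I * (ang o k : ℝ)) - 1)]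
    nlinarith [abs_nonneg o.1⁻¹, mul_le_mul_of_nonneg_left this (abs_nonneg o.1⁻¹)]

theorem fb'_mlt (o : Om) : Mlt (fb' o) where
  herm := fun k => by
    unfold fb'
    exact (fb_mlt o).herm (-k)
  poly := by
    obtain ⟨C, n, hC, h⟩ := (fb_mlt o).poly
    refine ⟨C, n, hC, fun k => ?_⟩
    have := h (-k)
    unfold fb'
    rwa [N_neg] at this

theorem fa_meas (j : Fin 3) (k : K3) : Measurable fun o => fa j o k := by
  unfold fa
  have := ang_meas k
  fun_prop

theorem fb_meas (k : K3) : Measurable fun o => fb o k := by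
  unfold fb
  have := ang_meas k
  fun_prop

/-- `|z|²` -/
noncomputable def zs (z : Fin 3 → ℝ) : ℝ := ∑ j, z j ^ 2

theorem zs_nonneg (z : Fin 3 → ℝ) : 0 ≤ zs z := Finset.sum_nonneg fun _ _ => sq_nonneg _

theorem mom_fin : ∫⁻ z, ENNReal.ofReal (1 + zs z + zs z ^ 3) ∂gm ≠ ⊤ := by
  have h1 : ∀ z, ENNReal.ofReal (1 + zs z + zs z ^ 3)
      = ENNReal.ofReal (zs z ^ 0) + ENNReal.ofReal (zs z ^ 1) + ENNReal.ofReal (zs z ^ 3) := by
    intro z
    have := zs_nonneg z
    rw [ENNReal.ofReal_add (by positivity) (by positivity),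
      ENNReal.ofReal_add (by positivity) (by positivity), pow_zero, pow_one]
  simp_rw [h1]
  have hmz : Measurable zs := by unfold zs; fun_prop
  have m0 : Measurable fun z => ENNReal.ofReal (zs z ^ 0) := by fun_prop
  have m1 : Measurable fun z => ENNReal.ofReal (zs z ^ 1) := by fun_prop
  have m2 : Measurable fun z => ENNReal.ofReal (zs z ^ 0) + ENNReal.ofReal (zs z ^ 1) := m0.add m1
  rw [lintegral_add_left m2, lintegral_add_left m0]
  exact ENNReal.add_ne_top.2 ⟨ENNReal.add_ne_top.2 ⟨moment 0, moment 1⟩, moment 3⟩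

theorem eu_pow_le (k : K3) (n : ℕ) : eu k ^ n ≤ 2 ^ n * (1 + (N k : ℝ) ^ n) := by
  refine (pow_le_pow_left₀ (eu_nonneg k) (eu_le k) n).trans ?_
  rw [mul_pow, mul_add]
  have : (0 : ℝ) ≤ 2 ^ n * 1 := by positivity
  linarith

theorem fam_a (j : Fin 3) : ∃ C : ℝ, 0 ≤ C ∧ Fam om (fa j) (fun k => C * eu k ^ 3) := by
  obtain ⟨C, hC, hd⟩ := diff2
  set M := ∫⁻ z, ENNReal.ofReal (1 + zs z + zs z ^ 3) ∂gm with hM
  have hMt : M ≠ ⊤ := mom_fin
  refine ⟨C * (2 * Real.pi) ^ 3 * M.toReal, by positivity, fa_mlt j, fa_meas j, fun k => ?_, ?_,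
    fun k => ?_⟩
  · have := eu_nonneg k
    positivity
  · refine ⟨C * (2 * Real.pi) ^ 3 * M.toReal * 2 ^ 3, 3, by positivity, fun k => ?_⟩
    have h := eu_pow_le k 3
    have h0 : 0 ≤ C * (2 * Real.pi) ^ 3 * M.toReal := by positivity
    calc C * (2 * Real.pi) ^ 3 * M.toReal * eu k ^ 3
        ≤ C * (2 * Real.pi) ^ 3 * M.toReal * (2 ^ 3 * (1 + (N k : ℝ) ^ 3)) :=
          mul_le_mul_of_nonneg_left h h0
      _ = _ := by ring
  · have key : ∀ o : Om, ENNReal.ofReal (‖fa j o k‖ ^ 2)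
        ≤ ENNReal.ofReal (o.2 j ^ 2) * ENNReal.ofReal ((o.1 ^ 4)⁻¹ *
          min 16 ((o.1 * (2 * Real.pi * eu k * Real.sqrt (zs o.2))) ^ 4)) := by
      intro o
      rw [← ENNReal.ofReal_mul (sq_nonneg _)]
      refine ENNReal.ofReal_le_ofReal ?_
      unfold fa
      rw [Complex.norm_real, Real.norm_eq_abs, sq_abs]
      have h := cos_bd (ang o k)
      have ha := ang_sq_le o k
      have h4 : (2 * Real.cos (ang o k) - 2) ^ 2
          ≤ min 16 ((o.1 * (2 * Real.pi * eu k * Real.sqrt (zs o.2))) ^ 4) := by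
        refine le_min (by nlinarith) ?_
        have e : (o.1 * (2 * Real.pi * eu k * Real.sqrt (zs o.2))) ^ 4
            = ((o.1 * (2 * Real.pi * eu k * Real.sqrt (zs o.2))) ^ 2) ^ 2 := by ring
        rw [e, show (2 * Real.cos (ang o k) - 2) ^ 2 = (2 - 2 * Real.cos (ang o k)) ^ 2 by ring]
        exact pow_le_pow_left₀ h.1 (h.2.2.trans ha) 2
      calc ((o.1 ^ 2)⁻¹ * o.2 j * (2 * Real.cos (ang o k) - 2)) ^ 2
          = o.2 j ^ 2 * ((o.1 ^ 4)⁻¹ * (2 * Real.cos (ang o k) - 2) ^ 2) := by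
            rw [mul_pow, mul_pow, inv_pow]
            ring
        _ ≤ _ := by
            refine mul_le_mul_of_nonneg_left (mul_le_mul_of_nonneg_left h4 ?_) (sq_nonneg _)
            positivity
    refine (lintegral_mono key).trans ?_
    unfold om
    rw [lintegral_prod_symm _ (by unfold zs; fun_prop)]
    have h2 : ∀ z : Fin 3 → ℝ, ∫⁻ h, ENNReal.ofReal (z j ^ 2) * ENNReal.ofReal ((h ^ 4)⁻¹ *
          min 16 ((h * (2 * Real.pi * eu k * Real.sqrt (zs z))) ^ 4)) ∂hm
        ≤ ENNReal.ofReal (C * (2 * Real.pi) ^ 3 * eu k ^ 3)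
          * ENNReal.ofReal (1 + zs z + zs z ^ 3) := by
      intro z
      rw [lintegral_const_mul _ (by fun_prop)]
      have hz := zs_nonneg z
      have he := eu_nonneg k
      have hp := Real.pi_pos
      refine (mul_le_mul_right (hd _ (by positivity)) _).trans ?_
      rw [← ENNReal.ofReal_mul (sq_nonneg _), ← ENNReal.ofReal_mul (by positivity)]
      refine ENNReal.ofReal_le_ofReal ?_
      have hs := Real.sq_sqrt hz
      have hs0 := Real.sqrt_nonneg (zs z)
      set s := Real.sqrt (zs z)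
      have h5 : s ^ 3 ≤ 1 + s ^ 4 := by nlinarith [sq_nonneg (s ^ 2 - s), sq_nonneg (s - 1), sq_nonneg s, mul_nonneg hs0 (sq_nonneg (s - 1)), sq_nonneg (s * (s - 1))]
      have h6 : z j ^ 2 ≤ zs z := Finset.single_le_sum (f := fun j => z j ^ 2)
        (fun _ _ => sq_nonneg _) (Finset.mem_univ j)
      have h7 : z j ^ 2 * s ^ 3 ≤ 1 + zs z + zs z ^ 3 := by
        calc z j ^ 2 * s ^ 3 ≤ zs z * (1 + s ^ 4) := by gcongr
          _ = zs z + zs z ^ 3 := by rw [show s ^ 4 = (s ^ 2) ^ 2 by ring, hs]; ring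
          _ ≤ _ := by linarith
      calc z j ^ 2 * (C * (2 * Real.pi * eu k * s) ^ 3)
          = C * (2 * Real.pi) ^ 3 * eu k ^ 3 * (z j ^ 2 * s ^ 3) := by ring
        _ ≤ _ := by gcongr
    refine (lintegral_mono h2).trans ?_
    have hmz : Measurable zs := by unfold zs; fun_prop
    rw [lintegral_const_mul _ (by fun_prop), ← hM, ← ENNReal.ofReal_toReal hMt,
      ← ENNReal.ofReal_mul (by have := eu_nonneg k; have := Real.pi_pos; positivity),
      ENNReal.toReal_ofReal ENNReal.toReal_nonneg]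
    exact ENNReal.ofReal_le_ofReal (le_of_eq (by ring))

theorem fam_b : ∃ C : ℝ, 0 ≤ C ∧ Fam om fb (fun k => C * eu k) := by
  obtain ⟨C, hC, hd⟩ := diff1
  set M := ∫⁻ z, ENNReal.ofReal (1 + zs z + zs z ^ 3) ∂gm with hM
  have hMt : M ≠ ⊤ := mom_fin
  refine ⟨C * (2 * Real.pi) * M.toReal, by positivity, fb_mlt, fb_meas, fun k => ?_, ?_,
    fun k => ?_⟩
  · have := eu_nonneg k
    positivity
  · refine ⟨C * (2 * Real.pi) * M.toReal * 2 ^ 1, 1, by positivity, fun k => ?_⟩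
    have h := eu_pow_le k 1
    have h0 : 0 ≤ C * (2 * Real.pi) * M.toReal := by positivity
    calc C * (2 * Real.pi) * M.toReal * eu k
        ≤ C * (2 * Real.pi) * M.toReal * (2 ^ 1 * (1 + (N k : ℝ) ^ 1)) :=
          mul_le_mul_of_nonneg_left (by simpa using h) h0
      _ = _ := by ring
  · have key : ∀ o : Om, ENNReal.ofReal (‖fb o k‖ ^ 2)
        ≤ ENNReal.ofReal ((o.1 ^ 2)⁻¹ *
          min 4 ((o.1 * (2 * Real.pi * eu k * Real.sqrt (zs o.2))) ^ 2)) := by
      intro o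
      refine ENNReal.ofReal_le_ofReal ?_
      rw [fb_norm]
      have h := cos_bd (ang o k)
      have ha := ang_sq_le o k
      refine mul_le_mul_of_nonneg_left (le_min h.2.1 (h.2.2.trans ha)) (by positivity)
    refine (lintegral_mono key).trans ?_
    unfold om
    rw [lintegral_prod_symm _ (by unfold zs; fun_prop)]
    have h2 : ∀ z : Fin 3 → ℝ, ∫⁻ h, ENNReal.ofReal ((h ^ 2)⁻¹ *
          min 4 ((h * (2 * Real.pi * eu k * Real.sqrt (zs z))) ^ 2)) ∂hm
        ≤ ENNReal.ofReal (C * (2 * Real.pi) * eu k)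
          * ENNReal.ofReal (1 + zs z + zs z ^ 3) := by
      intro z
      have hz := zs_nonneg z
      have he := eu_nonneg k
      have hp := Real.pi_pos
      refine (hd _ (by positivity)).trans ?_
      rw [← ENNReal.ofReal_mul (by positivity)]
      refine ENNReal.ofReal_le_ofReal ?_
      have hs := Real.sq_sqrt hz
      have hs0 := Real.sqrt_nonneg (zs z)
      set s := Real.sqrt (zs z)
      have h7 : s ≤ 1 + zs z + zs z ^ 3 := by
        have : 0 ≤ zs z ^ 3 := by positivity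
        nlinarith [sq_nonneg (s - 1)]
      calc C * (2 * Real.pi * eu k * s) = C * (2 * Real.pi) * eu k * s := by ring
        _ ≤ _ := by gcongr
    refine (lintegral_mono h2).trans ?_
    have hmz : Measurable zs := by unfold zs; fun_prop
    rw [lintegral_const_mul _ (by fun_prop), ← hM, ← ENNReal.ofReal_toReal hMt,
      ← ENNReal.ofReal_mul (by have := eu_nonneg k; have := Real.pi_pos; positivity),
      ENNReal.toReal_ofReal ENNReal.toReal_nonneg]
    exact ENNReal.ofReal_le_ofReal (le_of_eq (by ring))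

theorem fam_b' {C : ℝ} (h : Fam om fb (fun k => C * eu k)) : Fam om fb' (fun k => C * eu k) where
  mlt := fb'_mlt
  meas := fun k => h.meas (-k)
  nonneg := h.nonneg
  poly := h.poly
  bd := fun k => by
    have := h.bd (-k)
    rwa [eu_neg] at this

theorem fb_zero (o : Om) : fb o 0 = 0 := by
  unfold fb ang
  simp

theorem fb'_zero (o : Om) : fb' o 0 = 0 := by
  unfold fb'
  rw [neg_zero, fb_zero]

/-- The exponential. -/
noncomputable def EE (o : Om) (m : K3) : ℂ := Complex.exp (Complex.I * (ang o m : ℝ))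

theorem EE_add (o : Om) (k l : K3) : EE o (k + l) = EE o k * EE o l := by
  unfold EE
  rw [ang_add, ← Complex.exp_add]
  congr 1
  push_cast
  ring

theorem EE_zero (o : Om) : EE o 0 = 1 := by
  unfold EE ang
  simp

theorem fa_EE (j : Fin 3) (o : Om) (k : K3) :
    fa j o k = (((o.1 ^ 2)⁻¹ * o.2 j : ℝ) : ℂ) * (EE o k + EE o (-k) - 2) := by
  unfold fa EE
  have h : Complex.exp (Complex.I * (ang o k : ℝ)) + Complex.exp (Complex.I * (ang o (-k) : ℝ))
      = ((2 * Real.cos (ang o k) : ℝ) : ℂ) := by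
    rw [ang_neg, Complex.ofReal_mul, Complex.ofReal_cos, Complex.cos]
    push_cast
    rw [mul_comm Complex.I, mul_comm Complex.I]
    ring
  rw [h]
  push_cast
  ring

theorem fab_diff (j : Fin 3) (o : Om) (k l : K3) :
    fa j o l * fb o k - fa j o k * fb' o l
      = (((o.1 ^ 3)⁻¹ * o.2 j : ℝ) : ℂ)
        * ((EE o (k + l) - EE o (-(k + l))) - (EE o k - EE o (-k)) - (EE o l - EE o (-l))) := by
  have hb : ∀ m, fb o m = ((o.1⁻¹ : ℝ) : ℂ) * (EE o m - 1) := fun m => rfl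
  have hb' : ∀ m, fb' o m = ((o.1⁻¹ : ℝ) : ℂ) * (EE o (-m) - 1) := fun m => rfl
  have i1 : EE o l * EE o (-l) = 1 := by rw [← EE_add, add_neg_cancel, EE_zero]
  have i2 : EE o k * EE o (-k) = 1 := by rw [← EE_add, add_neg_cancel, EE_zero]
  rw [fa_EE, fa_EE, hb, hb', EE_add, neg_add, EE_add]
  have e : (((o.1 ^ 3)⁻¹ * o.2 j : ℝ) : ℂ) = (((o.1 ^ 2)⁻¹ * o.2 j : ℝ) : ℂ) * ((o.1⁻¹ : ℝ) : ℂ) := by
    rw [← Complex.ofReal_mul]
    congr 1
    rw [pow_succ, mul_inv]
    ring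
  rw [e]
  ring

theorem z_int (ζ : Fin 3 → ℝ) (j : Fin 3) :
    Integrable (fun z : Fin 3 → ℝ => (z j : ℂ) * Complex.exp (Complex.I * (∑ i, ζ i * z i : ℝ)))
      gm := by
  have hmz : Measurable zs := by unfold zs; fun_prop
  have h1 : Integrable (fun z => 1 + zs z + zs z ^ 3) gm := by
    refine ⟨by fun_prop, ?_⟩
    rw [hasFiniteIntegral_iff_ofReal (Filter.Eventually.of_forall fun z => by
      have := zs_nonneg z; positivity)]
    exact lt_of_le_of_ne le_top mom_fin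
  refine h1.mono' (by fun_prop) (Filter.Eventually.of_forall fun z => ?_)
  rw [norm_mul, mul_comm Complex.I, Complex.norm_exp_ofReal_mul_I, mul_one, Complex.norm_real,
    Real.norm_eq_abs]
  have hz := zs_nonneg z
  have h6 : z j ^ 2 ≤ zs z := Finset.single_le_sum (f := fun j => z j ^ 2)
    (fun _ _ => sq_nonneg _) (Finset.mem_univ j)
  have h7 : |z j| ≤ 1 + z j ^ 2 := by
    rw [← sq_abs]
    nlinarith [sq_nonneg (|z j| - 1)]
  have : 0 ≤ zs z ^ 3 := by positivity
  linarith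

/-- The integral over `z`. -/
theorem z_EE (h : ℝ) (m : K3) (j : Fin 3) :
    ∫ z, (z j : ℂ) * (EE (h, z) m - EE (h, z) (-m)) ∂gm
      = 4 * Real.pi * Complex.I * h * m j * Real.exp (-(h ^ 2 * (2 * Real.pi * eu m) ^ 2) / 2) := by
  have e1 : ∀ m : K3, ∀ z : Fin 3 → ℝ, EE (h, z) m
      = Complex.exp (Complex.I * (∑ i, (2 * Real.pi * h * m i) * z i : ℝ)) := fun m z => rfl
  have hs : ∀ m : K3, ∑ i, (2 * Real.pi * h * (m i : ℝ)) ^ 2 = h ^ 2 * (2 * Real.pi * eu m) ^ 2 := by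
    intro m
    rw [mul_pow (2 * Real.pi), eu_sq]
    unfold kk
    rw [Finset.mul_sum, Finset.mul_sum]
    exact Finset.sum_congr rfl fun i _ => by ring
  simp_rw [e1, mul_sub]
  rw [integral_sub (z_int _ j) (z_int _ j), int_z_cexp, int_z_cexp, hs, hs, eu_neg]
  push_cast
  simp only [Pi.neg_apply, Int.cast_neg]
  ring

theorem int_ssub {X E : Type*} [MeasurableSpace X] {μ : Measure X} [NormedAddCommGroup E]
    [NormedSpace ℝ E] {f g k : X → E} (hf : Integrable f μ)
    (hg : Integrable g μ) (hk : Integrable k μ) :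
    ∫ x, (f x - g x - k x) ∂μ = ∫ x, f x ∂μ - ∫ x, g x ∂μ - ∫ x, k x ∂μ := by
  have h : Integrable (fun x => f x - g x) μ := hf.sub hg
  rw [integral_sub h hk, integral_sub hf hg]

theorem int_asub {X E : Type*} [MeasurableSpace X] {μ : Measure X} [NormedAddCommGroup E]
    [NormedSpace ℝ E] {f g k : X → E} (hf : Integrable f μ)
    (hg : Integrable g μ) (hk : Integrable k μ) :
    ∫ x, (f x + g x - k x) ∂μ = ∫ x, f x ∂μ + ∫ x, g x ∂μ - ∫ x, k x ∂μ := by
  have h : Integrable (fun x => f x + g x) μ := hf.add hg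
  rw [integral_sub h hk, integral_add hf hg]

/-- The integral over the parameter space. -/
theorem rep_j (j : Fin 3) (k l : K3) :
    ∫ o, fa j o l * fb o k ∂om - ∫ o, fa j o k * fb' o l ∂om
      = 4 * Real.pi * Complex.I * c0 * ((l j : ℂ) * (2 * Real.pi * eu l)
        + (k j : ℂ) * (2 * Real.pi * eu k) - ((k + l) j : ℂ) * (2 * Real.pi * eu (k + l))) := by
  obtain ⟨Ca, -, ha⟩ := fam_a j
  obtain ⟨Cb, -, hb⟩ := fam_b
  have i1 := int_mul ha hb l k
  have i2 := int_mul ha (fam_b' hb) k l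
  rw [← integral_sub i1 i2]
  have i3 : Integrable (fun o => fa j o l * fb o k - fa j o k * fb' o l) om := i1.sub i2
  have e1 : ∀ o : Om, fa j o l * fb o k - fa j o k * fb' o l = (((o.1 ^ 3)⁻¹ * o.2 j : ℝ) : ℂ)
        * ((EE o (k + l) - EE o (-(k + l))) - (EE o k - EE o (-k)) - (EE o l - EE o (-l))) :=
    fun o => fab_diff j o k l
  unfold om at i3 ⊢
  rw [integral_prod _ i3]
  have e2 : ∀ h : ℝ, h ∈ Ioi (0 : ℝ) → ∫ z, (fa j (h, z) l * fb (h, z) k
      - fa j (h, z) k * fb' (h, z) l) ∂gm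
      = ((4 * Real.pi : ℝ) : ℂ) * Complex.I *
        (((l j : ℝ) * ((h ^ 2)⁻¹ * (1 - Real.exp (-(h ^ 2 * (2 * Real.pi * eu l) ^ 2) / 2)))
        + (k j : ℝ) * ((h ^ 2)⁻¹ * (1 - Real.exp (-(h ^ 2 * (2 * Real.pi * eu k) ^ 2) / 2)))
        - ((k + l) j : ℝ) *
          ((h ^ 2)⁻¹ * (1 - Real.exp (-(h ^ 2 * (2 * Real.pi * eu (k + l)) ^ 2) / 2))) : ℝ) : ℂ) := by
    intro h hh
    have hh0 : (0 : ℝ) < h := hh
    have e3 : ∀ z : Fin 3 → ℝ, fa j (h, z) l * fb (h, z) k - fa j (h, z) k * fb' (h, z) l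
        = (((h ^ 3)⁻¹ : ℝ) : ℂ) * (((z j : ℂ) * (EE (h, z) (k + l) - EE (h, z) (-(k + l)))
          - (z j : ℂ) * (EE (h, z) k - EE (h, z) (-k)))
          - (z j : ℂ) * (EE (h, z) l - EE (h, z) (-l))) := by
      intro z
      rw [e1]
      push_cast
      ring
    simp_rw [e3]
    have j1 : ∀ m : K3, Integrable (fun z => (z j : ℂ) * (EE (h, z) m - EE (h, z) (-m))) gm := by
      intro m
      simp_rw [mul_sub]
      exact (z_int (fun i => 2 * Real.pi * h * m i) j).sub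
        (z_int (fun i => 2 * Real.pi * h * (-m) i) j)
    rw [integral_const_mul, int_ssub (j1 _) (j1 _) (j1 _), z_EE, z_EE, z_EE]
    push_cast
    simp only [Pi.add_apply, Int.cast_add]
    have hhc : (h : ℂ) ≠ 0 := by exact_mod_cast hh0.ne'
    field_simp
    ring
  have e4 : ∫ h, ∫ z, (fa j (h, z) l * fb (h, z) k - fa j (h, z) k * fb' (h, z) l) ∂gm ∂hm
      = ∫ h, ((4 * Real.pi : ℝ) : ℂ) * Complex.I *
        (((l j : ℝ) * ((h ^ 2)⁻¹ * (1 - Real.exp (-(h ^ 2 * (2 * Real.pi * eu l) ^ 2) / 2)))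
        + (k j : ℝ) * ((h ^ 2)⁻¹ * (1 - Real.exp (-(h ^ 2 * (2 * Real.pi * eu k) ^ 2) / 2)))
        - ((k + l) j : ℝ) *
          ((h ^ 2)⁻¹ * (1 - Real.exp (-(h ^ 2 * (2 * Real.pi * eu (k + l)) ^ 2) / 2))) : ℝ) : ℂ)
        ∂hm := by
    unfold hm
    exact setIntegral_congr_fun measurableSet_Ioi e2
  rw [e4]
  have g1 : ∀ m : K3, 0 ≤ 2 * Real.pi * eu m := fun m => by
    have := eu_nonneg m
    have := Real.pi_pos
    positivity
  have w : ∀ m : K3, Integrable (fun h : ℝ => (m j : ℝ) * ((h ^ 2)⁻¹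
      * (1 - Real.exp (-(h ^ 2 * (2 * Real.pi * eu m) ^ 2) / 2)))) hm := fun m =>
    (g0_scal_int _ (g1 m)).const_mul _
  rw [integral_const_mul, integral_complex_ofReal,
    int_asub (w l) (w k) (w (k + l)), integral_const_mul,
    integral_const_mul, integral_const_mul, g0_scal _ (g1 _), g0_scal _ (g1 _), g0_scal _ (g1 _)]
  push_cast
  ring

end Pool.Agent.H2NS
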