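import Pool.Agent.H2NS.Comm

/-!
The commutator bound.
-/

open MeasureTheory Set H459R3.NS
open scoped ENNReal ContDiff

set_option autoImplicit false

namespace Pool.Agent.H2NS

open Pool.Agent.W12.MD.R0 (kk kk_pos)

/-- The multiplier `2π|k|`. -/
noncomputable def lam (k : K3) : ℂ := ((2 * Real.pi * eu k : ℝ) : ℂ)

theorem lam_neg (k : K3) : lam (-k) = lam k := by unfold lam; rw [eu_neg]

theorem lam_mlt : Mlt lam where
  herm := fun k => by rw [lam_neg]; unfold lam; rw [Complex.conj_ofReal]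
  poly := by
    refine ⟨4 * Real.pi, 1, by have := Real.pi_pos; positivity, fun k => ?_⟩
    unfold lam
    have he := eu_nonneg k
    have hp := Real.pi_pos
    rw [Complex.norm_real, Real.norm_eq_abs, abs_of_nonneg (by positivity), pow_one]
    have := eu_le k
    have h2 : (0 : ℝ) ≤ N k := by positivity
    nlinarith [mul_le_mul_of_nonneg_left this hp.le]

/-- The operator `|∇|`. -/
noncomputable def La (f : V → ℝ) : V → ℝ := Mop lam f

theorem La_sp {f : V → ℝ} (hf : SP f) : SP (La f) := Mop_sp lam_mlt hf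

theorem fr_La {f : V → ℝ} (hf : SP f) (k : K3) : fr (La f) k = lam k * fr f k := fr_Mop lam_mlt hf k

theorem tri_hasSum {f g h : V → ℝ} (hf : SP f) (hg : SP g) (hh : SP h) :
    HasSum (fun p : K3 × K3 => fr f p.1 * fr g p.2 * fr h (-p.1 - p.2))
      ((∫ x in cube, f x * (g x * h x) : ℝ) : ℂ) := by
  rw [← tri_fr hf hg hh]
  exact (summable_tri (rap_fr hf).summable (rap_fr hg).summable (rap_fr hh).summable).hasSum

/-- The commutator form. -/
noncomputable def Co (u : Fin 3 → V → ℝ) (f g : V → ℝ) : ℝ :=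
  ∑ j, ((∫ x in cube, u j x * (pd j (La f) x * g x)) - ∫ x in cube, u j x * (pd j f x * La g x))

/-- `∑ |k|³ |f̂(k)|²` -/
noncomputable def y2 (f : V → ℝ) : ℝ := ∑' k, eu k ^ 3 * ‖fr f k‖ ^ 2

/-- `∑ |k| |f̂(k)|²` -/
noncomputable def x2 (f : V → ℝ) : ℝ := ∑' k, eu k * ‖fr f k‖ ^ 2

theorem y2_nonneg (f : V → ℝ) : 0 ≤ y2 f :=
  tsum_nonneg fun k => mul_nonneg (pow_nonneg (eu_nonneg k) 3) (sq_nonneg _)

theorem x2_nonneg (f : V → ℝ) : 0 ≤ x2 f :=
  tsum_nonneg fun k => mul_nonneg (eu_nonneg k) (sq_nonneg _)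

theorem Fam.mono {Ω : Type} [MeasurableSpace Ω] {μ : Measure Ω} {φ : Ω → K3 → ℂ} {A A' : K3 → ℝ}
    (h : Fam μ φ A) (hA : ∀ k, A k ≤ A' k)
    (hp : ∃ (C : ℝ) (n : ℕ), 0 ≤ C ∧ ∀ k, A' k ≤ C * (1 + (N k : ℝ) ^ n)) : Fam μ φ A' where
  mlt := h.mlt
  meas := h.meas
  nonneg := fun k => (h.nonneg k).trans (hA k)
  poly := hp
  bd := fun k => (h.bd k).trans (ENNReal.ofReal_le_ofReal (hA k))

theorem fam_unif : ∃ C : ℝ, 0 ≤ C ∧ (∀ j, Fam om (fa j) (fun k => C * eu k ^ 3)) ∧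
    Fam om fb (fun k => C * eu k) ∧ Fam om fb' (fun k => C * eu k) := by
  choose Ca hCa ha using fam_a
  obtain ⟨Cb, hCb, hb⟩ := fam_b
  have hS : 0 ≤ ∑ j, Ca j := Finset.sum_nonneg fun j _ => hCa j
  have p3 : ∀ C : ℝ, 0 ≤ C → ∃ (C' : ℝ) (n : ℕ), 0 ≤ C' ∧ ∀ k, C * eu k ^ 3 ≤ C' * (1 + (N k : ℝ) ^ n) := by
    intro C hC
    refine ⟨C * 2 ^ 3, 3, by positivity, fun k => ?_⟩
    have := mul_le_mul_of_nonneg_left (eu_pow_le k 3) hC
    linarith
  have p1 : ∀ C : ℝ, 0 ≤ C → ∃ (C' : ℝ) (n : ℕ), 0 ≤ C' ∧ ∀ k, C * eu k ≤ C' * (1 + (N k : ℝ) ^ n) := by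
    intro C hC
    refine ⟨C * 2 ^ 1, 1, by positivity, fun k => ?_⟩
    have := mul_le_mul_of_nonneg_left (eu_pow_le k 1) hC
    rw [pow_one] at this
    linarith
  refine ⟨∑ j, Ca j + Cb, by positivity, fun j => ?_, ?_, ?_⟩
  · refine (ha j).mono (fun k => ?_) (p3 _ (by positivity))
    refine mul_le_mul_of_nonneg_right ?_ (pow_nonneg (eu_nonneg k) 3)
    have := Finset.single_le_sum (f := Ca) (fun i _ => hCa i) (Finset.mem_univ j)
    linarith
  · refine hb.mono (fun k => ?_) (p1 _ (by positivity))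
    refine mul_le_mul_of_nonneg_right ?_ (eu_nonneg k)
    linarith
  · refine (fam_b' hb).mono (fun k => ?_) (p1 _ (by positivity))
    refine mul_le_mul_of_nonneg_right ?_ (eu_nonneg k)
    linarith

theorem Co_eq {u : Fin 3 → V → ℝ} {f g : V → ℝ} (hu : ∀ j, SP (u j))
    (hdiv : ∀ k : K3, ∑ j, (k j : ℂ) * fr (u j) k = 0) (hf : SP f) (hg : SP g) :
    ((2 * c0 : ℝ) : ℂ) * (Co u f g : ℝ) = ∑ j,
      ((∑' p : K3 × K3, fr f p.1 * fr (u j) p.2 * fr g (-p.1 - p.2)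
          * ∫ o, fa j o p.1 * fb o p.2 ∂om)
        - ∑' p : K3 × K3, fr (u j) p.1 * fr f p.2 * fr g (-p.1 - p.2)
          * ∫ o, fa j o p.1 * fb' o p.2 ∂om) := by
  obtain ⟨C, -, ha, hb, hb'⟩ := fam_unif
  have A1 : ∀ j, HasSum (fun p : K3 × K3 => fr (u j) p.1 * (D j (fr (La f))) p.2
      * fr g (-p.1 - p.2)) ((∫ x in cube, u j x * (pd j (La f) x * g x) : ℝ) : ℂ) := by
    intro j
    rw [← fr_pd (La_sp hf) j]
    exact tri_hasSum (hu j) ((La_sp hf).pd j) hg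
  have A2 : ∀ j, HasSum (fun p : K3 × K3 => fr (u j) p.1 * (D j (fr f)) p.2
      * fr (La g) (-p.1 - p.2)) ((∫ x in cube, u j x * (pd j f x * La g x) : ℝ) : ℂ) := by
    intro j
    rw [← fr_pd hf j]
    exact tri_hasSum (hu j) (hf.pd j) (La_sp hg)
  have A3 := hasSum_sum (s := Finset.univ) fun j (_ : j ∈ Finset.univ) => (A1 j).sub (A2 j)
  have A4 := A3.mul_left ((2 * c0 : ℝ) : ℂ)
  have B1 : ∀ j, HasSum (fun p : K3 × K3 => fr f p.2 * fr (u j) p.1 * fr g (-p.2 - p.1)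
          * ∫ o, fa j o p.2 * fb o p.1 ∂om)
      (∑' p : K3 × K3, fr f p.1 * fr (u j) p.2 * fr g (-p.1 - p.2)
          * ∫ o, fa j o p.1 * fb o p.2 ∂om) := by
    intro j
    have h := (bil_ident (ha j) hb hf (hu j) hg).summable.hasSum
    exact (Equiv.prodComm K3 K3).hasSum_iff.2 h
  have B2 : ∀ j, HasSum (fun p : K3 × K3 => fr (u j) p.1 * fr f p.2 * fr g (-p.1 - p.2)
          * ∫ o, fa j o p.1 * fb' o p.2 ∂om)
      (∑' p : K3 × K3, fr (u j) p.1 * fr f p.2 * fr g (-p.1 - p.2)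
          * ∫ o, fa j o p.1 * fb' o p.2 ∂om) := by
    intro j
    exact (bil_ident (ha j) hb' (hu j) hf hg).summable.hasSum
  have B3 := hasSum_sum (s := Finset.univ) fun j (_ : j ∈ Finset.univ) => (B1 j).sub (B2 j)
  have e : (fun p : K3 × K3 => ∑ j, (fr f p.2 * fr (u j) p.1 * fr g (-p.2 - p.1)
          * ∫ o, fa j o p.2 * fb o p.1 ∂om - fr (u j) p.1 * fr f p.2 * fr g (-p.1 - p.2)
          * ∫ o, fa j o p.1 * fb' o p.2 ∂om))
      = fun p : K3 × K3 => ((2 * c0 : ℝ) : ℂ) * ∑ j, (fr (u j) p.1 * (D j (fr (La f))) p.2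
      * fr g (-p.1 - p.2) - fr (u j) p.1 * (D j (fr f)) p.2 * fr (La g) (-p.1 - p.2)) := by
    funext p
    obtain ⟨k, l⟩ := p
    simp only
    have s1 : -l - k = -k - l := by abel
    rw [s1]
    have s2 : ∀ j : Fin 3, fr f l * fr (u j) k * fr g (-k - l) * ∫ o, fa j o l * fb o k ∂om
        - fr (u j) k * fr f l * fr g (-k - l) * ∫ o, fa j o k * fb' o l ∂om
        = fr f l * fr g (-k - l) * (fr (u j) k
          * (4 * Real.pi * Complex.I * c0 * ((l j : ℂ) * (2 * Real.pi * eu l)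
        + (k j : ℂ) * (2 * Real.pi * eu k) - ((k + l) j : ℂ) * (2 * Real.pi * eu (k + l))))) := by
      intro j
      rw [← rep_j]
      ring
    rw [Finset.sum_congr rfl fun j _ => s2 j, ← Finset.mul_sum]
    have s3 : ∑ j, fr (u j) k * (4 * Real.pi * Complex.I * c0 * ((l j : ℂ) * (2 * Real.pi * eu l)
        + (k j : ℂ) * (2 * Real.pi * eu k) - ((k + l) j : ℂ) * (2 * Real.pi * eu (k + l))))
        = ∑ j, fr (u j) k * (4 * Real.pi * Complex.I * c0 * ((l j : ℂ) * (2 * Real.pi * eu l)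
          - (l j : ℂ) * (2 * Real.pi * eu (k + l)))) := by
      rw [← sub_eq_zero, ← Finset.sum_sub_distrib]
      have : ∀ j : Fin 3, fr (u j) k * (4 * Real.pi * Complex.I * c0 * ((l j : ℂ) * (2 * Real.pi * eu l)
        + (k j : ℂ) * (2 * Real.pi * eu k) - ((k + l) j : ℂ) * (2 * Real.pi * eu (k + l))))
          - fr (u j) k * (4 * Real.pi * Complex.I * c0 * ((l j : ℂ) * (2 * Real.pi * eu l)
          - (l j : ℂ) * (2 * Real.pi * eu (k + l))))
          = (4 * Real.pi * Complex.I * c0 * (2 * Real.pi * eu k - 2 * Real.pi * eu (k + l)))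
            * ((k j : ℂ) * fr (u j) k) := by
        intro j
        simp only [Pi.add_apply, Int.cast_add]
        ring
      rw [Finset.sum_congr rfl fun j _ => this j, ← Finset.mul_sum, hdiv, mul_zero]
    rw [s3, Finset.mul_sum, Finset.mul_sum]
    refine Finset.sum_congr rfl fun j _ => ?_
    have s4 : -k - l = -(k + l) := by abel
    rw [fr_La hg, s4, lam_neg]
    unfold D
    rw [fr_La hf]
    unfold lam
    push_cast
    ring
  rw [e] at B3
  have h := A4.unique B3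
  rw [← h]
  unfold Co
  push_cast
  rfl

theorem comm_le : ∃ K : ℝ, 0 ≤ K ∧ ∀ (u : Fin 3 → V → ℝ) (f g : V → ℝ) (κ E : ℝ),
      (∀ j, SP (u j)) → (∀ k : K3, ∑ j, (k j : ℂ) * fr (u j) k = 0) → SP f → SP g → 0 ≤ κ →
      0 ≤ E → Frm κ E g →
      |Co u f g| ≤ K * (κ * (y2 f + ∑ j, y2 (u j)) + E * (x2 f + ∑ j, x2 (u j))) := by
  obtain ⟨C, hC, ha, hb, hb'⟩ := fam_unif
  have hc0 := c0_pos
  have hp := Real.pi_pos
  refine ⟨3 * (C * (1 + 4 * Real.pi ^ 2)) / (2 * c0), by positivity,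
    fun u f g κ E hu hdiv hf hg hκ hE hM => ?_⟩
  have T3 : ∀ f : V → ℝ, ∑' k, C * eu k ^ 3 * ‖fr f k‖ ^ 2 = C * y2 f := by
    intro f
    unfold y2
    rw [← tsum_mul_left]
    exact tsum_congr fun k => by ring
  have T1 : ∀ f : V → ℝ, ∑' k, C * eu k * ‖fr f k‖ ^ 2 = C * x2 f := by
    intro f
    unfold x2
    rw [← tsum_mul_left]
    exact tsum_congr fun k => by ring
  have T2 : ∀ f : V → ℝ, ∑' k, C * eu k * (4 * Real.pi ^ 2 * kk k * ‖fr f k‖ ^ 2)
      = 4 * Real.pi ^ 2 * C * y2 f := by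
    intro f
    unfold y2
    rw [← tsum_mul_left]
    exact tsum_congr fun k => by rw [← eu_sq]; ring
  have hX : ∀ j, ‖(∑' p : K3 × K3, fr f p.1 * fr (u j) p.2 * fr g (-p.1 - p.2)
          * ∫ o, fa j o p.1 * fb o p.2 ∂om)
        - ∑' p : K3 × K3, fr (u j) p.1 * fr f p.2 * fr g (-p.1 - p.2)
          * ∫ o, fa j o p.1 * fb' o p.2 ∂om‖
      ≤ C * (1 + 4 * Real.pi ^ 2) * (κ * (y2 f + y2 (u j)) + E * (x2 f + x2 (u j))) := by
    intro j
    have b1 := bil (ha j) hb fb_zero hf (hu j) hg hκ hE hM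
    have b2 := bil (ha j) hb' fb'_zero (hu j) hf hg hκ hE hM
    rw [T3, T1, T2] at b1 b2
    refine (norm_sub_le _ _).trans ((add_le_add b1 b2).trans ?_)
    have n1 : 0 ≤ C * (4 * Real.pi ^ 2) * (E * (x2 f + x2 (u j))) := by
      have := x2_nonneg f
      have := x2_nonneg (u j)
      positivity
    have e : C * (1 + 4 * Real.pi ^ 2) * (κ * (y2 f + y2 (u j)) + E * (x2 f + x2 (u j)))
        = (κ * (C * y2 f + 4 * Real.pi ^ 2 * C * y2 (u j)) + E * (C * x2 (u j))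
        + (κ * (C * y2 (u j) + 4 * Real.pi ^ 2 * C * y2 f) + E * (C * x2 f)))
          + C * (4 * Real.pi ^ 2) * (E * (x2 f + x2 (u j))) := by ring
    rw [e]
    linarith
  have h := Co_eq hu hdiv hf hg
  have h1 : 2 * c0 * |Co u f g| ≤ ∑ j, C * (1 + 4 * Real.pi ^ 2)
      * (κ * (y2 f + y2 (u j)) + E * (x2 f + x2 (u j))) := by
    have e : 2 * c0 * |Co u f g| = ‖((2 * c0 : ℝ) : ℂ) * (Co u f g : ℝ)‖ := by
      rw [norm_mul, Complex.norm_real, Complex.norm_real, Real.norm_eq_abs, Real.norm_eq_abs,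
        abs_of_pos (by positivity : (0 : ℝ) < 2 * c0)]
    rw [e, h]
    exact (norm_sum_le _ _).trans (Finset.sum_le_sum fun j _ => hX j)
  have e2 : ∑ j, C * (1 + 4 * Real.pi ^ 2) * (κ * (y2 f + y2 (u j)) + E * (x2 f + x2 (u j)))
      = C * (1 + 4 * Real.pi ^ 2) * (κ * (3 * y2 f + ∑ j, y2 (u j))
        + E * (3 * x2 f + ∑ j, x2 (u j))) := by
    rw [← Finset.mul_sum, Finset.sum_add_distrib, ← Finset.mul_sum, ← Finset.mul_sum,
      Finset.sum_add_distrib, Finset.sum_add_distrib, Finset.sum_const, Finset.sum_const,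
      Finset.card_univ, Fintype.card_fin]
    simp only [nsmul_eq_mul]
    push_cast
    ring
  rw [e2] at h1
  have n1 := y2_nonneg f
  have n2 := x2_nonneg f
  have n3 : 0 ≤ ∑ j, y2 (u j) := Finset.sum_nonneg fun j _ => y2_nonneg _
  have n4 : 0 ≤ ∑ j, x2 (u j) := Finset.sum_nonneg fun j _ => x2_nonneg _
  have h5 : 2 * c0 * |Co u f g| ≤ 2 * c0 * (3 * (C * (1 + 4 * Real.pi ^ 2)) / (2 * c0)
      * (κ * (y2 f + ∑ j, y2 (u j)) + E * (x2 f + ∑ j, x2 (u j)))) := by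
    refine h1.trans ?_
    have e3 : 2 * c0 * (3 * (C * (1 + 4 * Real.pi ^ 2)) / (2 * c0)
      * (κ * (y2 f + ∑ j, y2 (u j)) + E * (x2 f + ∑ j, x2 (u j))))
      = C * (1 + 4 * Real.pi ^ 2) * (κ * (3 * (y2 f + ∑ j, y2 (u j)))
        + E * (3 * (x2 f + ∑ j, x2 (u j)))) := by
      field_simp
    rw [e3]
    refine mul_le_mul_of_nonneg_left (add_le_add ?_ ?_) (by positivity)
    · exact mul_le_mul_of_nonneg_left (by linarith) hκ
    · exact mul_le_mul_of_nonneg_left (by linarith) hE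
  exact le_of_mul_le_mul_left h5 (by positivity)

end Pool.Agent.H2NS
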