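import Pool.Agent.H2NS.Unif

/-!
Continuity and time derivative of the critical norm.
-/

open MeasureTheory Set Filter Topology H459R3.NS
open scoped ENNReal ContDiff

set_option autoImplicit false

namespace Pool.Agent.H2NS

open Pool.Agent.W12.MD.R0 (kk kk_pos S_smooth' S_per)

/-- real part of the character -/
noncomputable def rc (k : K3) (x : V) : ℝ := (ee (-k) x).re

/-- imaginary part of the character -/
noncomputable def ic (k : K3) (x : V) : ℝ := (ee (-k) x).im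

theorem rc_smooth (k : K3) {n : WithTop ℕ∞} : ContDiff ℝ n (rc k) :=
  Complex.reCLM.contDiff.comp (ee_contDiff (-k))

theorem ic_smooth (k : K3) {n : WithTop ℕ∞} : ContDiff ℝ n (ic k) :=
  Complex.imCLM.contDiff.comp (ee_contDiff (-k))

theorem fr_re {f : V → ℝ} (hf : Continuous f) (k : K3) :
    (fr f k).re = ∫ x in cube, rc k x * f x := by
  unfold fr fc
  have hc : Continuous fun x => ee (-k) x * (f x : ℂ) :=
    (ee_continuous _).mul (Complex.continuous_ofReal.comp hf)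
  have h := Complex.reCLM.integral_comp_comm (μ := volume.restrict cube) (integrableOn_cube hc)
  rw [← Complex.reCLM_apply, ← h]
  congr 1
  funext x
  simp [rc]

theorem fr_im {f : V → ℝ} (hf : Continuous f) (k : K3) :
    (fr f k).im = ∫ x in cube, ic k x * f x := by
  unfold fr fc
  have hc : Continuous fun x => ee (-k) x * (f x : ℂ) :=
    (ee_continuous _).mul (Complex.continuous_ofReal.comp hf)
  have h := Complex.imCLM.integral_comp_comm (μ := volume.restrict cube) (integrableOn_cube hc)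
  rw [← Complex.imCLM_apply, ← h]
  congr 1
  funext x
  simp [ic]

section

variable {T : ℝ} {f : ℝ → V → ℝ}

theorem int_mul_deriv (hf : ContDiffOn ℝ ∞ (fun z : ℝ × V => f z.1 z.2) (Ico 0 T ×ˢ univ))
    {g : V → ℝ} (hg : ContDiff ℝ 1 g) {t : ℝ} (ht : t ∈ Ioo 0 T) :
    HasDerivAt (fun s => ∫ x in cube, g x * f s x) (∫ x in cube, g x * dt f t x) t := by
  have hF : ContDiffOn ℝ 1 (fun z : ℝ × V => g z.2 * f z.1 z.2) (Ioo 0 T ×ˢ univ) :=
    (hg.comp contDiff_snd).contDiffOn.mul (mono_Ioo hf (by norm_cast))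
  have h := hasDerivAt_int (F := fun s x => g x * f s x) hF ht
  refine h.congr_deriv ?_
  congr 1
  funext x
  have h2 : HasDerivAt (fun s => f s x) (dt f t x) t := by
    have := hasDerivAt_slice (F := f) (mono_Ioo hf (by norm_cast)) ht x
    rwa [← dt_eq hf ht x] at this
  exact (h2.const_mul (g x)).deriv

theorem int_mul_cont (hf : ContDiffOn ℝ ∞ (fun z : ℝ × V => f z.1 z.2) (Ico 0 T ×ˢ univ))
    {g : V → ℝ} (hg : Continuous g) :
    ContinuousOn (fun s => ∫ x in cube, g x * f s x) (Ico 0 T) :=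
  continuousOn_int (F := fun s x => g x * f s x)
    ((hg.comp continuous_snd).continuousOn.mul hf.continuousOn)

theorem nsq_cont (hf : ContDiffOn ℝ ∞ (fun z : ℝ × V => f z.1 z.2) (Ico 0 T ×ˢ univ)) (k : K3) :
    ContinuousOn (fun s => ‖fr (f s) k‖ ^ 2) (Ico 0 T) := by
  have h1 := (int_mul_cont hf (rc_smooth k (n := 1)).continuous).pow 2
  have h2 := (int_mul_cont hf (ic_smooth k (n := 1)).continuous).pow 2
  refine (h1.add h2).congr fun s hs => ?_
  have hc : Continuous (f s) := (contDiff_slice hf hs).continuous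
  simp only [Pi.add_apply, Pi.pow_apply]
  rw [← fr_re hc, ← fr_im hc, ← Complex.normSq_eq_norm_sq, Complex.normSq_apply]
  ring

theorem nsq_deriv (hf : ContDiffOn ℝ ∞ (fun z : ℝ × V => f z.1 z.2) (Ico 0 T ×ˢ univ)) (k : K3)
    {t : ℝ} (ht : t ∈ Ioo 0 T) :
    HasDerivAt (fun s => ‖fr (f s) k‖ ^ 2)
      (2 * ((starRingEnd ℂ) (fr (f t) k) * fr (dt f t) k).re) t := by
  have h1 := (int_mul_deriv hf (rc_smooth k) ht).fun_pow 2
  have h2 := (int_mul_deriv hf (ic_smooth k) ht).fun_pow 2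
  have h3 := h1.fun_add h2
  have hev : (fun s => ‖fr (f s) k‖ ^ 2) =ᶠ[𝓝 t]
      fun s => (∫ x in cube, rc k x * f s x) ^ 2 + (∫ x in cube, ic k x * f s x) ^ 2 := by
    filter_upwards [Ioo_mem_nhds ht.1 ht.2] with s hs
    have hc : Continuous (f s) := (contDiff_slice hf ⟨hs.1.le, hs.2⟩).continuous
    rw [← fr_re hc, ← fr_im hc, ← Complex.normSq_eq_norm_sq, Complex.normSq_apply]
    ring
  refine (h3.congr_of_eventuallyEq hev).congr_deriv ?_
  have hc : Continuous (f t) := (contDiff_slice hf ⟨ht.1.le, ht.2⟩).continuous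
  have hc' : Continuous (dt f t) := (contDiff_dt hf ht).continuous
  rw [← fr_re hc, ← fr_im hc, ← fr_re hc', ← fr_im hc', Complex.mul_re, Complex.conj_re,
    Complex.conj_im]
  push_cast
  ring

/-- `∑ |k|^n |f̂(k)|²` -/
noncomputable def zn (n : ℕ) (f : V → ℝ) : ℝ := ∑' k, eu k ^ n * ‖fr f k‖ ^ 2

theorem zn_cont (hf : ContDiffOn ℝ ∞ (fun z : ℝ × V => f z.1 z.2) (Ico 0 T ×ˢ univ))
    (hp : ∀ t ∈ Ico 0 T, Per (f t)) (n : ℕ) : ContinuousOn (fun s => zn n (f s)) (Ico 0 T) := by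
  intro t ht
  obtain ⟨b, hb1, hb2⟩ := exists_between ht.2
  obtain ⟨C, hC0, hC⟩ := unif_wt hf hp hb2 n
  obtain ⟨M, hM0, hM⟩ := unif_1N hf hp hb2 0
  have h1 : ContinuousOn (fun s => zn n (f s)) (Icc 0 b) := by
    refine continuousOn_tsum (u := fun k => M * (C * wt k))
      (fun k => ((nsq_cont hf k).mono fun s hs => ⟨hs.1, hs.2.trans_lt hb2⟩).const_smul (eu k ^ n)
        |>.congr fun s _ => by simp [smul_eq_mul]) ((wt_summable.mul_left C).mul_left M)
      fun k s hs => ?_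
    have a := hC s hs k
    have c := hM s hs k
    rw [pow_zero, one_mul] at c
    have he := eu_nonneg k
    rw [Real.norm_eq_abs, abs_of_nonneg (by positivity), sq, ← mul_assoc, mul_comm]
    exact mul_le_mul c a (by positivity) hM0
  have hev : Icc 0 b ∈ 𝓝[Ico 0 T] t := by
    have h2 : ∀ᶠ s in 𝓝[Ico 0 T] t, s < b := nhdsWithin_le_nhds (Iio_mem_nhds hb1)
    filter_upwards [h2, self_mem_nhdsWithin] with s hs1 hs2
    exact ⟨hs2.1, hs1.le⟩
  exact (h1 t ⟨ht.1, hb1.le⟩).mono_of_mem_nhdsWithin hev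

theorem zn_deriv (hf : ContDiffOn ℝ ∞ (fun z : ℝ × V => f z.1 z.2) (Ico 0 T ×ˢ univ))
    (hp : ∀ t ∈ Ico 0 T, Per (f t)) (n : ℕ) {t : ℝ} (ht : t ∈ Ioo 0 T) :
    HasDerivAt (fun s => zn n (f s))
      (∑' k, eu k ^ n * (2 * ((starRingEnd ℂ) (fr (f t) k) * fr (dt f t) k).re)) t := by
  obtain ⟨a, ha1, ha2⟩ := exists_between ht.1
  obtain ⟨b, hb1, hb2⟩ := exists_between ht.2
  obtain ⟨C, hC0, hC⟩ := unif_wt hf hp hb2 n
  have hO : IsOpen (Ioo 0 T ×ˢ (univ : Set V)) := isOpen_Ioo.prod isOpen_univ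
  have hd : ContinuousOn (fun z : ℝ × V =>
      fderiv ℝ (fun z : ℝ × V => f z.1 z.2) z (1, 0)) (Ioo 0 T ×ˢ univ) :=
    ((mono_Ioo hf (n := 1) (by norm_cast)).continuousOn_fderiv_of_isOpen hO le_rfl).clm_apply
      continuousOn_const
  have hK : IsCompact (Icc a b ×ˢ cube) := isCompact_Icc.prod isCompact_Icc
  have hsub : Icc a b ×ˢ cube ⊆ Ioo 0 T ×ˢ (univ : Set V) :=
    prod_mono (fun s hs => ⟨ha1.trans_le hs.1, hs.2.trans_lt hb2⟩) (subset_univ _)
  obtain ⟨M, hM⟩ := hK.exists_bound_of_continuousOn (hd.mono hsub)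
  have hM' : ∀ s ∈ Ioo a b, ∀ k, ‖fr (dt f s) k‖ ≤ |M| * volume.real cube := by
    intro s hs k
    refine norm_fr_le_const (fun x hx => ?_) k
    rw [dt_eq hf ⟨ha1.trans hs.1, hs.2.trans hb2⟩ x]
    exact (hM (s, x) ⟨⟨hs.1.le, hs.2.le⟩, hx⟩).trans (le_abs_self _)
  have hmem : ∀ s ∈ Ioo a b, s ∈ Ioo 0 T := fun s hs => ⟨ha1.trans hs.1, hs.2.trans hb2⟩
  refine hasDerivAt_tsum_of_isPreconnected
    (u := fun k => 2 * (|M| * volume.real cube) * (C * wt k)) (t := Ioo a b) (y₀ := t)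
    ((wt_summable.mul_left C).mul_left _) isOpen_Ioo isPreconnected_Ioo
    (fun k s hs => (nsq_deriv hf k (hmem s hs)).const_mul _) (fun k s hs => ?_) ⟨ha2, hb1⟩
    (summ_eu (rap_fr (slice_sp hf hp ⟨ht.1.le, ht.2⟩)) n) ⟨ha2, hb1⟩
  have h1 := hC s ⟨(hmem s hs).1.le, hs.2.le⟩ k
  have h2 := hM' s hs k
  have he := eu_nonneg k
  rw [norm_mul, norm_mul, Real.norm_eq_abs, Real.norm_eq_abs, Real.norm_eq_abs,
    abs_of_nonneg (by positivity : 0 ≤ eu k ^ n), abs_of_pos (by norm_num : (0 : ℝ) < 2)]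
  have h3 : |((starRingEnd ℂ) (fr (f s) k) * fr (dt f s) k).re|
      ≤ ‖fr (f s) k‖ * (|M| * volume.real cube) := by
    refine (Complex.abs_re_le_norm _).trans ?_
    rw [norm_mul, Complex.norm_conj]
    exact mul_le_mul_of_nonneg_left h2 (norm_nonneg _)
  calc eu k ^ n * (2 * |((starRingEnd ℂ) (fr (f s) k) * fr (dt f s) k).re|)
      ≤ eu k ^ n * (2 * (‖fr (f s) k‖ * (|M| * volume.real cube))) := by gcongr
    _ = 2 * (|M| * volume.real cube) * (eu k ^ n * ‖fr (f s) k‖) := by ring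
    _ ≤ _ := by gcongr

end

end Pool.Agent.H2NS
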