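import Mathlib

/-!
Differential inequalities which hold for almost every time.
-/

open MeasureTheory Set Filter Topology

set_option autoImplicit false

namespace Pool.Agent.H2NS

theorem sub_le_ae {g g' φ : ℝ → ℝ} {t : ℝ} (ht : 0 ≤ t) (hc : ContinuousOn g (Icc 0 t))
    (hd : ∀ x ∈ Ioo 0 t, HasDerivAt g (g' x) x) (φint : IntegrableOn φ (Icc 0 t))
    (hle : ∀ᵐ x ∂(volume.restrict (Ioo 0 t)), g' x ≤ φ x) : g t - g 0 ≤ ∫ y in (0 : ℝ)..t, φ y := by
  have hae : (fun x => max (φ x) (g' x)) =ᵐ[volume.restrict (Ioo 0 t)] φ := by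
    filter_upwards [hle] with x hx
    exact max_eq_left hx
  have hi : IntegrableOn (fun x => max (φ x) (g' x)) (Icc 0 t) := by
    rw [integrableOn_Icc_iff_integrableOn_Ioo] at φint ⊢
    exact φint.congr_fun_ae hae.symm
  have h1 := intervalIntegral.sub_le_integral_of_hasDeriv_right_of_le ht hc
    (fun x hx => (hd x hx).hasDerivWithinAt) hi (fun x _ => le_max_right _ _)
  refine h1.trans (le_of_eq ?_)
  rw [intervalIntegral.integral_of_le ht, intervalIntegral.integral_of_le ht,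
    integral_Ioc_eq_integral_Ioo, integral_Ioc_eq_integral_Ioo]
  exact integral_congr_ae hae

theorem gron_ae {y y' g : ℝ → ℝ} {t : ℝ} (ht : 0 ≤ t) (hy0 : ∀ s, 0 ≤ y s)
    (hc : ContinuousOn y (Icc 0 t)) (hd : ∀ s ∈ Ioo 0 t, HasDerivAt y (y' s) s)
    (hg0 : ∀ s ∈ Ioo 0 t, 0 ≤ g s) (hgi : IntegrableOn g (Icc 0 t))
    (hle : ∀ᵐ s ∂(volume.restrict (Ioo 0 t)), y' s ≤ g s * y s) :
    y t ≤ y 0 * Real.exp (∫ s in (0 : ℝ)..t, g s) := by
  set B := ∫ s in (0 : ℝ)..t, g s with hB
  have hlog : ∀ ε : ℝ, 0 < ε → y t + ε ≤ (y 0 + ε) * Real.exp B := by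
    intro ε hε
    have hpos : ∀ s, 0 < y s + ε := fun s => by linarith [hy0 s]
    have hc' : ContinuousOn (fun s => Real.log (y s + ε)) (Icc 0 t) :=
      (hc.add continuousOn_const).log fun s _ => (hpos s).ne'
    have hd' : ∀ s ∈ Ioo 0 t, HasDerivAt (fun s => Real.log (y s + ε))
        (y' s / (y s + ε)) s := by
      intro s hs
      exact ((hd s hs).add_const ε).log (hpos s).ne'
    have hle' : ∀ᵐ s ∂(volume.restrict (Ioo 0 t)), y' s / (y s + ε) ≤ g s := by
      filter_upwards [hle, ae_restrict_mem measurableSet_Ioo] with s h1 hs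
      rw [div_le_iff₀ (hpos s)]
      refine h1.trans ?_
      exact mul_le_mul_of_nonneg_left (by linarith) (hg0 s hs)
    have h1 := sub_le_ae ht hc' hd' hgi hle'
    have h2 : Real.log (y t + ε) ≤ Real.log (y 0 + ε) + B := by linarith
    calc y t + ε = Real.exp (Real.log (y t + ε)) := (Real.exp_log (hpos t)).symm
      _ ≤ Real.exp (Real.log (y 0 + ε) + B) := Real.exp_le_exp.2 h2
      _ = (y 0 + ε) * Real.exp B := by rw [Real.exp_add, Real.exp_log (hpos 0)]
  have hlim1 : Tendsto (fun ε : ℝ => y t + ε) (𝓝[>] 0) (𝓝 (y t + 0)) :=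
    (tendsto_const_nhds.add tendsto_id).mono_left nhdsWithin_le_nhds
  have hlim2 : Tendsto (fun ε : ℝ => (y 0 + ε) * Real.exp B) (𝓝[>] 0)
      (𝓝 ((y 0 + 0) * Real.exp B)) :=
    ((tendsto_const_nhds.add tendsto_id).mul_const _).mono_left nhdsWithin_le_nhds
  have := le_of_tendsto_of_tendsto hlim1 hlim2 (by
    filter_upwards [self_mem_nhdsWithin] with ε hε
    exact hlog ε hε)
  simpa using this

/-- A nonnegative continuous function whose integrals over `[0, t]`, `t < T`, are bounded. -/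
theorem intOn_of_bdd {f : ℝ → ℝ} {T M : ℝ} (hf : ContinuousOn f (Ico 0 T))
    (hf0 : ∀ t ∈ Ico 0 T, 0 ≤ f t) (hM : ∀ t ∈ Ico 0 T, ∫ s in (0 : ℝ)..t, f s ≤ M) :
    IntegrableOn f (Ioo 0 T) := by
  rcases le_or_gt T 0 with hT | hT
  · rw [Ioo_eq_empty (by linarith)]
    exact integrableOn_empty
  have hTn : 0 < T := hT
  set b : ℕ → ℝ := fun n => T - T / (n + 2) with hb
  have hb1 : ∀ n, b n ∈ Ico 0 T := by
    intro n
    have h1 : 0 < T / ((n : ℝ) + 2) := by positivity
    have h2 : T / ((n : ℝ) + 2) ≤ T := div_le_self hT.le (by linarith [(Nat.cast_nonneg n : (0 : ℝ) ≤ n)])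
    exact ⟨by simp only [hb]; linarith, by simp only [hb]; linarith⟩
  have hbt : Tendsto b atTop (𝓝 T) := by
    have h1 : Tendsto (fun n : ℕ => (n : ℝ) + 2) atTop atTop :=
      tendsto_atTop_add_const_right _ _ tendsto_natCast_atTop_atTop
    have h2 : Tendsto (fun n : ℕ => T / ((n : ℝ) + 2)) atTop (𝓝 0) := h1.const_div_atTop T
    have h3 := (tendsto_const_nhds (x := T)).sub h2
    simpa using h3
  have h := integrableOn_Ioc_of_intervalIntegral_norm_bounded_right (f := f) (a := 0) (b := b)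
    (b₀ := T) (l := atTop) (I := M) (fun n => ?_) hbt (Eventually.of_forall fun n => ?_)
  · exact h.mono_set Ioo_subset_Ioc_self
  · have : ContinuousOn f (Icc 0 (b n)) :=
      hf.mono fun s hs => ⟨hs.1, hs.2.trans_lt (hb1 n).2⟩
    exact this.integrableOn_Icc.mono_set Ioc_subset_Icc_self
  · have h1 := hM (b n) (hb1 n)
    rw [intervalIntegral.integral_of_le (hb1 n).1] at h1
    refine le_trans (le_of_eq ?_) h1
    refine setIntegral_congr_fun measurableSet_Ioc fun s hs => ?_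
    have : 0 ≤ f s := hf0 s ⟨hs.1.le, hs.2.trans_lt (hb1 n).2⟩
    simp only [Real.norm_eq_abs, abs_of_nonneg this]

/-- The integral of a nonnegative function whose integrals over `[0, t]`, `t < T`, are bounded. -/
theorem int_le_of_bdd {f : ℝ → ℝ} {T M : ℝ} (hM0 : 0 ≤ M) (hf : IntegrableOn f (Ioo 0 T))
    (hM : ∀ t ∈ Ico 0 T, ∫ s in (0 : ℝ)..t, f s ≤ M) :
    ∫ s in Ioo 0 T, f s ≤ M := by
  rcases le_or_gt T 0 with hT | hT
  · rw [Ioo_eq_empty (by linarith)]
    simpa using hM0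
  set b : ℕ → ℝ := fun n => T - T / (n + 2) with hb
  have hb1 : ∀ n, b n ∈ Ico 0 T := by
    intro n
    have h1 : 0 < T / ((n : ℝ) + 2) := by positivity
    have h2 : T / ((n : ℝ) + 2) ≤ T := div_le_self hT.le (by linarith [(Nat.cast_nonneg n : (0 : ℝ) ≤ n)])
    exact ⟨by simp only [hb]; linarith, by simp only [hb]; linarith⟩
  have hbt : Tendsto b atTop (𝓝 T) := by
    have h1 : Tendsto (fun n : ℕ => (n : ℝ) + 2) atTop atTop :=
      tendsto_atTop_add_const_right _ _ tendsto_natCast_atTop_atTop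
    have h2 : Tendsto (fun n : ℕ => T / ((n : ℝ) + 2)) atTop (𝓝 0) := h1.const_div_atTop T
    have h3 := (tendsto_const_nhds (x := T)).sub h2
    simpa using h3
  have hmono : Monotone fun n => Ioc 0 (b n) := by
    intro n m hnm
    refine Ioc_subset_Ioc_right ?_
    simp only [hb]
    have : T / ((m : ℝ) + 2) ≤ T / ((n : ℝ) + 2) := by
      apply div_le_div_of_nonneg_left hT.le (by positivity)
      have : (n : ℝ) ≤ m := by exact_mod_cast hnm
      linarith
    linarith
  have hun : ⋃ n, Ioc 0 (b n) = Ioo 0 T := by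
    ext x
    simp only [mem_iUnion, mem_Ioc, mem_Ioo]
    constructor
    · rintro ⟨n, h1, h2⟩
      exact ⟨h1, h2.trans_lt (hb1 n).2⟩
    · rintro ⟨h1, h2⟩
      obtain ⟨n, hn⟩ := (hbt.eventually (lt_mem_nhds h2)).exists
      exact ⟨n, h1, hn.le⟩
  have h := tendsto_setIntegral_of_monotone (fun n => measurableSet_Ioc) hmono
    (by rw [hun]; exact hf)
  rw [hun] at h
  refine le_of_tendsto' h fun n => ?_
  rw [← intervalIntegral.integral_of_le (hb1 n).1]
  exact hM _ (hb1 n)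

end Pool.Agent.H2NS
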