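import Pool.Agent.H2NS.XD
import Pool.Agent.H2NS.Ode
import Pool.Agent.H459R3.NS.Iso

/-!
Regularity from one helical part.
-/

open MeasureTheory Set Filter Topology H459R3.NS
open scoped ENNReal ContDiff

set_option autoImplicit false

namespace Pool.Agent.H2NS

open Pool.Agent.W12.MD.R0 (kk kk_pos S_smooth' S_per)

variable {ν T : ℝ} {u : ℝ → V → V} {P : ℝ → V → ℝ}

theorem Zn1_eq (v : V → V) : Zn 1 v = ∑ j, x2 (fun y => v y j) := by
  unfold Zn zn x2
  exact Finset.sum_congr rfl fun j _ => tsum_congr fun k => by rw [pow_one]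

theorem Zn3_eq (v : V → V) : Zn 3 v = ∑ j, y2 (fun y => v y j) := rfl

/-- Interpolation. -/
theorem enstrophy_sq_le {v : V → V} (hv : ∀ i, SP (fun y => v y i)) :
    enstrophy v ^ 2 ≤ 16 * Real.pi ^ 4 * (Zn 1 v * Zn 3 v) := by
  have h2 : enstrophy v = 4 * Real.pi ^ 2 * Zn 2 v := by
    unfold enstrophy Zn zn
    rw [Finset.mul_sum]
    refine Finset.sum_congr rfl fun i _ => ?_
    rw [← grd_sq, grd_fr (hv i), ← tsum_mul_left]
    exact tsum_congr fun k => by rw [eu_sq]; ring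
  have s1 : ∀ i, Summable fun k => eu k ^ 1 * ‖fr (fun y => v y i) k‖ ^ 2 := fun i =>
    summ_eu (rap_fr (hv i)) 1
  have s2 : ∀ i, Summable fun k => eu k ^ 2 * ‖fr (fun y => v y i) k‖ ^ 2 := fun i =>
    summ_eu (rap_fr (hv i)) 2
  have s3 : ∀ i, Summable fun k => eu k ^ 3 * ‖fr (fun y => v y i) k‖ ^ 2 := fun i =>
    summ_eu (rap_fr (hv i)) 3
  -- for every real `x`, `0 ≤ x² Z1 - 2 x Z2 + Z3`
  have hq : ∀ x : ℝ, 0 ≤ Zn 1 v * (x * x) + (-2 * Zn 2 v) * x + Zn 3 v := by
    intro x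
    have e : Zn 1 v * (x * x) + (-2 * Zn 2 v) * x + Zn 3 v
        = ∑ i, ∑' k, eu k * (x - eu k) ^ 2 * ‖fr (fun y => v y i) k‖ ^ 2 := by
      unfold Zn zn
      rw [Finset.sum_mul, Finset.mul_sum, Finset.sum_mul, ← Finset.sum_add_distrib,
        ← Finset.sum_add_distrib]
      refine Finset.sum_congr rfl fun i _ => ?_
      have t1 := (s1 i).hasSum.mul_left (x * x)
      have t2 := (s2 i).hasSum.mul_left (-2 * x)
      have t3 := (s3 i).hasSum
      have t4 := (t1.add t2).add t3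
      have e1 : (fun k => x * x * (eu k ^ 1 * ‖fr (fun y => v y i) k‖ ^ 2)
          + -2 * x * (eu k ^ 2 * ‖fr (fun y => v y i) k‖ ^ 2)
          + eu k ^ 3 * ‖fr (fun y => v y i) k‖ ^ 2)
          = fun k => eu k * (x - eu k) ^ 2 * ‖fr (fun y => v y i) k‖ ^ 2 := by
        funext k
        ring
      rw [e1] at t4
      rw [t4.tsum_eq]
      ring
    rw [e]
    refine Finset.sum_nonneg fun i _ => tsum_nonneg fun k => ?_
    have := eu_nonneg k
    positivity
  have hd := discrim_le_zero hq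
  unfold discrim at hd
  have h3 : Zn 2 v ^ 2 ≤ Zn 1 v * Zn 3 v := by nlinarith
  rw [h2]
  have hp := Real.pi_pos
  have e : (4 * Real.pi ^ 2 * Zn 2 v) ^ 2 = 16 * Real.pi ^ 4 * Zn 2 v ^ 2 := by ring
  rw [e]
  gcongr

theorem palin_zero : palin (fun _ => 0) = 0 := by
  unfold palin lap pd
  simp

theorem stretch_zero : stretch (fun _ => 0) = 0 := by
  unfold stretch pd
  simp

/-- Integrability of the square of the enstrophy implies regularity. -/
theorem bdd_of_enst_sq (h : IsSol ν T u P) (hν : 0 < ν)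
    (hi : IntegrableOn (fun t => (enstrophy (u t) + energy (u t)) ^ 2) (Ioo 0 T)) :
    ∃ M, ∀ t ∈ Ico 0 T, ∀ x i, |u t x i| ≤ M := by
  obtain ⟨C, hC0, hC⟩ := sobolev
  have hpq : 3 * ((6 : ℝ≥0∞)⁻¹).toReal + 2 / 4 = 1 := by
    rw [ENNReal.toReal_inv]
    norm_num
  obtain ⟨C', -, hC'⟩ := serrin (p := 6) (q := 4) (by norm_num) hpq hν (K := 1) zero_le_one
    (lam := 0) (κ := 0) le_rfl (by norm_num)
  set β : ℝ → ℝ := fun t => C * Real.sqrt (enstrophy (u t) + energy (u t)) with hβ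
  have hβ4 : ∀ t, β t ^ (4 : ℝ) = C ^ 4 * (enstrophy (u t) + energy (u t)) ^ 2 := by
    intro t
    have h0 : 0 ≤ enstrophy (u t) + energy (u t) := add_nonneg (enstrophy_nonneg _) (energy_nonneg _)
    have : β t ^ (4 : ℝ) = β t ^ 4 := by
      rw [← Real.rpow_natCast]
      norm_num
    rw [this, hβ]
    simp only
    rw [mul_pow]
    congr 1
    rw [show (4 : ℕ) = 2 * 2 by norm_num, pow_mul, Real.sq_sqrt h0]
  refine (hC' T 0 u P β (fun _ => 0) h le_rfl (fun t ht => ⟨by positivity, le_rfl⟩) ?_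
    integrableOn_zero fun t ht => ?_).2
  · simp_rw [hβ4]
    exact hi.const_mul _
  · have hI : t ∈ Ico 0 T := ⟨ht.1.le, ht.2⟩
    refine ⟨fun _ => 0, fun _ => 0, ∅, SPV.zero, SPV.zero, dimTwo_empty, fun i k _ => fr_zero k,
      ?_, ?_, ?_, ?_, fun i => ?_⟩
    · rw [enstrophy_zero, one_pow, one_mul]
      exact enstrophy_nonneg _
    · rw [palin_zero, one_pow, one_mul]
      exact palin_nonneg _
    · rw [enstrophy_zero, one_pow, one_mul]
      exact enstrophy_nonneg _
    · rw [stretch_zero]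
      simp
    · have e : (fun x => u t x i - (0 : V) i - (0 : V) i) = fun x => u t x i := by
        funext x
        simp
      show eLpNorm (fun x => u t x i - (0 : V) i - (0 : V) i) 6 _ ≤ _
      rw [e]
      refine (hC _ (h.sp hI i)).trans (ENNReal.ofReal_le_ofReal ?_)
      refine mul_le_mul_of_nonneg_left (Real.sqrt_le_sqrt (add_le_add ?_ ?_)) hC0
      · exact Finset.single_le_sum (f := fun i => ∑ j, ∫ x in cube, pd j (fun y => u t y i) x ^ 2)
          (fun i _ => Finset.sum_nonneg fun j _ => integral_nonneg fun _ => sq_nonneg _)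
          (Finset.mem_univ i)
      · exact Finset.single_le_sum (f := fun i => ∫ x in cube, u t x i ^ 2)
          (fun i _ => integral_nonneg fun _ => sq_nonneg _) (Finset.mem_univ i)

/-- The criterion for form-bounded helical parts, with universal constants. -/
theorem main_frm : ∃ c C : ℝ, 0 < c ∧ 0 ≤ C ∧ ∀ (ν : ℝ), 0 < ν →
      ∀ (T : ℝ) (u : ℝ → V → V) (P : ℝ → V → ℝ) (E : ℝ → ℝ), IsSol ν T u P →
      (∀ t ∈ Ioo 0 T, 0 ≤ E t) → IntegrableOn E (Ioo 0 T) →
      (∀ᵐ t ∂(volume.restrict (Ioo 0 T)), ∃ s : ℝ, |s| = 1 ∧ ∀ i,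
        Frm (c * ν) (E t) (hp s (fun i y => u t y i) i)) →
      (∀ t ∈ Ico 0 T, Zn 1 (u t) ≤ Zn 1 (u 0) * Real.exp (C * ∫ s in Ioo 0 T, E s)) ∧
      ∃ M, ∀ t ∈ Ico 0 T, ∀ x i, |u t x i| ≤ M := by
  obtain ⟨K, hK, hN⟩ := N_le
  have hp := Real.pi_pos
  refine ⟨4 * Real.pi ^ 3 / (K + 1), K / Real.pi, by positivity, by positivity,
    fun ν hν T u P β h hβ0 hβi hae => ?_⟩
  set c := 4 * Real.pi ^ 3 / (K + 1) with hc
  have hc0 : 0 < c := by positivity
  set y : ℝ → ℝ := fun s => Zn 1 (u s) with hy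
  set Y : ℝ → ℝ := fun s => Zn 3 (u s) with hY
  have hy0 : ∀ s, 0 ≤ y s := fun s => Zn_nonneg 1 _
  have hY0 : ∀ s, 0 ≤ Y s := fun s => Zn_nonneg 3 _
  set y' : ℝ → ℝ := fun t => -(8 * Real.pi ^ 2 * ν * Zn 3 (u t)) - 1 / Real.pi *
        ∑ i, ∫ x in cube, tr (fun i y => u t y i) (fun y => u t y i) x
          * La (fun y => u t y i) x with hy'
  have hder : ∀ t ∈ Ioo 0 T, HasDerivAt y (y' t) t := fun t ht => Z1_deriv h ht
  have hle : ∀ᵐ t ∂(volume.restrict (Ioo 0 T)),
      y' t ≤ -(4 * Real.pi ^ 2 * ν * Y t) + K / Real.pi * β t * y t := by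
    filter_upwards [hae, ae_restrict_mem measurableSet_Ioo] with t hs ht
    obtain ⟨s, hs1, hM⟩ := hs
    have hI : t ∈ Ico 0 T := ⟨ht.1.le, ht.2⟩
    have h1 := hN (fun i y => u t y i) s (c * ν) (β t) hs1 (fun i => h.sp hI i)
      (h.divfree t hI) (by positivity) (hβ0 t ht) hM
    rw [← Zn3_eq, ← Zn1_eq] at h1
    set N0 := ∑ i, ∫ x in cube, tr (fun i y => u t y i) (fun y => u t y i) x
          * La (fun y => u t y i) x with hN0
    have h3 : K * (c * ν) ≤ 4 * Real.pi ^ 3 * ν := by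
      rw [hc]
      have : K * (4 * Real.pi ^ 3 / (K + 1) * ν) = 4 * Real.pi ^ 3 * ν * (K / (K + 1)) := by
        field_simp
      rw [this]
      have h4 : K / (K + 1) ≤ 1 := by
        rw [div_le_one (by positivity)]
        linarith
      have := mul_le_mul_of_nonneg_left h4 (by positivity : 0 ≤ 4 * Real.pi ^ 3 * ν)
      linarith
    have h5 : K * (c * ν) * Zn 3 (u t) ≤ 4 * Real.pi ^ 3 * ν * Zn 3 (u t) :=
      mul_le_mul_of_nonneg_right h3 (hY0 t)
    have h6 : -N0 ≤ 4 * Real.pi ^ 3 * ν * Zn 3 (u t) + K * (β t * Zn 1 (u t)) := by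
      have h7 := neg_le_abs N0
      have h8 : K * (c * ν * Zn 3 (u t) + β t * Zn 1 (u t))
          = K * (c * ν) * Zn 3 (u t) + K * (β t * Zn 1 (u t)) := by ring
      linarith
    have h7 : 1 / Real.pi * (-N0) ≤ 1 / Real.pi * (4 * Real.pi ^ 3 * ν * Zn 3 (u t)
        + K * (β t * Zn 1 (u t))) := mul_le_mul_of_nonneg_left h6 (by positivity)
    have h8 : 1 / Real.pi * (4 * Real.pi ^ 3 * ν * Zn 3 (u t) + K * (β t * Zn 1 (u t)))
        = 4 * Real.pi ^ 2 * ν * Zn 3 (u t) + K / Real.pi * β t * Zn 1 (u t) := by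
      field_simp
    simp only [hy', hY, hy]
    rw [h8] at h7
    linarith
  have hβ1 : ∀ t ∈ Ico 0 T, IntegrableOn β (Icc 0 t) := by
    intro t ht
    rw [integrableOn_Icc_iff_integrableOn_Ioc, integrableOn_Ioc_iff_integrableOn_Ioo]
    exact hβi.mono_set (Ioo_subset_Ioo_right ht.2.le)
  have hyc : ContinuousOn y (Ico 0 T) := Zn_cont h 1
  have hYc : ContinuousOn Y (Ico 0 T) := Zn_cont h 3
  have hsub : ∀ t ∈ Ico 0 T, Icc 0 t ⊆ Ico 0 T := fun t ht s hs => ⟨hs.1, hs.2.trans_lt ht.2⟩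
  have hsub2 : ∀ t ∈ Ico 0 T, Ioo 0 t ⊆ Ioo 0 T := fun t ht => Ioo_subset_Ioo_right ht.2.le
  set B := ∫ s in Ioo 0 T, β s with hB
  have hB0 : 0 ≤ B := setIntegral_nonneg measurableSet_Ioo fun s hs => hβ0 s hs
  have hBt : ∀ t ∈ Ico 0 T, ∫ s in (0 : ℝ)..t, K / Real.pi * β s ≤ K / Real.pi * B := by
    intro t ht
    rw [intervalIntegral.integral_const_mul]
    refine mul_le_mul_of_nonneg_left ?_ (by positivity)
    rw [intervalIntegral.integral_of_le ht.1, integral_Ioc_eq_integral_Ioo]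
    refine setIntegral_mono_set hβi ?_ (hsub2 t ht).eventuallyLE
    filter_upwards [ae_restrict_mem measurableSet_Ioo] with s hs
    exact hβ0 s hs
  have hmain : ∀ t ∈ Ico 0 T, y t ≤ y 0 * Real.exp (K / Real.pi * B) := by
    intro t ht
    have h1 := gron_ae (y := y) (y' := y') (g := fun s => K / Real.pi * β s) ht.1 hy0
      (hyc.mono (hsub t ht)) (fun s hs => hder s (hsub2 t ht hs))
      (fun s hs => mul_nonneg (by positivity) (hβ0 s (hsub2 t ht hs)))
      ((hβ1 t ht).const_mul _) (by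
        have := ae_restrict_of_ae_restrict_of_subset (hsub2 t ht) hle
        filter_upwards [this] with s hs
        refine hs.trans ?_
        have : 0 ≤ 4 * Real.pi ^ 2 * ν * Y s := by
          have := hY0 s
          positivity
        linarith)
    refine h1.trans (mul_le_mul_of_nonneg_left (Real.exp_le_exp.2 (hBt t ht)) (hy0 0))
  refine ⟨hmain, ?_⟩
  set R := y 0 * Real.exp (K / Real.pi * B) with hR
  have hR0 : 0 ≤ R := mul_nonneg (hy0 0) (Real.exp_pos _).le
  -- the integral of `Y`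
  have hYint : ∀ t ∈ Ico 0 T, ∫ s in (0 : ℝ)..t, Y s
      ≤ (y 0 + R * (K / Real.pi * B)) / (4 * Real.pi ^ 2 * ν) := by
    intro t ht
    have hY1 : IntegrableOn Y (Icc 0 t) := (hYc.mono (hsub t ht)).integrableOn_Icc
    have i2 : IntervalIntegrable Y volume 0 t :=
      (intervalIntegrable_iff_integrableOn_Icc_of_le ht.1).2 hY1
    have i1 : IntervalIntegrable (fun s => K / Real.pi * β s) volume 0 t :=
      (intervalIntegrable_iff_integrableOn_Icc_of_le ht.1).2 ((hβ1 t ht).const_mul _)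
    have hφ : IntegrableOn (fun s => -(4 * Real.pi ^ 2 * ν * Y s) + R * (K / Real.pi * β s))
        (Icc 0 t) := ((hY1.const_mul (4 * Real.pi ^ 2 * ν)).neg).add
          (((hβ1 t ht).const_mul (K / Real.pi)).const_mul R)
    have h1 := sub_le_ae (g := y) (g' := y')
      (φ := fun s => -(4 * Real.pi ^ 2 * ν * Y s) + R * (K / Real.pi * β s)) ht.1
      (hyc.mono (hsub t ht)) (fun s hs => hder s (hsub2 t ht hs))
      hφ (by
        have := ae_restrict_of_ae_restrict_of_subset (hsub2 t ht) hle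
        filter_upwards [this, ae_restrict_mem measurableSet_Ioo] with s hs hs'
        refine hs.trans ?_
        have hs'' := hsub2 t ht hs'
        have h2 := hmain s ⟨hs''.1.le, hs''.2⟩
        have h3 := hβ0 s hs''
        have h4 : K / Real.pi * β s * y s ≤ K / Real.pi * β s * R :=
          mul_le_mul_of_nonneg_left h2 (by positivity)
        linarith)
    have j1 : IntervalIntegrable (fun s => -(4 * Real.pi ^ 2 * ν * Y s)) volume 0 t :=
      (i2.const_mul _).neg
    rw [intervalIntegral.integral_add j1 (i1.const_mul R), intervalIntegral.integral_neg,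
      intervalIntegral.integral_const_mul, intervalIntegral.integral_const_mul] at h1
    have h2 := mul_le_mul_of_nonneg_left (hBt t ht) hR0
    have h3 := hy0 t
    rw [le_div_iff₀ (by positivity)]
    linarith
  refine bdd_of_enst_sq h hν ?_
  set E := energy (u 0) with hE
  have hE0 : 0 ≤ E := energy_nonneg _
  set M1 := (y 0 + R * (K / Real.pi * B)) / (4 * Real.pi ^ 2 * ν) with hM1
  have hM10 : 0 ≤ M1 := by
    have := hy0 0
    positivity
  refine intOn_of_bdd (M := 32 * Real.pi ^ 4 * R * M1 + 2 * E ^ 2 * T)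
    ((h.enstrophy_continuousOn.add h.energy_continuousOn).pow 2) (fun t _ => sq_nonneg _)
    fun t ht => ?_
  have hY1 : IntegrableOn Y (Icc 0 t) := (hYc.mono (hsub t ht)).integrableOn_Icc
  have i2 : IntervalIntegrable Y volume 0 t :=
    (intervalIntegrable_iff_integrableOn_Icc_of_le ht.1).2 hY1
  have hfc : ContinuousOn (fun s => (enstrophy (u s) + energy (u s)) ^ 2) (Icc 0 t) :=
    ((h.enstrophy_continuousOn.add h.energy_continuousOn).pow 2).mono (hsub t ht)
  have i3 : IntervalIntegrable (fun s => (enstrophy (u s) + energy (u s)) ^ 2) volume 0 t :=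
    hfc.intervalIntegrable_of_Icc ht.1
  have i4 : IntervalIntegrable (fun s => 32 * Real.pi ^ 4 * R * Y s + 2 * E ^ 2) volume 0 t :=
    (i2.const_mul _).add intervalIntegrable_const
  have hpt : ∀ s ∈ Icc 0 t, (enstrophy (u s) + energy (u s)) ^ 2
      ≤ 32 * Real.pi ^ 4 * R * Y s + 2 * E ^ 2 := by
    intro s hs
    have hs' := hsub t ht hs
    have h1 := enstrophy_sq_le (v := u s) (fun i => h.sp hs' i)
    have h2 := h.energy_le hν hs'
    have h3 := energy_nonneg (u s)
    have h4 := hmain s hs'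
    have h5 : Zn 1 (u s) * Zn 3 (u s) ≤ R * Zn 3 (u s) := mul_le_mul_of_nonneg_right h4 (hY0 s)
    have h6 : energy (u s) ^ 2 ≤ E ^ 2 := pow_le_pow_left₀ h3 h2 2
    have h7 : 16 * Real.pi ^ 4 * (Zn 1 (u s) * Zn 3 (u s)) ≤ 16 * Real.pi ^ 4 * (R * Zn 3 (u s)) :=
      mul_le_mul_of_nonneg_left h5 (by positivity)
    have h8 : (enstrophy (u s) + energy (u s)) ^ 2
        ≤ 2 * enstrophy (u s) ^ 2 + 2 * energy (u s) ^ 2 := by
      nlinarith [sq_nonneg (enstrophy (u s) - energy (u s))]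
    simp only [hY]
    linarith
  refine (intervalIntegral.integral_mono_on ht.1 i3 i4 hpt).trans ?_
  rw [intervalIntegral.integral_add (i2.const_mul _) intervalIntegrable_const,
    intervalIntegral.integral_const_mul, intervalIntegral.integral_const, sub_zero, smul_eq_mul]
  have h9 := mul_le_mul_of_nonneg_left (hYint t ht) (by positivity : 0 ≤ 32 * Real.pi ^ 4 * R)
  have h10 : t * (2 * E ^ 2) ≤ T * (2 * E ^ 2) := mul_le_mul_of_nonneg_right ht.2.le (by positivity)
  linarith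

end Pool.Agent.H2NS
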