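import Pool.Agent.H459R3.NS.Thin

/-!
A trilinear estimate for two-dimensional sets of frequencies.
-/

open MeasureTheory Set H459R3.NS
open scoped ENNReal

set_option autoImplicit false

namespace Pool.Agent.H2NS

open Classical in
theorem thin_shift {A : ℝ} {Q : Set K3} (hQ : DimTwo A Q) (x : K3) (L : ℕ) :
    ∑' q : K3, (if q ∈ Q ∧ 0 < N (q - x) ∧ N (q - x) ≤ L then ((N (q - x) : ℝ≥0∞))⁻¹ else 0)
      ≤ ENNReal.ofReal (2 * A) * L := by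
  rw [ENNReal.tsum_eq_iSup_sum]
  refine iSup_le fun F => ?_
  rw [← Finset.sum_filter]
  set G := F.filter fun q => q ∈ Q ∧ 0 < N (q - x) ∧ N (q - x) ≤ L with hG
  rcases Nat.eq_zero_or_pos L with h0 | h0
  · have : G = ∅ := by
      rw [hG, Finset.filter_eq_empty_iff]
      rintro q _ ⟨_, h1, h2⟩
      omega
    rw [this]; simp
  have hF : ∀ q ∈ G, q ∈ Q ∧ 0 < N (q - x) ∧ N (q - x) ≤ L := by
    intro q hq
    rw [hG, Finset.mem_filter] at hq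
    exact hq.2
  have h1 := thin_real hQ x L h0 G hF
  have e : ∑ q ∈ G, ((N (q - x) : ℝ≥0∞))⁻¹
      = ENNReal.ofReal (∑ q ∈ G, (1 : ℝ) / N (q - x)) := by
    rw [ENNReal.ofReal_sum_of_nonneg fun q _ => by positivity]
    refine Finset.sum_congr rfl fun q hq => ?_
    have h2 := (hF q hq).2.1
    rw [one_div, ENNReal.ofReal_inv_of_pos (by exact_mod_cast h2), ENNReal.ofReal_natCast]
  rw [e]
  refine (ENNReal.ofReal_le_ofReal h1).trans ?_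
  rw [ENNReal.ofReal_mul (mul_nonneg zero_le_two hQ.nonneg), ENNReal.ofReal_natCast]

open Classical in
theorem thin_count {A : ℝ} {Q : Set K3} (hQ : DimTwo A Q) (x : K3) (L : ℕ) (hL : 1 ≤ L) :
    ∑' q : K3, (if q ∈ Q ∧ N (q - x) ≤ L then (1 : ℝ≥0∞) else 0) ≤ ENNReal.ofReal A * L ^ 2 := by
  rw [ENNReal.tsum_eq_iSup_sum]
  refine iSup_le fun F => ?_
  rw [← Finset.sum_filter, Finset.sum_const, nsmul_eq_mul, mul_one]
  set G := F.filter fun q => q ∈ Q ∧ N (q - x) ≤ L with hG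
  have h1 : (G : Set K3) ⊆ {q ∈ Q | ∀ j, |q j - x j| ≤ L} := by
    intro q hq
    rw [hG, Finset.mem_coe, Finset.mem_filter] at hq
    exact ⟨hq.2.1, (N_le_iff (q - x) L).1 hq.2.2⟩
  have h2 : ({q ∈ Q | ∀ j, |q j - x j| ≤ L}).Finite :=
    (finite_box x L).subset fun q hq => (N_le_iff (q - x) L).2 hq.2
  have h3 := Set.ncard_le_ncard h1 h2
  rw [Set.ncard_coe_finset] at h3
  have h4 : (G.card : ℝ) ≤ A * L ^ 2 := le_trans (by exact_mod_cast h3) (hQ x L hL)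
  have h5 : (G.card : ℝ≥0∞) = ENNReal.ofReal (G.card : ℝ) := (ENNReal.ofReal_natCast _).symm
  rw [h5]
  refine (ENNReal.ofReal_le_ofReal h4).trans ?_
  rw [ENNReal.ofReal_mul hQ.nonneg]
  gcongr
  rw [← ENNReal.ofReal_natCast, ← ENNReal.ofReal_pow (by positivity)]

/-- The kernel. -/
noncomputable def ker (q l : K3) : ℝ≥0∞ := ((N q : ℝ≥0∞)⁻¹ * (N l : ℝ≥0∞)⁻¹) ^ (1 / 2 : ℝ)

theorem ker_sq (q l : K3) : ker q l ^ 2 = (N q : ℝ≥0∞)⁻¹ * (N l : ℝ≥0∞)⁻¹ := enn_half_sq _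

theorem sum_sq_prod (a c : K3 → ℝ≥0∞) :
    ∑' p : K3 × K3, (a p.1 * c (-p.1 - p.2)) ^ 2 = (∑' k, a k ^ 2) * ∑' k, c k ^ 2 := by
  rw [ENNReal.tsum_prod']
  rw [← ENNReal.tsum_mul_right]
  refine tsum_congr fun q => ?_
  rw [← (Equiv.subLeft (-q)).tsum_eq (fun k => c k ^ 2), ← ENNReal.tsum_mul_left]
  exact tsum_congr fun l => by rw [mul_pow]; rfl

theorem sum_sq_prod' (a b : K3 → ℝ≥0∞) :
    ∑' p : K3 × K3, (a p.1 * b p.2) ^ 2 = (∑' k, a k ^ 2) * ∑' k, b k ^ 2 := by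
  rw [ENNReal.tsum_prod']
  rw [← ENNReal.tsum_mul_right]
  refine tsum_congr fun q => ?_
  rw [← ENNReal.tsum_mul_left]
  exact tsum_congr fun l => by rw [mul_pow]

/-- Schur's test, summation over `q` for fixed `l`. -/
theorem schur1 {P : K3 → K3 → Prop} [∀ q l, Decidable (P q l)] {M : ℝ≥0∞}
    (h : ∀ l, ∑' q, (if P q l then (N q : ℝ≥0∞)⁻¹ * (N l : ℝ≥0∞)⁻¹ else 0) ≤ M)
    (a b c : K3 → ℝ≥0∞) :
    ∑' p : K3 × K3, (if P p.1 p.2 then a p.1 * b p.2 * c (-p.1 - p.2) * ker p.1 p.2 else 0)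
      ≤ M ^ (1 / 2 : ℝ) * (e2 a * e2 b * e2 c) := by
  have e : ∀ p : K3 × K3, (if P p.1 p.2 then a p.1 * b p.2 * c (-p.1 - p.2) * ker p.1 p.2 else 0)
      = (b p.2 * if P p.1 p.2 then ker p.1 p.2 else 0) * (a p.1 * c (-p.1 - p.2)) := by
    intro p
    split_ifs
    · ring
    · simp
  simp_rw [e]
  refine (enn_cs _ _).trans ?_
  rw [sum_sq_prod]
  have h1 : ∑' p : K3 × K3, (b p.2 * if P p.1 p.2 then ker p.1 p.2 else 0) ^ 2
      ≤ M * ∑' l, b l ^ 2 := by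
    rw [ENNReal.tsum_prod', ENNReal.tsum_comm, ← ENNReal.tsum_mul_left]
    refine ENNReal.tsum_le_tsum fun l => ?_
    have e3 : ∀ q, (b l * if P q l then ker q l else 0) ^ 2
        = b l ^ 2 * (if P q l then (N q : ℝ≥0∞)⁻¹ * (N l : ℝ≥0∞)⁻¹ else 0) := by
      intro q
      split_ifs
      · rw [mul_pow, ker_sq]
      · simp
    simp_rw [e3]
    rw [ENNReal.tsum_mul_left, mul_comm]
    gcongr
    exact h l
  calc _ ≤ (M * ∑' l, b l ^ 2) ^ (1 / 2 : ℝ) * ((∑' k, a k ^ 2) * ∑' k, c k ^ 2) ^ (1 / 2 : ℝ) := by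
        gcongr
    _ = _ := by
        rw [ENNReal.mul_rpow_of_nonneg _ _ (by norm_num), ENNReal.mul_rpow_of_nonneg _ _ (by norm_num)]
        unfold e2
        ring

/-- Schur's test, summation over `q` for fixed `-q - l`. -/
theorem schur2 {P : K3 → K3 → Prop} [∀ q l, Decidable (P q l)] {M : ℝ≥0∞}
    (h : ∀ m, ∑' q, (if P q (-q - m) then (N q : ℝ≥0∞)⁻¹ * (N (-q - m) : ℝ≥0∞)⁻¹ else 0) ≤ M)
    (a b c : K3 → ℝ≥0∞) :
    ∑' p : K3 × K3, (if P p.1 p.2 then a p.1 * b p.2 * c (-p.1 - p.2) * ker p.1 p.2 else 0)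
      ≤ M ^ (1 / 2 : ℝ) * (e2 a * e2 b * e2 c) := by
  have e : ∀ p : K3 × K3, (if P p.1 p.2 then a p.1 * b p.2 * c (-p.1 - p.2) * ker p.1 p.2 else 0)
      = (c (-p.1 - p.2) * if P p.1 p.2 then ker p.1 p.2 else 0) * (a p.1 * b p.2) := by
    intro p
    split_ifs
    · ring
    · simp
  simp_rw [e]
  refine (enn_cs _ _).trans ?_
  rw [sum_sq_prod']
  have h1 : ∑' p : K3 × K3, (c (-p.1 - p.2) * if P p.1 p.2 then ker p.1 p.2 else 0) ^ 2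
      ≤ M * ∑' l, c l ^ 2 := by
    rw [ENNReal.tsum_prod']
    have e1 : ∀ q, ∑' l, (c (-q - l) * if P q l then ker q l else 0) ^ 2
        = ∑' m, (c m * if P q (-q - m) then ker q (-q - m) else 0) ^ 2 := by
      intro q
      rw [← (Equiv.subLeft (-q)).tsum_eq]
      refine tsum_congr fun m => ?_
      simp only [Equiv.subLeft_apply]
      rw [show -q - (-q - m) = m by abel]
    simp_rw [e1]
    rw [ENNReal.tsum_comm, ← ENNReal.tsum_mul_left]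
    refine ENNReal.tsum_le_tsum fun m => ?_
    have e3 : ∀ q, (c m * if P q (-q - m) then ker q (-q - m) else 0) ^ 2
        = c m ^ 2 * (if P q (-q - m) then (N q : ℝ≥0∞)⁻¹ * (N (-q - m) : ℝ≥0∞)⁻¹ else 0) := by
      intro q
      split_ifs
      · rw [mul_pow, ker_sq]
      · simp
    simp_rw [e3]
    rw [ENNReal.tsum_mul_left, mul_comm]
    gcongr
    exact h m
  calc _ ≤ (M * ∑' l, c l ^ 2) ^ (1 / 2 : ℝ) * ((∑' k, a k ^ 2) * ∑' k, b k ^ 2) ^ (1 / 2 : ℝ) := by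
        gcongr
    _ = _ := by
        rw [ENNReal.mul_rpow_of_nonneg _ _ (by norm_num), ENNReal.mul_rpow_of_nonneg _ _ (by norm_num)]
        unfold e2
        ring

theorem N_add_le (a b : K3) : N (a + b) ≤ N a + N b := by
  rw [N_le_iff]
  intro j
  have h1 := (N_le_iff a (N a)).1 le_rfl j
  have h2 := (N_le_iff b (N b)).1 le_rfl j
  rw [Pi.add_apply]
  refine (abs_add_le _ _).trans ?_
  push_cast
  exact add_le_add h1 h2

open Classical in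
theorem reg1 {A : ℝ} {Q : Set K3} (hQ : DimTwo A Q) (l : K3) :
    ∑' q : K3, (if q ∈ Q ∧ 0 < N q ∧ N q ≤ N l then (N q : ℝ≥0∞)⁻¹ * (N l : ℝ≥0∞)⁻¹ else 0)
      ≤ ENNReal.ofReal (4 * A) := by
  have h := thin_shift hQ 0 (N l)
  simp only [sub_zero] at h
  have e : ∀ q : K3, (if q ∈ Q ∧ 0 < N q ∧ N q ≤ N l then (N q : ℝ≥0∞)⁻¹ * (N l : ℝ≥0∞)⁻¹ else 0)
      = (if q ∈ Q ∧ 0 < N q ∧ N q ≤ N l then (N q : ℝ≥0∞)⁻¹ else 0) * (N l : ℝ≥0∞)⁻¹ := by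
    intro q
    split_ifs <;> simp
  simp_rw [e]
  rw [ENNReal.tsum_mul_right]
  calc _ ≤ ENNReal.ofReal (2 * A) * (N l : ℝ≥0∞) * (N l : ℝ≥0∞)⁻¹ := by gcongr
    _ ≤ ENNReal.ofReal (2 * A) * 1 := by
        rw [mul_assoc]
        gcongr
        exact ENNReal.mul_inv_le_one _
    _ ≤ _ := by
        rw [mul_one]
        exact ENNReal.ofReal_le_ofReal (by linarith [hQ.nonneg])

open Classical in
theorem reg2 {A : ℝ} {Q : Set K3} (hQ : DimTwo A Q) (m : K3) :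
    ∑' q : K3, (if q ∈ Q ∧ 0 < N (-q - m) ∧ N (-q - m) ≤ N (-q - (-q - m)) ∧ N (-q - m) < N q
      then (N q : ℝ≥0∞)⁻¹ * (N (-q - m) : ℝ≥0∞)⁻¹ else 0) ≤ ENNReal.ofReal (4 * A) := by
  have h := thin_shift hQ (-m) (N m)
  have e : ∀ q : K3, (if q ∈ Q ∧ 0 < N (-q - m) ∧ N (-q - m) ≤ N (-q - (-q - m)) ∧ N (-q - m) < N q
      then (N q : ℝ≥0∞)⁻¹ * (N (-q - m) : ℝ≥0∞)⁻¹ else 0)
      ≤ 2 * (N m : ℝ≥0∞)⁻¹ * (if q ∈ Q ∧ 0 < N (q - -m) ∧ N (q - -m) ≤ N m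
        then (N (q - -m) : ℝ≥0∞)⁻¹ else 0) := by
    intro q
    have e1 : -q - (-q - m) = m := by abel
    have e2 : N (-q - m) = N (q - -m) := by
      rw [← N_neg (q - -m)]
      congr 1
      abel
    rw [e1, e2]
    split_ifs with h1 h2
    · obtain ⟨-, h3, h4, h5⟩ := h1
      gcongr
      have h6 : N m ≤ N (q - -m) + N q := by
        have h7 := N_add_le (q - -m) (-q)
        rw [N_neg, show q - -m + -q = m by abel] at h7
        exact h7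
      have h8 : N m ≤ 2 * N q := by omega
      have h9 : 0 < N m := by omega
      have hm0 : (N m : ℝ≥0∞) ≠ 0 := by exact_mod_cast h9.ne'
      rw [← div_eq_mul_inv, ENNReal.inv_le_iff_inv_le, ENNReal.inv_div
        (Or.inl (ENNReal.natCast_ne_top _)) (Or.inl hm0)]
      rw [ENNReal.div_le_iff (by norm_num) (by norm_num)]
      rw [mul_comm]
      exact_mod_cast h8
    · exact absurd ⟨h1.1, h1.2.1, h1.2.2.1⟩ h2
    · exact bot_le
    · exact bot_le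
  refine (ENNReal.tsum_le_tsum e).trans ?_
  rw [ENNReal.tsum_mul_left]
  calc _ ≤ 2 * (N m : ℝ≥0∞)⁻¹ * (ENNReal.ofReal (2 * A) * (N m : ℝ≥0∞)) := by gcongr
    _ = 2 * ENNReal.ofReal (2 * A) * ((N m : ℝ≥0∞) * (N m : ℝ≥0∞)⁻¹) := by ring
    _ ≤ 2 * ENNReal.ofReal (2 * A) * 1 := by
        gcongr
        exact ENNReal.mul_inv_le_one _
    _ = _ := by
        rw [mul_one, ← ENNReal.ofReal_ofNat, ← ENNReal.ofReal_mul (by norm_num)]
        congr 1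
        ring

open Classical in
theorem reg3 {A : ℝ} {Q : Set K3} (hQ : DimTwo A Q) (l : K3) :
    ∑' q : K3, (if q ∈ Q ∧ 0 < N l ∧ N (-q - l) ≤ N l ∧ N l ≤ N q
      then (N q : ℝ≥0∞)⁻¹ * (N l : ℝ≥0∞)⁻¹ else 0) ≤ ENNReal.ofReal (4 * A) := by
  rcases Nat.eq_zero_or_pos (N l) with h0 | h0
  · simp [h0]
  have h := thin_count hQ (-l) (N l) h0
  have e : ∀ q : K3, (if q ∈ Q ∧ 0 < N l ∧ N (-q - l) ≤ N l ∧ N l ≤ N q
      then (N q : ℝ≥0∞)⁻¹ * (N l : ℝ≥0∞)⁻¹ else 0)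
      ≤ ((N l : ℝ≥0∞)⁻¹) ^ 2 * (if q ∈ Q ∧ N (q - -l) ≤ N l then (1 : ℝ≥0∞) else 0) := by
    intro q
    have e2 : N (-q - l) = N (q - -l) := by
      rw [← N_neg (q - -l)]
      congr 1
      abel
    rw [e2]
    split_ifs with h1 h2
    · obtain ⟨-, h3, h4, h5⟩ := h1
      rw [mul_one, sq]
      gcongr
    · exact absurd ⟨h1.1, h1.2.2.1⟩ h2
    · exact bot_le
    · exact bot_le
  refine (ENNReal.tsum_le_tsum e).trans ?_
  rw [ENNReal.tsum_mul_left]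
  calc _ ≤ ((N l : ℝ≥0∞)⁻¹) ^ 2 * (ENNReal.ofReal A * (N l : ℝ≥0∞) ^ 2) := by gcongr
    _ = ENNReal.ofReal A * ((N l : ℝ≥0∞) * (N l : ℝ≥0∞)⁻¹) ^ 2 := by ring
    _ ≤ ENNReal.ofReal A * 1 ^ 2 := by
        gcongr
        exact ENNReal.mul_inv_le_one _
    _ ≤ _ := by
        rw [one_pow, mul_one]
        exact ENNReal.ofReal_le_ofReal (by linarith [hQ.nonneg])

/-- multiplication with the square root of the frequency -/
noncomputable def rt (a : K3 → ℝ≥0∞) (k : K3) : ℝ≥0∞ := (N k : ℝ≥0∞) ^ (1 / 2 : ℝ) * a k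

theorem rt_ker {q l : K3} (hq : 0 < N q) (hl : 0 < N l) :
    (N q : ℝ≥0∞) ^ (1 / 2 : ℝ) * (N l : ℝ≥0∞) ^ (1 / 2 : ℝ) * ker q l = 1 := by
  have hq0 : (N q : ℝ≥0∞) ≠ 0 := by exact_mod_cast hq.ne'
  have hl0 : (N l : ℝ≥0∞) ≠ 0 := by exact_mod_cast hl.ne'
  unfold ker
  rw [← ENNReal.mul_rpow_of_nonneg _ _ (by norm_num), ← ENNReal.mul_rpow_of_nonneg _ _ (by norm_num)]
  have e : (N q : ℝ≥0∞) * (N l : ℝ≥0∞) * ((N q : ℝ≥0∞)⁻¹ * (N l : ℝ≥0∞)⁻¹)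
      = ((N q : ℝ≥0∞) * (N q : ℝ≥0∞)⁻¹) * ((N l : ℝ≥0∞) * (N l : ℝ≥0∞)⁻¹) := by ring
  rw [e, ENNReal.mul_inv_cancel hq0 (ENNReal.natCast_ne_top _),
    ENNReal.mul_inv_cancel hl0 (ENNReal.natCast_ne_top _)]
  simp

open Classical in
/-- The trilinear estimate for a two-dimensional set of frequencies. -/
theorem thin_tri {A : ℝ} {Q : Set K3} (hQ : DimTwo A Q) (a b c : K3 → ℝ≥0∞)
    (ha : ∀ q ∉ Q, a q = 0) (ha0 : a 0 = 0) (hb0 : b 0 = 0) :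
    ∑' p : K3 × K3, a p.1 * b p.2 * c (-p.1 - p.2)
      ≤ 3 * (ENNReal.ofReal (4 * A) ^ (1 / 2 : ℝ) * (e2 (rt a) * e2 (rt b) * e2 c)) := by
  have h1 := schur1 (P := fun q l => q ∈ Q ∧ 0 < N q ∧ N q ≤ N l) (reg1 hQ) (rt a) (rt b) c
  have h2 := schur2 (P := fun q l => q ∈ Q ∧ 0 < N l ∧ N l ≤ N (-q - l) ∧ N l < N q) (reg2 hQ)
    (rt a) (rt b) c
  have h3 := schur1 (P := fun q l => q ∈ Q ∧ 0 < N l ∧ N (-q - l) ≤ N l ∧ N l ≤ N q) (reg3 hQ)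
    (rt a) (rt b) c
  have key : ∀ p : K3 × K3, a p.1 * b p.2 * c (-p.1 - p.2)
      ≤ (if p.1 ∈ Q ∧ 0 < N p.1 ∧ N p.1 ≤ N p.2 then
          rt a p.1 * rt b p.2 * c (-p.1 - p.2) * ker p.1 p.2 else 0)
        + (if p.1 ∈ Q ∧ 0 < N p.2 ∧ N p.2 ≤ N (-p.1 - p.2) ∧ N p.2 < N p.1 then
          rt a p.1 * rt b p.2 * c (-p.1 - p.2) * ker p.1 p.2 else 0)
        + (if p.1 ∈ Q ∧ 0 < N p.2 ∧ N (-p.1 - p.2) ≤ N p.2 ∧ N p.2 ≤ N p.1 then
          rt a p.1 * rt b p.2 * c (-p.1 - p.2) * ker p.1 p.2 else 0) := by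
    rintro ⟨q, l⟩
    simp only
    by_cases hq : q ∈ Q
    swap
    · rw [ha q hq]; simp
    by_cases hq0 : q = 0
    · rw [hq0, ha0]; simp
    by_cases hl0 : l = 0
    · rw [hl0, hb0]; simp
    have hq1 : 0 < N q := Nat.pos_of_ne_zero fun h => hq0 (N_eq_zero.1 h)
    have hl1 : 0 < N l := Nat.pos_of_ne_zero fun h => hl0 (N_eq_zero.1 h)
    have e : rt a q * rt b l * c (-q - l) * ker q l = a q * b l * c (-q - l) := by
      unfold rt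
      calc _ = ((N q : ℝ≥0∞) ^ (1 / 2 : ℝ) * (N l : ℝ≥0∞) ^ (1 / 2 : ℝ) * ker q l)
            * (a q * b l * c (-q - l)) := by ring
        _ = _ := by rw [rt_ker hq1 hl1, one_mul]
    rw [e]
    rcases le_or_gt (N q) (N l) with h | h
    · rw [if_pos ⟨hq, hq1, h⟩, add_assoc]
      exact le_add_right le_rfl
    · rcases le_total (N l) (N (-q - l)) with h' | h'
      · rw [if_pos (c := q ∈ Q ∧ 0 < N l ∧ N l ≤ N (-q - l) ∧ N l < N q) ⟨hq, hl1, h', h⟩]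
        exact le_add_right (le_add_left le_rfl)
      · rw [if_pos (c := q ∈ Q ∧ 0 < N l ∧ N (-q - l) ≤ N l ∧ N l ≤ N q) ⟨hq, hl1, h', h.le⟩]
        exact le_add_left le_rfl
  refine (ENNReal.tsum_le_tsum key).trans ?_
  rw [ENNReal.tsum_add, ENNReal.tsum_add]
  refine (add_le_add (add_le_add h1 h2) h3).trans (le_of_eq ?_)
  ring

end Pool.Agent.H2NS
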