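import Pool.Agent.H2NS.NB
import Pool.Agent.H2NS.Thin2

/-!
Form-bounded functions.
-/

open MeasureTheory Set Filter Topology H459R3.NS
open scoped ENNReal ContDiff

set_option autoImplicit false

namespace Pool.Agent.H2NS

open Pool.Agent.W12.MD.R0 (kk kk_pos S_smooth' S_per)

theorem Frm.add {κ E κ' E' : ℝ} {a b : V → ℝ} (ha : Frm κ E a) (hb : Frm κ' E' b)
    (hac : Continuous a) (hbc : Continuous b) :
    Frm (κ + κ') (E + E') (fun x => a x + b x) := by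
  intro f g hf hg hg0
  have e : ∫ x in cube, (a x + b x) * (f x * g x)
      = (∫ x in cube, a x * (f x * g x)) + ∫ x in cube, b x * (f x * g x) := by
    have i1 : IntegrableOn (fun x => a x * (f x * g x)) cube :=
      integrableOn_cube (hac.mul (hf.cont.mul hg.cont))
    have i2 : IntegrableOn (fun x => b x * (f x * g x)) cube :=
      integrableOn_cube (hbc.mul (hf.cont.mul hg.cont))
    rw [← integral_add i1 i2]
    congr 1
    funext x
    ring
  rw [e]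
  refine (abs_add_le _ _).trans ((add_le_add (ha f g hf hg hg0) (hb f g hf hg hg0)).trans
    (le_of_eq ?_))
  ring

theorem Frm.mono {κ E κ' E' : ℝ} {a : V → ℝ} (ha : Frm κ E a) (h1 : κ ≤ κ') (h2 : E ≤ E') :
    Frm κ' E' a := by
  intro f g hf hg hg0
  refine (ha f g hf hg hg0).trans (add_le_add (mul_le_mul_of_nonneg_right h1 ?_)
    (mul_le_mul_of_nonneg_right h2 (sq_nonneg _)))
  positivity

/-- Multipliers of order `θ < 1` are form-bounded with small constants. -/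
theorem frm_of_mul {θ κ : ℝ} (hθ0 : 0 ≤ θ) (hθ1 : θ < 1) (hκ : 0 < κ) :
    ∃ D : ℝ, 0 ≤ D ∧ ∀ (β : ℝ) (s : V → ℝ), 0 ≤ β → Mul θ β s →
      Frm κ (D * β ^ (2 / (1 - θ))) s := by
  obtain ⟨D, hD0, hD⟩ := young (θ := θ) (ν := 2 * κ) (c := 1) hθ0 hθ1 (by positivity) zero_le_one
  refine ⟨D, hD0, fun β s hβ hM f g hf hg hg0 => ?_⟩
  refine (hM f g hf hg hg0).trans ?_
  set a := nrm f with ha
  set b := nrm g with hb
  set c := grd g with hc
  have ha0 : 0 ≤ a := nrm_nonneg _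
  have hb0' : 0 ≤ b := nrm_nonneg _
  have hc0 : 0 ≤ c := grd_nonneg _
  set H := Real.sqrt (a ^ 2 + c ^ 2) with hH
  have hH0 : 0 ≤ H := Real.sqrt_nonneg _
  have hH2 : H ^ 2 = a ^ 2 + c ^ 2 := Real.sq_sqrt (by positivity)
  have haH : a ≤ H := Real.le_sqrt_of_sq_le (by nlinarith)
  have hcH : c ≤ H := Real.le_sqrt_of_sq_le (by nlinarith)
  have e1 : β * (a * (b ^ (1 - θ) * c ^ θ)) ≤ 1 * (β * (b ^ (1 - θ) * H ^ θ * H)) := by
    rw [one_mul]
    refine mul_le_mul_of_nonneg_left ?_ hβ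
    calc a * (b ^ (1 - θ) * c ^ θ) ≤ H * (b ^ (1 - θ) * H ^ θ) := by
          have := Real.rpow_nonneg hb0' (1 - θ)
          have := Real.rpow_nonneg hc0 θ
          have := Real.rpow_le_rpow hc0 hcH hθ0
          gcongr
      _ = _ := by ring
  refine (e1.trans (hD β b H hβ hb0' hH0)).trans ?_
  rw [hH2]
  exact le_of_eq (by ring)

/-- Square functions which are bounded by the Dirichlet form. -/
theorem frm_of_sq {κ E : ℝ} {b : V → ℝ} (hκ : 0 < κ) (hbc : Continuous b)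
    (h : ∀ g : V → ℝ, SP g → ∫ x in cube, g x = 0 →
      ∫ x in cube, (b x * g x) ^ 2 ≤ (2 * κ) ^ 2 * grd g ^ 2 + 4 * κ * E * nrm g ^ 2) :
    Frm κ E b := by
  intro f g hf hg hg0
  have h1 := h g hg hg0
  have hp : ∀ x, |b x * (f x * g x)| ≤ κ * f x ^ 2 + 1 / (4 * κ) * (b x * g x) ^ 2 := by
    intro x
    have e : b x * (f x * g x) = f x * (b x * g x) := by ring
    rw [e, abs_mul]
    have h2 : 0 ≤ (2 * κ * |f x| - |b x * g x|) ^ 2 / (4 * κ) := by positivity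
    have h3 : (2 * κ * |f x| - |b x * g x|) ^ 2 / (4 * κ)
        = κ * |f x| ^ 2 + 1 / (4 * κ) * |b x * g x| ^ 2 - |f x| * |b x * g x| := by
      field_simp
      ring
    rw [h3, sq_abs, sq_abs] at h2
    linarith
  have i1 : IntegrableOn (fun x => b x * (f x * g x)) cube :=
    integrableOn_cube (hbc.mul (hf.cont.mul hg.cont))
  have i2 : IntegrableOn (fun x => κ * f x ^ 2) cube :=
    integrableOn_cube (continuous_const.mul (hf.cont.pow 2))
  have i3 : IntegrableOn (fun x => 1 / (4 * κ) * (b x * g x) ^ 2) cube :=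
    integrableOn_cube (continuous_const.mul ((hbc.mul hg.cont).pow 2))
  have i4 : IntegrableOn (fun x => κ * f x ^ 2 + 1 / (4 * κ) * (b x * g x) ^ 2) cube := i2.add i3
  calc |∫ x in cube, b x * (f x * g x)| ≤ ∫ x in cube, |b x * (f x * g x)| :=
        abs_integral_le_integral_abs
    _ ≤ ∫ x in cube, (κ * f x ^ 2 + 1 / (4 * κ) * (b x * g x) ^ 2) :=
        integral_mono i1.abs i4 hp
    _ = κ * (∫ x in cube, f x ^ 2) + 1 / (4 * κ) * ∫ x in cube, (b x * g x) ^ 2 := by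
        rw [integral_add i2 i3, integral_const_mul, integral_const_mul]
    _ ≤ κ * nrm f ^ 2 + 1 / (4 * κ) * ((2 * κ) ^ 2 * grd g ^ 2 + 4 * κ * E * nrm g ^ 2) := by
        rw [nrm_sq]
        gcongr
    _ = _ := by
        field_simp
        ring

theorem e2_fr {f : V → ℝ} (hf : SP f) : e2 (fun k => ‖fr f k‖ₑ) = ENNReal.ofReal (nrm f) := by
  unfold e2
  have h : ∑' k, ‖fr f k‖ₑ ^ 2 = ENNReal.ofReal (nrm f ^ 2) := by
    rw [nrm_fr hf, ENNReal.ofReal_tsum_of_nonneg (fun k => sq_nonneg _) (summ_sq (rap_fr hf))]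
    refine tsum_congr fun k => ?_
    rw [← ofReal_norm, ENNReal.ofReal_pow (norm_nonneg _)]
  rw [h, ENNReal.ofReal_pow (nrm_nonneg _), ← ENNReal.rpow_natCast, ← ENNReal.rpow_mul]
  norm_num

theorem N_le_eu (k : K3) : (N k : ℝ) ≤ eu k := by
  obtain ⟨j, hj⟩ : ∃ j, N k = (k j).natAbs := by
    obtain ⟨j, -, hj⟩ := Finset.exists_mem_eq_sup (Finset.univ : Finset (Fin 3))
      ⟨0, Finset.mem_univ 0⟩ (fun j => (k j).natAbs)
    exact ⟨j, hj⟩
  have h1 : (N k : ℝ) = |(k j : ℝ)| := by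
    rw [hj, ← Int.cast_abs, Int.abs_eq_natAbs]
    simp
  rw [h1]
  exact abs_comp_le k j

theorem e2_N_fr {f : V → ℝ} (hf : SP f) :
    e2 (fun k => (N k : ℝ≥0∞) * ‖fr f k‖ₑ) ≤ ENNReal.ofReal (grd f) := by
  have h : ∑' k, ((N k : ℝ≥0∞) * ‖fr f k‖ₑ) ^ 2 ≤ ENNReal.ofReal (grd f ^ 2) := by
    have hs : Summable fun k => 4 * Real.pi ^ 2 * kk k * ‖fr f k‖ ^ 2 := by
      refine ((summ_eu (rap_fr hf) 2).mul_left (4 * Real.pi ^ 2)).congr fun k => ?_
      rw [eu_sq]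
      ring
    rw [grd_fr hf, ENNReal.ofReal_tsum_of_nonneg (fun k => by have := kk_nonneg k; positivity) hs]
    refine ENNReal.tsum_le_tsum fun k => ?_
    have e : ((N k : ℝ≥0∞) * ‖fr f k‖ₑ) ^ 2 = ENNReal.ofReal (((N k : ℝ) * ‖fr f k‖) ^ 2) := by
      rw [← ofReal_norm, ← ENNReal.ofReal_natCast, ← ENNReal.ofReal_mul (by positivity),
        ENNReal.ofReal_pow (by positivity)]
    rw [e]
    refine ENNReal.ofReal_le_ofReal ?_
    rw [mul_pow, ← eu_sq]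
    have h1 : (N k : ℝ) ^ 2 ≤ eu k ^ 2 := pow_le_pow_left₀ (by positivity) (N_le_eu k) 2
    have h2 : 1 ≤ 4 * Real.pi ^ 2 := by
      have := Real.pi_gt_three
      nlinarith
    have h3 : 0 ≤ eu k ^ 2 := sq_nonneg _
    refine mul_le_mul_of_nonneg_right ?_ (sq_nonneg _)
    nlinarith
  unfold e2
  calc _ ≤ (ENNReal.ofReal (grd f ^ 2)) ^ (1 / 2 : ℝ) := by gcongr
    _ = ENNReal.ofReal (grd f) := by
      rw [ENNReal.ofReal_pow (grd_nonneg _), ← ENNReal.rpow_natCast, ← ENNReal.rpow_mul]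
      norm_num

theorem e2_rt_fr {f : V → ℝ} (hf : SP f) :
    e2 (rt fun k => ‖fr f k‖ₑ) ≤ ENNReal.ofReal (nrm f ^ (1 / 2 : ℝ) * grd f ^ (1 / 2 : ℝ)) := by
  have h : ∑' k, (rt (fun k => ‖fr f k‖ₑ) k) ^ 2 ≤ ENNReal.ofReal (nrm f * grd f) := by
    have e : ∀ k, (rt (fun k => ‖fr f k‖ₑ) k) ^ 2 = ‖fr f k‖ₑ * ((N k : ℝ≥0∞) * ‖fr f k‖ₑ) := by
      intro k
      unfold rt
      rw [mul_pow, enn_half_sq]
      ring
    simp_rw [e]
    refine (enn_cs _ _).trans ?_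
    have e1 := e2_fr hf
    have e2' := e2_N_fr hf
    unfold e2 at e1 e2'
    rw [e1, ENNReal.ofReal_mul (nrm_nonneg _)]
    gcongr
  unfold e2
  calc _ ≤ (ENNReal.ofReal (nrm f * grd f)) ^ (1 / 2 : ℝ) := by gcongr
    _ = _ := by
      rw [ENNReal.ofReal_rpow_of_nonneg (mul_nonneg (nrm_nonneg _) (grd_nonneg _)) (by norm_num),
        Real.mul_rpow (nrm_nonneg _) (grd_nonneg _)]

/-- Functions with frequencies in a two-dimensional set are multipliers of order `1/2`. -/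
theorem mul_of_thin {A : ℝ} {Q : Set K3} (hQ : DimTwo A Q) {w : V → ℝ} (hw : SP w)
    (hwQ : ∀ k ∉ Q, fr w k = 0) (hw0 : fr w 0 = 0) :
    Mul (1 / 2) (6 * Real.sqrt A * (nrm w ^ (1 / 2 : ℝ) * grd w ^ (1 / 2 : ℝ))) w := by
  intro f g hf hg hg0
  have hA := hQ.nonneg
  have hgz : fr g 0 = 0 := by
    unfold fr fc
    have : ∀ x : V, ee (-0) x = 1 := by
      intro x
      rw [neg_zero]
      simp [ee, ph]
    simp_rw [this, one_mul]
    rw [integral_complex_ofReal, hg0]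
    simp
  have e0 : ∫ x in cube, w x * (f x * g x) = ∫ x in cube, w x * (g x * f x) := by
    congr 1
    funext x
    ring
  have h1 := tri_hasSum hw hg hf
  have h2 : ‖((∫ x in cube, w x * (g x * f x) : ℝ) : ℂ)‖ₑ
      ≤ ∑' p : K3 × K3, ‖fr w p.1‖ₑ * ‖fr g p.2‖ₑ * ‖fr f (-p.1 - p.2)‖ₑ := by
    rw [← h1.tsum_eq]
    refine enorm_tsum_le_tsum_enorm.trans (le_of_eq ?_)
    refine tsum_congr fun p => ?_
    rw [enorm_mul, enorm_mul]
  have h3 := thin_tri hQ (fun k => ‖fr w k‖ₑ) (fun k => ‖fr g k‖ₑ) (fun k => ‖fr f k‖ₑ)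
    (fun q hq => by rw [hwQ q hq]; simp) (by rw [hw0]; simp) (by rw [hgz]; simp)
  have h4 := h2.trans h3
  have n1 := nrm_nonneg f
  have n2 := nrm_nonneg w
  have n3 := grd_nonneg w
  have n4 := nrm_nonneg g
  have n5 := grd_nonneg g
  have h5 : 3 * (ENNReal.ofReal (4 * A) ^ (1 / 2 : ℝ) * (e2 (rt fun k => ‖fr w k‖ₑ)
      * e2 (rt fun k => ‖fr g k‖ₑ) * e2 fun k => ‖fr f k‖ₑ))
      ≤ ENNReal.ofReal (6 * Real.sqrt A * (nrm w ^ (1 / 2 : ℝ) * grd w ^ (1 / 2 : ℝ))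
        * (nrm f * (nrm g ^ (1 - 1 / 2 : ℝ) * grd g ^ (1 / 2 : ℝ)))) := by
    rw [e2_fr hf]
    have a1 := e2_rt_fr hw
    have a2 := e2_rt_fr hg
    have e1 : ENNReal.ofReal (4 * A) ^ (1 / 2 : ℝ) = ENNReal.ofReal (2 * Real.sqrt A) := by
      rw [ENNReal.ofReal_rpow_of_nonneg (by positivity) (by norm_num), ← Real.sqrt_eq_rpow,
        Real.sqrt_mul (by norm_num), show (4 : ℝ) = 2 ^ 2 by norm_num, Real.sqrt_sq (by norm_num)]
    rw [e1]
    calc _ ≤ 3 * (ENNReal.ofReal (2 * Real.sqrt A)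
          * (ENNReal.ofReal (nrm w ^ (1 / 2 : ℝ) * grd w ^ (1 / 2 : ℝ))
            * ENNReal.ofReal (nrm g ^ (1 / 2 : ℝ) * grd g ^ (1 / 2 : ℝ)) * ENNReal.ofReal (nrm f))) := by
          gcongr
      _ = _ := by
        rw [show (3 : ℝ≥0∞) = ENNReal.ofReal 3 by norm_num, ← ENNReal.ofReal_mul (by positivity),
          ← ENNReal.ofReal_mul (by positivity), ← ENNReal.ofReal_mul (by positivity),
          ← ENNReal.ofReal_mul (by positivity)]
        congr 1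
        rw [show (1 - 1 / 2 : ℝ) = 1 / 2 by norm_num]
        ring
  have h6 := h4.trans h5
  rw [← ofReal_norm, Complex.norm_real, Real.norm_eq_abs] at h6
  rw [e0]
  exact (ENNReal.ofReal_le_ofReal_iff (by positivity)).1 h6

end Pool.Agent.H2NS
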