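import Pool.Agent.H2NS.Alg

/-!
The two helical parts of a periodic field.
-/

open MeasureTheory Set H459R3.NS
open scoped ENNReal ContDiff

set_option autoImplicit false

namespace Pool.Agent.H2NS

open Pool.Agent.W12.MD.R0 (kk kk_pos S_smooth' S_per)

/-- A real function with given Fourier coefficients. -/
noncomputable def Rs (a : K3 → ℂ) (x : V) : ℝ := (S a x).re

theorem Rs_sp {a : K3 → ℂ} (ha : Rap a) : SP (Rs a) where
  smooth := Complex.reCLM.contDiff.comp (S_smooth' ha)
  per := fun i x => by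
    unfold Rs
    rw [S_per _ i x]

theorem fr_Rs {a : K3 → ℂ} (ha : Rap a) (hh : ∀ k, a (-k) = (starRingEnd ℂ) (a k)) (k : K3) :
    fr (Rs a) k = a k := by
  have h := integral_ee_S (-k) ha.summable
  rw [neg_neg] at h
  rw [← h]
  show ∫ x in cube, ee (-k) x * ((Rs a x : ℝ) : ℂ) = _
  congr 1
  funext x
  unfold Rs
  rw [S_real hh]

/-- The `i`-th component of the cross product of `k` and `a`. -/
noncomputable def crs (a : Fin 3 → ℂ) (k : K3) (i : Fin 3) : ℂ :=
  (k (i + 1) : ℂ) * a (i + 2) - (k (i + 2) : ℂ) * a (i + 1)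

open Classical in
/-- The coefficients of the helical part with the sign `s`. -/
noncomputable def hco (s : ℝ) (a : Fin 3 → K3 → ℂ) (i : Fin 3) (k : K3) : ℂ :=
  if k = 0 then 0 else
    1 / 2 * (a i k + s * Complex.I * crs (fun j => a j k) k i / (eu k : ℂ))

theorem norm_hco_le {s : ℝ} (hs : |s| = 1) (a : Fin 3 → K3 → ℂ) (i : Fin 3) (k : K3) :
    ‖hco s a i k‖ ≤ ∑ j, ‖a j k‖ := by
  unfold hco
  by_cases hk : k = 0
  · rw [if_pos hk, norm_zero]
    exact Finset.sum_nonneg fun _ _ => norm_nonneg _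
  rw [if_neg hk]
  have he := eu_pos hk
  have h1 : ∀ j, ‖(k j : ℂ)‖ ≤ eu k := fun j => by
    rw [Complex.norm_intCast]
    exact abs_comp_le k j
  have h2 : ‖crs (fun j => a j k) k i‖ ≤ eu k * (‖a (i + 2) k‖ + ‖a (i + 1) k‖) := by
    unfold crs
    refine (norm_sub_le _ _).trans ?_
    rw [norm_mul, norm_mul, mul_add]
    exact add_le_add (mul_le_mul_of_nonneg_right (h1 _) (norm_nonneg _))
      (mul_le_mul_of_nonneg_right (h1 _) (norm_nonneg _))
  have h3 : ‖(s : ℂ) * Complex.I * crs (fun j => a j k) k i / (eu k : ℂ)‖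
      ≤ ‖a (i + 2) k‖ + ‖a (i + 1) k‖ := by
    rw [norm_div, norm_mul, norm_mul, Complex.norm_I, Complex.norm_real, Complex.norm_real,
      Real.norm_eq_abs, Real.norm_eq_abs, hs, abs_of_pos he, mul_one, one_mul,
      div_le_iff₀ he]
    linarith
  have h4 : ‖a i k + s * Complex.I * crs (fun j => a j k) k i / (eu k : ℂ)‖
      ≤ ‖a i k‖ + (‖a (i + 2) k‖ + ‖a (i + 1) k‖) := (norm_add_le _ _).trans (by gcongr)
  rw [norm_mul]
  have h5 : ‖(1 / 2 : ℂ)‖ = 1 / 2 := by norm_num
  rw [h5]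
  have h6 : ‖a i k‖ + (‖a (i + 2) k‖ + ‖a (i + 1) k‖) = ∑ j, ‖a j k‖ := by
    fin_cases i <;> simp [Fin.sum_univ_three] <;> ring
  rw [h6] at h4
  have h7 : 0 ≤ ∑ j, ‖a j k‖ := Finset.sum_nonneg fun _ _ => norm_nonneg _
  linarith

theorem hco_rap {s : ℝ} (hs : |s| = 1) {a : Fin 3 → K3 → ℂ} (ha : ∀ j, Rap (a j)) (i : Fin 3) :
    Rap (hco s a i) := by
  intro n
  refine Summable.of_nonneg_of_le (fun k => by positivity) (fun k => ?_)
    (summable_sum (s := Finset.univ) fun j _ => ha j n)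
  rw [← Finset.mul_sum]
  exact mul_le_mul_of_nonneg_left (norm_hco_le hs a i k) (by positivity)

theorem hco_herm (s : ℝ) {a : Fin 3 → K3 → ℂ} (ha : ∀ j k, a j (-k) = (starRingEnd ℂ) (a j k))
    (i : Fin 3) (k : K3) : hco s a i (-k) = (starRingEnd ℂ) (hco s a i k) := by
  unfold hco
  by_cases hk : k = 0
  · simp [hk]
  · rw [if_neg hk, if_neg (by simpa using hk)]
    have hi : ∀ n : ℤ, (starRingEnd ℂ) (n : ℂ) = n := fun n => map_intCast _ n
    unfold crs
    simp only [map_add, map_sub, map_mul, ha, eu_neg, Complex.conj_ofReal, Complex.conj_I,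
      Pi.neg_apply, Int.cast_neg, hi, map_div₀, map_one, Complex.conj_ofNat]
    ring

theorem fr_sub' {f g : V → ℝ} (hf : SP f) (hg : SP g) (k : K3) :
    fr (fun x => f x - g x) k = fr f k - fr g k := by
  unfold fr fc
  have i1 : ∀ {f : V → ℝ}, SP f → IntegrableOn (fun x => ee (-k) x * (f x : ℂ)) cube := by
    intro f hf
    refine integrableOn_cube ?_
    exact (ee_contDiff (-k) (n := 1)).continuous.mul (Complex.continuous_ofReal.comp hf.cont)
  rw [← integral_sub (i1 hf) (i1 hg)]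
  congr 1
  funext x
  push_cast
  ring

theorem fr_add' {f g : V → ℝ} (hf : SP f) (hg : SP g) (k : K3) :
    fr (fun x => f x + g x) k = fr f k + fr g k := by
  have h : fr (fun x => (f x + g x) - g x) k = fr (fun x => f x + g x) k - fr g k :=
    fr_sub' (hf.add hg) hg k
  have e : (fun x => (f x + g x) - g x) = f := by funext x; ring
  rw [e] at h
  rw [h]
  ring

theorem fr_cmul (c : ℝ) (f : V → ℝ) (k : K3) : fr (fun x => c * f x) k = c * fr f k := by
  unfold fr fc
  rw [← integral_const_mul]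
  congr 1
  funext x
  push_cast
  ring

/-- The helical part of a triple of functions. -/
noncomputable def hp (s : ℝ) (u : Fin 3 → V → ℝ) (i : Fin 3) : V → ℝ :=
  Rs (hco s (fun j => fr (u j)) i)

section

variable {u : Fin 3 → V → ℝ} {s : ℝ}

theorem hp_sp (hs : |s| = 1) (hu : ∀ j, SP (u j)) (i : Fin 3) : SP (hp s u i) :=
  Rs_sp (hco_rap hs (fun j => rap_fr (hu j)) i)

theorem fr_hp (hs : |s| = 1) (hu : ∀ j, SP (u j)) (i : Fin 3) (k : K3) :
    fr (hp s u i) k = hco s (fun j => fr (u j)) i k :=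
  fr_Rs (hco_rap hs (fun j => rap_fr (hu j)) i)
    (hco_herm s (fun j k => fr_neg (u j) k) i) k

theorem cu_hp (hs : |s| = 1) (hu : ∀ j, SP (u j))
    (hdiv : ∀ k : K3, ∑ j, (k j : ℂ) * fr (u j) k = 0) (i : Fin 3) :
    cu (hp s u) i = fun x => s * La (hp s u i) x := by
  have hw := hp_sp hs hu
  refine sp_ext (cu_sp hw i) (sp_cmul s (La_sp (hw i))) fun k => ?_
  have e1 : fr (cu (hp s u) i) k = fr (pd (i + 1) (hp s u (i + 2))) k
      - fr (pd (i + 2) (hp s u (i + 1))) k := fr_sub' ((hw _).pd _) ((hw _).pd _) k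
  rw [e1, fr_pd (hw _), fr_pd (hw _), fr_cmul, fr_La (hw i)]
  unfold D
  rw [fr_hp hs hu, fr_hp hs hu, fr_hp hs hu]
  unfold hco
  by_cases hk : k = 0
  · simp [hk]
  rw [if_neg hk, if_neg hk, if_neg hk]
  have he : (eu k : ℂ) ≠ 0 := by exact_mod_cast (eu_pos hk).ne'
  have hs2 : (s : ℂ) ^ 2 = 1 := by
    have : s ^ 2 = 1 := by rw [← sq_abs, hs]; norm_num
    exact_mod_cast this
  have hk2 : (eu k : ℂ) ^ 2 = (k 0 : ℂ) ^ 2 + (k 1 : ℂ) ^ 2 + (k 2 : ℂ) ^ 2 := by
    have := eu_sq k
    unfold kk at this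
    rw [Fin.sum_univ_three] at this
    exact_mod_cast this
  have hd := hdiv k
  rw [Fin.sum_univ_three] at hd
  unfold crs lam
  have hI : Complex.I ^ 2 = -1 := Complex.I_sq
  obtain ⟨a1, a2, a3, a4, a5, a6⟩ := f3a
  obtain ⟨q, hq1, hq⟩ : ∃ q : ℂ, (∀ x : ℂ, x / (eu k : ℂ) = x * q) ∧ q * (eu k : ℂ) = 1 :=
    ⟨(eu k : ℂ)⁻¹, fun x => div_eq_mul_inv _ _, inv_mul_cancel₀ he⟩
  simp only [hq1]
  push_cast
  have key : ∀ (k0 k1 k2 b0 b1 b2 : ℂ), k0 * b0 + k1 * b1 + k2 * b2 = 0 →
      (eu k : ℂ) ^ 2 = k0 ^ 2 + k1 ^ 2 + k2 ^ 2 →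
      2 * (Real.pi : ℂ) * Complex.I * k1 * (1 / 2 * (b2 + s * Complex.I * (k0 * b1 - k1 * b0) * q))
      - 2 * (Real.pi : ℂ) * Complex.I * k2 * (1 / 2 * (b1 + s * Complex.I * (k2 * b0 - k0 * b2) * q))
      = s * (2 * (Real.pi : ℂ) * (eu k : ℂ)
        * (1 / 2 * (b0 + s * Complex.I * (k1 * b2 - k2 * b1) * q))) := by
    intro k0 k1 k2 b0 b1 b2 hd hk2
    linear_combination (-(Real.pi : ℂ) * Complex.I * (k1 * b2 - k2 * b1)
        + (Real.pi : ℂ) * s * (eu k : ℂ) * b0) * hq
      + (-(Real.pi : ℂ) * Complex.I * (k1 * b2 - k2 * b1) * (eu k : ℂ) * q) * hs2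
      + ((Real.pi : ℂ) * s * q * (k0 * (k1 * b1 + k2 * b2) - (k1 ^ 2 + k2 ^ 2) * b0)) * hI
      - ((Real.pi : ℂ) * s * q * k0) * hd - ((Real.pi : ℂ) * s * q * b0) * hk2
  have h0 := key (k 0) (k 1) (k 2) (fr (u 0) k) (fr (u 1) k) (fr (u 2) k) hd hk2
  have h1 := key (k 1) (k 2) (k 0) (fr (u 1) k) (fr (u 2) k) (fr (u 0) k)
    (by linear_combination hd) (by linear_combination hk2)
  have h2 := key (k 2) (k 0) (k 1) (fr (u 2) k) (fr (u 0) k) (fr (u 1) k)
    (by linear_combination hd) (by linear_combination hk2)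
  fin_cases i
  · simpa only [Fin.zero_eta, Fin.isValue, a1, a2, a3, a4, a5, a6] using h0
  · simpa only [Fin.mk_one, Fin.isValue, a1, a2, a3, a4, a5, a6] using h1
  · simpa only [Fin.reduceFinMk, Fin.isValue, a1, a2, a3, a4, a5, a6] using h2

theorem hco_add (a : Fin 3 → K3 → ℂ) (i : Fin 3) {k : K3} (hk : k ≠ 0) :
    hco s a i k + hco (-s) a i k = a i k := by
  unfold hco
  rw [if_neg hk, if_neg hk]
  push_cast
  ring

theorem abs_neg_one' (hs : |s| = 1) : |(-s)| = 1 := by rw [abs_neg, hs]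

theorem La_split (hs : |s| = 1) (hu : ∀ j, SP (u j)) (i : Fin 3) (x : V) :
    La (u i) x = La (hp s u i) x + La (hp (-s) u i) x := by
  have h1 := hp_sp hs hu i
  have h2 := hp_sp (abs_neg_one' hs) hu i
  have h : La (u i) = fun x => La (hp s u i) x + La (hp (-s) u i) x := by
    refine sp_ext (La_sp (hu i)) ((La_sp h1).add (La_sp h2)) fun k => ?_
    rw [fr_add' (La_sp h1) (La_sp h2), fr_La h1, fr_La h2, fr_La (hu i), fr_hp hs hu,
      fr_hp (abs_neg_one' hs) hu]
    by_cases hk : k = 0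
    · unfold lam
      rw [hk, eu_zero]
      simp
    · rw [← mul_add, hco_add _ _ hk]
  rw [h]

theorem pd_split (hs : |s| = 1) (hu : ∀ j, SP (u j)) (i l : Fin 3) (x : V) :
    pd l (u i) x = pd l (hp s u i) x + pd l (hp (-s) u i) x := by
  have h1 := hp_sp hs hu i
  have h2 := hp_sp (abs_neg_one' hs) hu i
  have h : pd l (u i) = fun x => pd l (hp s u i) x + pd l (hp (-s) u i) x := by
    refine sp_ext ((hu i).pd l) ((h1.pd l).add (h2.pd l)) fun k => ?_
    rw [fr_add' (h1.pd l) (h2.pd l), fr_pd h1, fr_pd h2, fr_pd (hu i)]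
    unfold D
    rw [fr_hp hs hu, fr_hp (abs_neg_one' hs) hu]
    by_cases hk : k = 0
    · simp [hk]
    · rw [← mul_add, hco_add _ _ hk]
  rw [h]

theorem tr_split (hs : |s| = 1) (hu : ∀ j, SP (u j)) (i : Fin 3) (x : V) :
    tr u (u i) x = tr u (hp s u i) x + tr u (hp (-s) u i) x := by
  unfold tr
  rw [← Finset.sum_add_distrib]
  exact Finset.sum_congr rfl fun l _ => by rw [pd_split hs hu]; ring

theorem cu_split (hs : |s| = 1) (hu : ∀ j, SP (u j))
    (hdiv : ∀ k : K3, ∑ j, (k j : ℂ) * fr (u j) k = 0) (i : Fin 3) (x : V) :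
    cu u i x = s * La (hp s u i) x - s * La (hp (-s) u i) x := by
  have h1 := congrFun (cu_hp hs hu hdiv i) x
  have h2 := congrFun (cu_hp (abs_neg_one' hs) hu hdiv i) x
  have h3 : cu u i x = cu (hp s u) i x + cu (hp (-s) u) i x := by
    unfold cu
    rw [pd_split hs hu, pd_split hs hu]
    ring
  rw [h3, h1, h2]
  ring

theorem Co_tr (hu : ∀ j, SP (u j)) {f g : V → ℝ} (hf : SP f) (hg : SP g) :
    Co u f g = (∫ x in cube, tr u (La f) x * g x) - ∫ x in cube, tr u f x * La g x := by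
  unfold Co tr
  rw [Finset.sum_sub_distrib]
  congr 1
  · rw [← integral_finsetSum _ fun j _ => ((hu j).mul (((La_sp hf).pd j).mul hg)).int]
    congr 1
    funext x
    rw [Finset.sum_mul]
    exact Finset.sum_congr rfl fun j _ => by ring
  · rw [← integral_finsetSum _ fun j _ => ((hu j).mul ((hf.pd j).mul (La_sp hg))).int]
    congr 1
    funext x
    rw [Finset.sum_mul]
    exact Finset.sum_congr rfl fun j _ => by ring

/-- The nonlinear term of the critical energy identity, in terms of one helical part. -/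
theorem N_eq (hs : |s| = 1) (hu : ∀ j, SP (u j)) (hdx : ∀ x, ∑ j, pd j (u j) x = 0)
    (hdiv : ∀ k : K3, ∑ j, (k j : ℂ) * fr (u j) k = 0) :
    -∑ i, ∫ x in cube, tr u (u i) x * La (u i) x
      = ∑ i, Co u (u i) (hp s u i)
        - s * ∑ i, ∫ x in cube, cc u (hp (-s) u) i x * hp s u i x := by
  have hs2 : s * s = 1 := by
    have : s ^ 2 = 1 := by rw [← sq_abs, hs]; norm_num
    nlinarith
  have hs' := abs_neg_one' hs
  have hw := hp_sp hs hu
  have hw' := hp_sp hs' hu
  set w := hp s u with hwd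
  set w' := hp (-s) u with hwd'
  have ha : ∀ i, SP (La (w i)) := fun i => La_sp (hw i)
  have hb : ∀ i, SP (La (w' i)) := fun i => La_sp (hw' i)
  have htu : ∀ i, SP (tr u (u i)) := fun i => tr_sp hu (hu i)
  set J1 := ∑ i, ∫ x in cube, tr u (u i) x * La (w i) x with hJ1
  set J2 := ∑ i, ∫ x in cube, tr u (u i) x * La (w' i) x with hJ2
  have e1 : J1 = J2 := by
    have h := helicity hu
    simp_rw [cu_split hs hu hdiv] at h
    have h2 : ∀ i, ∫ x in cube, tr u (u i) x * (s * La (w i) x - s * La (w' i) x)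
        = s * ((∫ x in cube, tr u (u i) x * La (w i) x)
          - ∫ x in cube, tr u (u i) x * La (w' i) x) := by
      intro i
      rw [← integral_sub ((htu i).mul (ha i)).int ((htu i).mul (hb i)).int, ← integral_const_mul]
      congr 1
      funext x
      ring
    rw [Finset.sum_congr rfl fun i _ => h2 i, ← Finset.mul_sum, Finset.sum_sub_distrib] at h
    have h3 : s * (s * (J1 - J2)) = s * 0 := congrArg _ h
    rw [← mul_assoc, hs2] at h3
    linarith
  have e2 : ∑ i, ∫ x in cube, tr u (u i) x * La (u i) x = J1 + J2 := by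
    rw [hJ1, hJ2, ← Finset.sum_add_distrib]
    refine Finset.sum_congr rfl fun i _ => ?_
    rw [← integral_add ((htu i).mul (ha i)).int ((htu i).mul (hb i)).int]
    congr 1
    funext x
    rw [La_split hs hu]
    ring
  set A := ∑ i, ∫ x in cube, tr u (La (w i)) x * w i x with hA
  set B := ∑ i, ∫ x in cube, tr u (La (w' i)) x * w i x with hB
  have e3 : ∑ i, Co u (u i) (w i) = A + B - J1 := by
    rw [hA, hB, hJ1, ← Finset.sum_add_distrib, ← Finset.sum_sub_distrib]
    refine Finset.sum_congr rfl fun i _ => ?_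
    rw [Co_tr hu (hu i) (hw i), ← integral_add ((tr_sp hu (ha i)).mul (hw i)).int
      ((tr_sp hu (hb i)).mul (hw i)).int]
    congr 2
    funext x
    rw [← add_mul]
    congr 1
    unfold tr
    rw [← Finset.sum_add_distrib]
    refine Finset.sum_congr rfl fun l _ => ?_
    have : pd l (La (u i)) x = pd l (fun y => La (w i) y + La (w' i) y) x := by
      congr 1
      funext y
      exact La_split hs hu i y
    rw [this, pd_add' (ha i) (hb i)]
    ring
  set J11 := ∑ i, ∫ x in cube, tr u (w i) x * La (w i) x with hJ11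
  set J12 := ∑ i, ∫ x in cube, tr u (w' i) x * La (w i) x with hJ12
  have e4 : J1 = J11 + J12 := by
    rw [hJ1, hJ11, hJ12, ← Finset.sum_add_distrib]
    refine Finset.sum_congr rfl fun i _ => ?_
    rw [← integral_add ((tr_sp hu (hw i)).mul (ha i)).int ((tr_sp hu (hw' i)).mul (ha i)).int]
    congr 1
    funext x
    rw [tr_split hs hu]
    ring
  have e5 : A = -J11 := by
    rw [hA, hJ11, ← Finset.sum_neg_distrib]
    refine Finset.sum_congr rfl fun i _ => ?_
    rw [int_tr_anti hu hdx (ha i) (hw i)]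
    congr 2
    funext x
    ring
  set CC := ∑ i, ∫ x in cube, cc u w' i x * w i x with hCC
  have e6 : s * J12 = CC - s * B := by
    have h1 : s * J12 = ∑ i, ∫ x in cube, tr u (w' i) x * cu w i x := by
      rw [hJ12, Finset.mul_sum]
      refine Finset.sum_congr rfl fun i _ => ?_
      rw [← integral_const_mul]
      congr 1
      funext x
      rw [congrFun (cu_hp hs hu hdiv i) x]
      ring
    have h2 := int_cu_symm (v := fun i => tr u (w' i)) (w := w) (fun i => tr_sp hu (hw' i)) hw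
    rw [h1, ← h2]
    have h3 : ∀ i, ∫ x in cube, cu (fun i => tr u (w' i)) i x * w i x
        = (∫ x in cube, cc u w' i x * w i x) - s * ∫ x in cube, tr u (La (w' i)) x * w i x := by
      intro i
      rw [← integral_const_mul, ← integral_sub ((cc_sp hu hw' i).mul (hw i)).int
        (sp_cmul s ((tr_sp hu (hb i)).mul (hw i))).int]
      congr 1
      funext x
      rw [cu_tr hu hw' i x]
      have h4 : tr u (cu w' i) x = -s * tr u (La (w' i)) x := by
        rw [cu_hp hs' hu hdiv i]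
        unfold tr
        rw [Finset.mul_sum]
        refine Finset.sum_congr rfl fun l _ => ?_
        have : pd l (fun x => -s * La (w' i) x) x = -s * pd l (La (w' i)) x := by
          unfold pd
          have h5 : HasFDerivAt (fun y => -s * La (w' i) y) _ x :=
            ((hb i).diff x).hasFDerivAt.const_mul (-s)
          rw [h5.fderiv]
          simp
        rw [this]
        ring
      rw [h4]
      ring
    rw [Finset.sum_congr rfl fun i _ => h3 i, Finset.sum_sub_distrib, ← Finset.mul_sum]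
  rw [e2, e3, ← e1, e5]
  have h7 : J12 = s * CC - B := by
    have h8 : s * (s * J12) = s * (CC - s * B) := congrArg _ e6
    rw [← mul_assoc, hs2, one_mul, mul_sub, ← mul_assoc, hs2, one_mul] at h8
    exact h8
  rw [e4, h7]
  ring

end

/-- The helical part with the sign `s` of the field `v`: the sum over the frequencies `k ≠ 0` of
`(1/2) (v̂(k) + s i k × v̂(k) / |k|) exp (2 π i k · x)`. -/
noncomputable def helPart (s : ℝ) (v : V → V) (x : V) (i : Fin 3) : ℝ :=
  Rs (hco s (fun j => fr (fun y => v y j)) i) x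

end Pool.Agent.H2NS
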