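import Pool.Agent.W12.MD.RIESZ0
import Pool.Agent.H459R3.NS.Lp

/-!
Fourier multipliers on smooth periodic functions.
-/

open MeasureTheory Set H459R3.NS
open scoped ENNReal ContDiff

set_option autoImplicit false

namespace Pool.Agent.H2NS

open Pool.Agent.W12.MD.R0 (S_smooth' S_per pd_S kk kk_pos)

/-- A multiplier: Hermitian and of polynomial growth. -/
structure Mlt (m : K3 → ℂ) : Prop where
  herm : ∀ k, m (-k) = (starRingEnd ℂ) (m k)
  poly : ∃ (C : ℝ) (n : ℕ), 0 ≤ C ∧ ∀ k, ‖m k‖ ≤ C * (1 + (N k : ℝ) ^ n)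

/-- The operator with the multiplier `m`. -/
noncomputable def Mop (m : K3 → ℂ) (f : V → ℝ) (x : V) : ℝ := (S (fun k => m k * fr f k) x).re

theorem rap_mul {m a : K3 → ℂ} (hm : Mlt m) (ha : Rap a) : Rap fun k => m k * a k := by
  obtain ⟨C, n, hC, h⟩ := hm.poly
  intro l
  refine Summable.of_nonneg_of_le (fun k => by positivity) (fun k => ?_)
    (((ha l).mul_left C).add ((ha (l + n)).mul_left C))
  rw [norm_mul]
  calc (N k : ℝ) ^ l * (‖m k‖ * ‖a k‖) ≤ (N k : ℝ) ^ l * (C * (1 + (N k : ℝ) ^ n) * ‖a k‖) := by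
        gcongr
        exact h k
    _ = C * ((N k : ℝ) ^ l * ‖a k‖) + C * ((N k : ℝ) ^ (l + n) * ‖a k‖) := by ring

theorem fr_neg (f : V → ℝ) (k : K3) : fr f (-k) = (starRingEnd ℂ) (fr f k) := by
  unfold fr fc
  rw [← integral_conj]
  congr 1
  funext x
  rw [map_mul, ← ee_neg, Complex.conj_ofReal]

theorem S_real {a : K3 → ℂ} (h : ∀ k, a (-k) = (starRingEnd ℂ) (a k)) (x : V) :
    ((S a x).re : ℂ) = S a x := by
  rw [← Complex.conj_eq_iff_re]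
  unfold S
  rw [Complex.conj_tsum, ← (Equiv.neg K3).tsum_eq]
  refine tsum_congr fun k => ?_
  rw [Equiv.neg_apply, h k, ee_neg, map_mul, Complex.conj_conj, Complex.conj_conj]

theorem herm_mul {m : K3 → ℂ} (hm : Mlt m) (f : V → ℝ) (k : K3) :
    m (-k) * fr f (-k) = (starRingEnd ℂ) (m k * fr f k) := by
  rw [hm.herm, fr_neg, map_mul]

theorem Mop_coe {m : K3 → ℂ} (hm : Mlt m) (f : V → ℝ) (x : V) :
    ((Mop m f x : ℝ) : ℂ) = S (fun k => m k * fr f k) x :=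
  S_real (a := fun k => m k * fr f k) (fun k => herm_mul hm f k) x

theorem Mop_sp {m : K3 → ℂ} (hm : Mlt m) {f : V → ℝ} (hf : SP f) : SP (Mop m f) where
  smooth := Complex.reCLM.contDiff.comp (S_smooth' (rap_mul hm (rap_fr hf)))
  per := fun i x => by
    unfold Mop
    rw [S_per _ i x]

theorem fr_Mop {m : K3 → ℂ} (hm : Mlt m) {f : V → ℝ} (hf : SP f) (k : K3) :
    fr (Mop m f) k = m k * fr f k := by
  have h := integral_ee_S (-k) (rap_mul hm (rap_fr hf)).summable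
  rw [neg_neg] at h
  rw [← h]
  show ∫ x in cube, ee (-k) x * ((Mop m f x : ℝ) : ℂ) = _
  congr 1
  funext x
  rw [Mop_coe hm]

theorem sp_ext {f g : V → ℝ} (hf : SP f) (hg : SP g) (h : ∀ k, fr f k = fr g k) : f = g := by
  funext x
  have h1 := S_fr hf x
  have h2 := S_fr hg x
  rw [show fr f = fr g from funext h, h2] at h1
  exact_mod_cast h1.symm

theorem n2_sum {a : K3 → ℂ} : n2 a ^ 2 = ∑' k, ‖a k‖ ^ 2 := n2_sq a

theorem nrm_fr {f : V → ℝ} (hf : SP f) : nrm f ^ 2 = ∑' k, ‖fr f k‖ ^ 2 := by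
  rw [nrm_sq, ← n2_fr hf, n2_sq]

theorem nrm_Mop {m : K3 → ℂ} (hm : Mlt m) {f : V → ℝ} (hf : SP f) :
    nrm (Mop m f) ^ 2 = ∑' k, ‖m k‖ ^ 2 * ‖fr f k‖ ^ 2 := by
  rw [nrm_fr (Mop_sp hm hf)]
  refine tsum_congr fun k => ?_
  rw [fr_Mop hm hf, norm_mul, mul_pow]

theorem sum_D (a : K3 → ℂ) (k : K3) :
    ∑ j, ‖D j a k‖ ^ 2 = 4 * Real.pi ^ 2 * kk k * ‖a k‖ ^ 2 := by
  unfold D kk
  have h : ∀ j : Fin 3, ‖2 * (Real.pi : ℂ) * Complex.I * (k j : ℂ) * a k‖ ^ 2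
      = 4 * Real.pi ^ 2 * (k j : ℝ) ^ 2 * ‖a k‖ ^ 2 := by
    intro j
    rw [norm_mul, norm_mul, norm_mul, norm_mul, Complex.norm_I, Complex.norm_intCast,
      Complex.norm_real, Real.norm_eq_abs, abs_of_pos Real.pi_pos]
    norm_num
    rw [mul_pow, mul_pow, mul_pow, sq_abs]
    ring
  simp_rw [h]
  rw [← Finset.sum_mul, ← Finset.mul_sum]

theorem summ_sq {a : K3 → ℂ} (ha : Rap a) : Summable fun k => ‖a k‖ ^ 2 := summable_sq ha.summable

theorem grd_fr {f : V → ℝ} (hf : SP f) :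
    grd f ^ 2 = ∑' k, 4 * Real.pi ^ 2 * kk k * ‖fr f k‖ ^ 2 := by
  rw [grd_sq]
  have h : ∀ j, ∫ x in cube, pd j f x ^ 2 = ∑' k, ‖D j (fr f) k‖ ^ 2 := by
    intro j
    rw [← n2_fr (hf.pd j), n2_sq, fr_pd hf]
  simp_rw [h]
  rw [← Summable.tsum_finsetSum fun j _ => summ_sq ((rap_fr hf).D j)]
  exact tsum_congr fun k => sum_D _ _

theorem grd_Mop {m : K3 → ℂ} (hm : Mlt m) {f : V → ℝ} (hf : SP f) :
    grd (Mop m f) ^ 2 = ∑' k, 4 * Real.pi ^ 2 * kk k * (‖m k‖ ^ 2 * ‖fr f k‖ ^ 2) := by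
  rw [grd_fr (Mop_sp hm hf)]
  refine tsum_congr fun k => ?_
  rw [fr_Mop hm hf, norm_mul, mul_pow]

/-- `|k|` -/
noncomputable def eu (k : K3) : ℝ := Real.sqrt (kk k)

theorem kk_nonneg (k : K3) : 0 ≤ kk k := Finset.sum_nonneg fun _ _ => sq_nonneg _

theorem eu_nonneg (k : K3) : 0 ≤ eu k := Real.sqrt_nonneg _

theorem eu_sq (k : K3) : eu k ^ 2 = kk k := Real.sq_sqrt (kk_nonneg k)

theorem kk_neg (k : K3) : kk (-k) = kk k := by
  unfold kk
  exact Finset.sum_congr rfl fun j _ => by simp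

theorem eu_neg (k : K3) : eu (-k) = eu k := by unfold eu; rw [kk_neg]

theorem kk_le (k : K3) : kk k ≤ 3 * (N k : ℝ) ^ 2 := by
  unfold kk
  have h : ∀ j ∈ (Finset.univ : Finset (Fin 3)), (k j : ℝ) ^ 2 ≤ (N k : ℝ) ^ 2 := by
    intro j _
    have h1 := (N_le_iff k (N k)).1 le_rfl j
    have h2 : |(k j : ℝ)| ≤ N k := by exact_mod_cast h1
    rw [← sq_abs]
    exact pow_le_pow_left₀ (abs_nonneg _) h2 2
  refine (Finset.sum_le_sum h).trans ?_
  simp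

theorem eu_le (k : K3) : eu k ≤ 2 * N k := by
  unfold eu
  refine Real.sqrt_le_left (by positivity) |>.2 ?_
  refine (kk_le k).trans ?_
  nlinarith [sq_nonneg (N k : ℝ)]

theorem eu_pos {k : K3} (hk : k ≠ 0) : 0 < eu k := Real.sqrt_pos.2 (kk_pos hk)

theorem eu_zero : eu 0 = 0 := by unfold eu kk; simp

theorem abs_comp_le (k : K3) (j : Fin 3) : |(k j : ℝ)| ≤ eu k := by
  unfold eu
  apply Real.le_sqrt_of_sq_le
  rw [sq_abs]
  exact Finset.single_le_sum (f := fun j => (k j : ℝ) ^ 2) (fun j _ => sq_nonneg _)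
    (Finset.mem_univ j)

theorem summ_eu {a : K3 → ℂ} (ha : Rap a) (n : ℕ) : Summable fun k => eu k ^ n * ‖a k‖ ^ 2 := by
  have h1 : ∃ M, ∀ k, ‖a k‖ ≤ M := ⟨∑' m, ‖a m‖, fun k => ha.summable.norm.le_tsum k
    fun _ _ => norm_nonneg _⟩
  obtain ⟨M, hM⟩ := h1
  refine Summable.of_nonneg_of_le (fun k => by have := eu_nonneg k; positivity) (fun k => ?_)
    ((ha n).mul_left (2 ^ n * M))
  have h2 : eu k ^ n ≤ (2 * N k) ^ n := pow_le_pow_left₀ (eu_nonneg k) (eu_le k) n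
  have h3 : 0 ≤ M := (norm_nonneg _).trans (hM 0)
  calc eu k ^ n * ‖a k‖ ^ 2 ≤ (2 * N k) ^ n * (M * ‖a k‖) := by
        rw [sq]
        gcongr
        exact hM k
    _ = 2 ^ n * M * ((N k : ℝ) ^ n * ‖a k‖) := by rw [mul_pow]; ring

end Pool.Agent.H2NS
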