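import Pool.Agent.H2NS.Hel

/-!
The bound for the nonlinear term.
-/

open MeasureTheory Set H459R3.NS
open scoped ENNReal ContDiff

set_option autoImplicit false

namespace Pool.Agent.H2NS

open Pool.Agent.W12.MD.R0 (kk kk_pos S_smooth' S_per)

variable {u : Fin 3 → V → ℝ} {s : ℝ}

theorem sq_hco_le {s : ℝ} (hs : |s| = 1) (a : Fin 3 → K3 → ℂ) (i : Fin 3) (k : K3) :
    ‖hco s a i k‖ ^ 2 ≤ 3 * ∑ j, ‖a j k‖ ^ 2 := by
  have h := norm_hco_le hs a i k
  have h1 : ‖hco s a i k‖ ^ 2 ≤ (∑ j, ‖a j k‖) ^ 2 := pow_le_pow_left₀ (norm_nonneg _) h 2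
  refine h1.trans ?_
  have h2 := sq_sum_le_card_mul_sum_sq (s := (Finset.univ : Finset (Fin 3))) (f := fun j => ‖a j k‖)
  simpa using h2

theorem y2_hp_le (hs : |s| = 1) (hu : ∀ j, SP (u j)) (i : Fin 3) :
    y2 (hp s u i) ≤ 3 * ∑ j, y2 (u j) := by
  unfold y2
  rw [← Summable.tsum_finsetSum fun j _ => summ_eu (rap_fr (hu j)) 3, ← tsum_mul_left]
  refine Summable.tsum_le_tsum (fun k => ?_) (summ_eu (rap_fr (hp_sp hs hu i)) 3)
    ((summable_sum fun j _ => summ_eu (rap_fr (hu j)) 3).mul_left 3)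
  rw [fr_hp hs hu, ← Finset.mul_sum]
  have := mul_le_mul_of_nonneg_left (sq_hco_le hs (fun j => fr (u j)) i k)
    (pow_nonneg (eu_nonneg k) 3)
  linarith

theorem summ_eu1 {a : K3 → ℂ} (ha : Rap a) : Summable fun k => eu k * ‖a k‖ ^ 2 := by
  simpa using summ_eu ha 1

theorem x2_hp_le (hs : |s| = 1) (hu : ∀ j, SP (u j)) (i : Fin 3) :
    x2 (hp s u i) ≤ 3 * ∑ j, x2 (u j) := by
  unfold x2
  rw [← Summable.tsum_finsetSum fun j _ => summ_eu1 (rap_fr (hu j)), ← tsum_mul_left]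
  refine Summable.tsum_le_tsum (fun k => ?_) (summ_eu1 (rap_fr (hp_sp hs hu i)))
    ((summable_sum fun j _ => summ_eu1 (rap_fr (hu j))).mul_left 3)
  rw [fr_hp hs hu, ← Finset.mul_sum]
  have := mul_le_mul_of_nonneg_left (sq_hco_le hs (fun j => fr (u j)) i k) (eu_nonneg k)
  linarith

theorem N_le : ∃ K : ℝ, 0 ≤ K ∧ ∀ (u : Fin 3 → V → ℝ) (s κ E : ℝ), |s| = 1 → (∀ j, SP (u j)) →
      (∀ x, ∑ j, pd j (u j) x = 0) → 0 ≤ κ → 0 ≤ E → (∀ i, Frm κ E (hp s u i)) →
      |∑ i, ∫ x in cube, tr u (u i) x * La (u i) x|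
        ≤ K * (κ * ∑ j, y2 (u j) + E * ∑ j, x2 (u j)) := by
  obtain ⟨K1, hK1, h1⟩ := comm_le
  obtain ⟨K2, hK2, h2⟩ := prod_le
  refine ⟨4 * K1 + 72 * K2, by positivity, fun u s κ E hs hu hdx hκ hE hM => ?_⟩
  have hdiv : ∀ k : K3, ∑ j, (k j : ℂ) * fr (u j) k = 0 := fun k => fr_div hu hdx k
  have hs' := abs_neg_one' hs
  have hw := hp_sp hs hu
  have hw' := hp_sp hs' hu
  have hN := N_eq hs hu hdx hdiv
  set Y := ∑ j, y2 (u j) with hY
  set X := ∑ j, x2 (u j) with hX
  have hY0 : 0 ≤ Y := Finset.sum_nonneg fun j _ => y2_nonneg _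
  have hX0 : 0 ≤ X := Finset.sum_nonneg fun j _ => x2_nonneg _
  have yl : ∀ l, y2 (u l) ≤ Y := fun l =>
    Finset.single_le_sum (f := fun j => y2 (u j)) (fun j _ => y2_nonneg _) (Finset.mem_univ l)
  have xl : ∀ l, x2 (u l) ≤ X := fun l =>
    Finset.single_le_sum (f := fun j => x2 (u j)) (fun j _ => x2_nonneg _) (Finset.mem_univ l)
  have c1 : |∑ i, Co u (u i) (hp s u i)| ≤ K1 * (κ * (4 * Y) + E * (4 * X)) := by
    refine (Finset.abs_sum_le_sum_abs _ _).trans ?_
    refine (Finset.sum_le_sum fun i _ => h1 u (u i) (hp s u i) κ E hu hdiv (hu i) (hw i) hκ hE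
      (hM i)).trans (le_of_eq ?_)
    rw [← Finset.mul_sum, Finset.sum_add_distrib, ← Finset.mul_sum, ← Finset.mul_sum,
      Finset.sum_add_distrib, Finset.sum_add_distrib, Finset.sum_const, Finset.sum_const,
      Finset.card_univ, Fintype.card_fin, ← hY, ← hX]
    simp only [nsmul_eq_mul]
    push_cast
    ring
  have t : ∀ (l m b i n : Fin 3), |∫ x in cube, pd m (u l) x * (pd n (hp (-s) u b) x * hp s u i x)|
      ≤ K2 * (κ * (4 * Y) + E * (4 * X)) := by
    intro l m b i n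
    refine (h2 (u l) (hp (-s) u b) (hp s u i) m n κ E (hu l) (hw' b) (hw i) hκ hE (hM i)).trans ?_
    have q1 := y2_hp_le hs' hu b
    have q2 := x2_hp_le hs' hu b
    have q3 := yl l
    have q4 := xl l
    refine mul_le_mul_of_nonneg_left (add_le_add (mul_le_mul_of_nonneg_left (by linarith) hκ)
      (mul_le_mul_of_nonneg_left (by linarith) hE)) hK2
  have c2 : |∑ i, ∫ x in cube, cc u (hp (-s) u) i x * hp s u i x|
      ≤ 18 * (K2 * (κ * (4 * Y) + E * (4 * X))) := by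
    have e : ∀ i, ∫ x in cube, cc u (hp (-s) u) i x * hp s u i x
        = ∑ l, ((∫ x in cube, pd (i + 1) (u l) x * (pd l (hp (-s) u (i + 2)) x * hp s u i x))
          - ∫ x in cube, pd (i + 2) (u l) x * (pd l (hp (-s) u (i + 1)) x * hp s u i x)) := by
      intro i
      have e1 : ∀ l, (∫ x in cube, pd (i + 1) (u l) x * (pd l (hp (-s) u (i + 2)) x * hp s u i x))
          - ∫ x in cube, pd (i + 2) (u l) x * (pd l (hp (-s) u (i + 1)) x * hp s u i x)
          = ∫ x in cube, (pd (i + 1) (u l) x * (pd l (hp (-s) u (i + 2)) x * hp s u i x)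
            - pd (i + 2) (u l) x * (pd l (hp (-s) u (i + 1)) x * hp s u i x)) := fun l =>
        (integral_sub (((hu l).pd _).mul (((hw' _).pd _).mul (hw i))).int
          (((hu l).pd _).mul (((hw' _).pd _).mul (hw i))).int).symm
      rw [Finset.sum_congr rfl fun l _ => e1 l, ← integral_finsetSum _ fun l _ =>
        (sp_sub (((hu l).pd _).mul (((hw' _).pd _).mul (hw i)))
          (((hu l).pd _).mul (((hw' _).pd _).mul (hw i)))).int]
      congr 1
      funext x
      unfold cc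
      rw [Finset.sum_mul]
      exact Finset.sum_congr rfl fun l _ => by ring
    set R := K2 * (κ * (4 * Y) + E * (4 * X)) with hR
    have e2 : ∀ i, |∫ x in cube, cc u (hp (-s) u) i x * hp s u i x| ≤ 6 * R := by
      intro i
      rw [e i]
      refine (Finset.abs_sum_le_sum_abs _ _).trans ?_
      have e3 : ∀ l ∈ (Finset.univ : Finset (Fin 3)),
          |(∫ x in cube, pd (i + 1) (u l) x * (pd l (hp (-s) u (i + 2)) x * hp s u i x))
          - ∫ x in cube, pd (i + 2) (u l) x * (pd l (hp (-s) u (i + 1)) x * hp s u i x)|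
          ≤ R + R := fun l _ => (abs_sub _ _).trans (add_le_add (t l _ _ i l) (t l _ _ i l))
      refine (Finset.sum_le_sum e3).trans (le_of_eq ?_)
      rw [Finset.sum_const, Finset.card_univ, Fintype.card_fin, nsmul_eq_mul]
      push_cast
      ring
    refine (Finset.abs_sum_le_sum_abs _ _).trans ((Finset.sum_le_sum fun i _ => e2 i).trans
      (le_of_eq ?_))
    rw [Finset.sum_const, Finset.card_univ, Fintype.card_fin, nsmul_eq_mul]
    push_cast
    ring
  have h3 : |∑ i, ∫ x in cube, tr u (u i) x * La (u i) x|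
      = |∑ i, Co u (u i) (hp s u i)
        - s * ∑ i, ∫ x in cube, cc u (hp (-s) u) i x * hp s u i x| := by
    rw [← hN, abs_neg]
  rw [h3]
  refine (abs_sub _ _).trans ?_
  rw [abs_mul, hs, one_mul]
  refine (add_le_add c1 c2).trans (le_of_eq ?_)
  ring

end Pool.Agent.H2NS
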