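import Pool.Agent.H2NS.Comm2

/-!
Products of derivatives, integrated against a multiplier.
-/

open MeasureTheory Set H459R3.NS
open scoped ENNReal ContDiff

set_option autoImplicit false

namespace Pool.Agent.H2NS

open Pool.Agent.W12.MD.R0 (kk kk_pos)

theorem eu_ge_one {k : K3} (hk : k ≠ 0) : 1 ≤ eu k := by
  unfold eu
  rw [Real.one_le_sqrt]
  have h := kk_pos hk
  unfold kk at *
  have e : ∑ j, ((k j : ℤ) : ℝ) ^ 2 = ((∑ j, (k j) ^ 2 : ℤ) : ℝ) := by push_cast; rfl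
  rw [e] at h ⊢
  have : (0 : ℤ) < ∑ j, (k j) ^ 2 := by exact_mod_cast h
  exact_mod_cast this

/-- First heat family. -/
noncomputable def ha (h : ℝ) (k : K3) : ℂ :=
  ((h * eu k ^ 2 * Real.exp (-(h ^ 2 * eu k ^ 2) / 2) : ℝ) : ℂ)

open Classical in
/-- Second heat family. -/
noncomputable def hb (h : ℝ) (k : K3) : ℂ :=
  if k = 0 then 0 else ((Real.exp (-(h ^ 2 * eu k ^ 2) / 2) : ℝ) : ℂ)

theorem exp_le (h : ℝ) (k : K3) : Real.exp (-(h ^ 2 * eu k ^ 2) / 2) ≤ 1 :=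
  Real.exp_le_one_iff.2 (by
    have : 0 ≤ h ^ 2 * eu k ^ 2 := by positivity
    linarith)

theorem ha_mlt (h : ℝ) : Mlt (ha h) where
  herm := fun k => by unfold ha; rw [eu_neg, Complex.conj_ofReal]
  poly := by
    refine ⟨|h| * 4, 2, by positivity, fun k => ?_⟩
    unfold ha
    have h1 := exp_le h k
    have h2 := (Real.exp_pos (-(h ^ 2 * eu k ^ 2) / 2)).le
    have h3 := eu_pow_le k 2
    rw [Complex.norm_real, Real.norm_eq_abs, abs_mul, abs_mul, abs_of_nonneg h2,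
      abs_of_nonneg (by positivity : 0 ≤ eu k ^ 2)]
    calc |h| * eu k ^ 2 * Real.exp (-(h ^ 2 * eu k ^ 2) / 2)
        ≤ |h| * (2 ^ 2 * (1 + (N k : ℝ) ^ 2)) * 1 := by gcongr
      _ = _ := by ring

theorem hb_mlt (h : ℝ) : Mlt (hb h) where
  herm := fun k => by
    unfold hb
    by_cases hk : k = 0
    · simp [hk]
    · rw [if_neg hk, if_neg (by simpa using hk), eu_neg, Complex.conj_ofReal]
  poly := by
    refine ⟨1, 0, by positivity, fun k => ?_⟩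
    unfold hb
    by_cases hk : k = 0
    · simp [hk]
    · rw [if_neg hk, Complex.norm_real, Real.norm_eq_abs, abs_of_pos (Real.exp_pos _)]
      have := exp_le h k
      norm_num
      linarith

theorem hb_zero (h : ℝ) : hb h 0 = 0 := by unfold hb; simp

theorem fam_ha : ∃ C : ℝ, 0 ≤ C ∧ Fam hm ha (fun k => C * eu k) := by
  obtain ⟨C, hC, hd⟩ := heat2
  refine ⟨C, hC, ha_mlt, fun k => ?_, fun k => mul_nonneg hC (eu_nonneg k), ?_, fun k => ?_⟩
  · unfold ha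
    fun_prop
  · refine ⟨C * 2 ^ 1, 1, by positivity, fun k => ?_⟩
    have := mul_le_mul_of_nonneg_left (eu_pow_le k 1) hC
    rw [pow_one] at this
    linarith
  · by_cases hk : k = 0
    · subst hk
      unfold ha
      simp [eu_zero]
    · refine le_trans (le_of_eq ?_) (hd (eu k) (eu_pos hk))
      refine lintegral_congr fun h => ?_
      congr 1
      unfold ha
      rw [Complex.norm_real, Real.norm_eq_abs, sq_abs, mul_pow, ← Real.exp_nat_mul]
      congr 2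
      push_cast
      ring

theorem fam_hb : ∃ C : ℝ, 0 ≤ C ∧ Fam hm hb (fun k => C * (eu k)⁻¹) := by
  obtain ⟨C, hC, hd⟩ := heat1
  refine ⟨C, hC, hb_mlt, fun k => ?_, fun k => mul_nonneg hC (inv_nonneg.2 (eu_nonneg k)), ?_,
    fun k => ?_⟩
  · unfold hb
    by_cases hk : k = 0
    · simp [hk]
    · simp only [if_neg hk]
      fun_prop
  · refine ⟨C, 0, hC, fun k => ?_⟩
    by_cases hk : k = 0
    · subst hk
      rw [eu_zero, inv_zero, mul_zero]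
      positivity
    · have : (eu k)⁻¹ ≤ 1 := inv_le_one_of_one_le₀ (eu_ge_one hk)
      have := mul_le_mul_of_nonneg_left this hC
      rw [pow_zero]
      linarith
  · by_cases hk : k = 0
    · subst hk
      simp [hb_zero]
    · refine le_trans (le_of_eq ?_) (hd (eu k) (eu_pos hk))
      refine lintegral_congr fun h => ?_
      congr 1
      unfold hb
      rw [if_neg hk, Complex.norm_real, Real.norm_eq_abs, sq_abs, ← Real.exp_nat_mul]
      congr 1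
      push_cast
      ring

theorem hab_sum {k l : K3} (hk : k ≠ 0) (hl : l ≠ 0) :
    ∫ h, ha h k * hb h l ∂hm + ∫ h, ha h l * hb h k ∂hm = 1 := by
  obtain ⟨Ca, -, fa⟩ := fam_ha
  obtain ⟨Cb, -, fb⟩ := fam_hb
  rw [← integral_add (int_mul fa fb k l) (int_mul fa fb l k)]
  have hr : 0 < Real.sqrt (eu k ^ 2 + eu l ^ 2) := by
    have := eu_pos hk
    positivity
  have h1 := heat_prod _ hr
  rw [Real.sq_sqrt (by positivity)] at h1
  have h2 : ((∫ h, h * (eu k ^ 2 + eu l ^ 2) * Real.exp (-(h ^ 2 * (eu k ^ 2 + eu l ^ 2)) / 2) ∂hm : ℝ)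
      : ℂ) = ((1 : ℝ) : ℂ) := congrArg _ h1
  rw [← integral_complex_ofReal, Complex.ofReal_one] at h2
  rw [← h2]
  congr 1
  funext h
  unfold ha hb
  rw [if_neg hk, if_neg hl, ← Complex.ofReal_mul, ← Complex.ofReal_mul, ← Complex.ofReal_add]
  congr 1
  have e : Real.exp (-(h ^ 2 * (eu k ^ 2 + eu l ^ 2)) / 2)
      = Real.exp (-(h ^ 2 * eu k ^ 2) / 2) * Real.exp (-(h ^ 2 * eu l ^ 2) / 2) := by
    rw [← Real.exp_add]
    congr 1
    ring
  rw [e]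
  ring

theorem prod_eq {F G s : V → ℝ} (hF : SP F) (hG : SP G) (hs : SP s) (hF0 : fr F 0 = 0)
    (hG0 : fr G 0 = 0) :
    ((∫ x in cube, F x * (G x * s x) : ℝ) : ℂ)
      = (∑' p : K3 × K3, fr F p.1 * fr G p.2 * fr s (-p.1 - p.2) * ∫ h, ha h p.1 * hb h p.2 ∂hm)
        + ∑' p : K3 × K3, fr G p.1 * fr F p.2 * fr s (-p.1 - p.2)
          * ∫ h, ha h p.1 * hb h p.2 ∂hm := by
  obtain ⟨Ca, -, fa⟩ := fam_ha
  obtain ⟨Cb, -, fb⟩ := fam_hb
  have A1 := tri_hasSum hF hG hs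
  have B1 := (bil_ident fa fb hF hG hs).summable.hasSum
  have B2 : HasSum (fun p : K3 × K3 => fr G p.2 * fr F p.1 * fr s (-p.2 - p.1)
          * ∫ h, ha h p.2 * hb h p.1 ∂hm)
      (∑' p : K3 × K3, fr G p.1 * fr F p.2 * fr s (-p.1 - p.2)
          * ∫ h, ha h p.1 * hb h p.2 ∂hm) := by
    have h := (bil_ident fa fb hG hF hs).summable.hasSum
    exact (Equiv.prodComm K3 K3).hasSum_iff.2 h
  have e : (fun p : K3 × K3 => fr F p.1 * fr G p.2 * fr s (-p.1 - p.2) * ∫ h, ha h p.1 * hb h p.2 ∂hm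
        + fr G p.2 * fr F p.1 * fr s (-p.2 - p.1) * ∫ h, ha h p.2 * hb h p.1 ∂hm)
      = fun p : K3 × K3 => fr F p.1 * fr G p.2 * fr s (-p.1 - p.2) := by
    funext p
    obtain ⟨k, l⟩ := p
    simp only
    have s1 : -l - k = -k - l := by abel
    rw [s1]
    by_cases hk : k = 0
    · rw [hk, hF0]; ring
    by_cases hl : l = 0
    · rw [hl, hG0]; ring
    have h1 := hab_sum hk hl
    calc _ = fr F k * fr G l * fr s (-k - l)
          * (∫ h, ha h k * hb h l ∂hm + ∫ h, ha h l * hb h k ∂hm) := by ring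
      _ = _ := by rw [h1, mul_one]
  have B3 := B1.add B2
  rw [e] at B3
  exact A1.unique B3

theorem prod_le : ∃ K : ℝ, 0 ≤ K ∧ ∀ (a b s : V → ℝ) (i j : Fin 3) (κ E : ℝ), SP a → SP b →
      SP s → 0 ≤ κ → 0 ≤ E → Frm κ E s →
      |∫ x in cube, pd i a x * (pd j b x * s x)| ≤ K * (κ * (y2 a + y2 b) + E * (x2 a + x2 b)) := by
  obtain ⟨Ca, hCa, fa⟩ := fam_ha
  obtain ⟨Cb, hCb, fb⟩ := fam_hb
  have hp := Real.pi_pos
  refine ⟨(Ca + 4 * Real.pi ^ 2 * Cb + Cb) * (4 * Real.pi ^ 2), by positivity,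
    fun a b s i j κ E hsa hsb hs hκ hE hM => ?_⟩
  have hD : ∀ (v : V → ℝ) (m : Fin 3) (k : K3), SP v → ‖fr (pd m v) k‖ ^ 2
      ≤ 4 * Real.pi ^ 2 * eu k ^ 2 * ‖fr v k‖ ^ 2 := by
    intro v m k hv
    rw [fr_pd hv, eu_sq, ← sum_D]
    exact Finset.single_le_sum (f := fun j => ‖D j (fr v) k‖ ^ 2) (fun _ _ => sq_nonneg _)
      (Finset.mem_univ m)
  have T1 : ∀ (v : V → ℝ) (m : Fin 3), SP v → ∑' k, Ca * eu k * ‖fr (pd m v) k‖ ^ 2
      ≤ Ca * (4 * Real.pi ^ 2) * y2 v := by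
    intro v m hv
    unfold y2
    rw [← tsum_mul_left]
    refine Summable.tsum_le_tsum (fun k => ?_) (summ_A2 fa (rap_fr (hv.pd m)))
      ((summ_eu (rap_fr hv) 3).mul_left _)
    have he := eu_nonneg k
    calc Ca * eu k * ‖fr (pd m v) k‖ ^ 2 ≤ Ca * eu k * (4 * Real.pi ^ 2 * eu k ^ 2 * ‖fr v k‖ ^ 2) :=
          mul_le_mul_of_nonneg_left (hD v m k hv) (by positivity)
      _ = _ := by ring
  have T2 : ∀ (v : V → ℝ) (m : Fin 3), SP v →
      ∑' k, Cb * (eu k)⁻¹ * (4 * Real.pi ^ 2 * kk k * ‖fr (pd m v) k‖ ^ 2)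
      ≤ 4 * Real.pi ^ 2 * Cb * (4 * Real.pi ^ 2) * y2 v := by
    intro v m hv
    unfold y2
    rw [← tsum_mul_left]
    refine Summable.tsum_le_tsum (fun k => ?_) (summ_A3 fb (rap_fr (hv.pd m)))
      ((summ_eu (rap_fr hv) 3).mul_left _)
    have he := eu_nonneg k
    have h1 : (eu k)⁻¹ * eu k ^ 2 = eu k := by
      rcases eq_or_ne (eu k) 0 with h | h
      · rw [h]; simp
      · field_simp
    calc Cb * (eu k)⁻¹ * (4 * Real.pi ^ 2 * kk k * ‖fr (pd m v) k‖ ^ 2)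
        = Cb * (4 * Real.pi ^ 2 * ((eu k)⁻¹ * eu k ^ 2)) * ‖fr (pd m v) k‖ ^ 2 := by
          rw [← eu_sq]; ring
      _ ≤ Cb * (4 * Real.pi ^ 2 * ((eu k)⁻¹ * eu k ^ 2))
          * (4 * Real.pi ^ 2 * eu k ^ 2 * ‖fr v k‖ ^ 2) :=
          mul_le_mul_of_nonneg_left (hD v m k hv) (by rw [h1]; positivity)
      _ = _ := by rw [h1]; ring
  have T3 : ∀ (v : V → ℝ) (m : Fin 3), SP v →
      ∑' k, Cb * (eu k)⁻¹ * ‖fr (pd m v) k‖ ^ 2 ≤ Cb * (4 * Real.pi ^ 2) * x2 v := by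
    intro v m hv
    unfold x2
    rw [← tsum_mul_left]
    refine Summable.tsum_le_tsum (fun k => ?_) (summ_A2 fb (rap_fr (hv.pd m)))
      ((by simpa using summ_eu (rap_fr hv) 1 : Summable fun k => eu k * ‖fr v k‖ ^ 2).mul_left _)
    have he := eu_nonneg k
    have h1 : (eu k)⁻¹ * eu k ^ 2 = eu k := by
      rcases eq_or_ne (eu k) 0 with h | h
      · rw [h]; simp
      · field_simp
    calc Cb * (eu k)⁻¹ * ‖fr (pd m v) k‖ ^ 2
        ≤ Cb * (eu k)⁻¹ * (4 * Real.pi ^ 2 * eu k ^ 2 * ‖fr v k‖ ^ 2) :=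
          mul_le_mul_of_nonneg_left (hD v m k hv) (by positivity)
      _ = Cb * (4 * Real.pi ^ 2) * (((eu k)⁻¹ * eu k ^ 2) * ‖fr v k‖ ^ 2) := by ring
      _ = _ := by rw [h1]
  have z0 : ∀ (v : V → ℝ) (m : Fin 3), SP v → fr (pd m v) 0 = 0 := by
    intro v m hv
    rw [fr_pd hv]
    unfold D
    simp
  have h := prod_eq (hsa.pd i) (hsb.pd j) hs (z0 a i hsa) (z0 b j hsb)
  have b1 := bil fa fb hb_zero (hsa.pd i) (hsb.pd j) hs hκ hE hM
  have b2 := bil fa fb hb_zero (hsb.pd j) (hsa.pd i) hs hκ hE hM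
  have e1 : |∫ x in cube, pd i a x * (pd j b x * s x)|
      = ‖((∫ x in cube, pd i a x * (pd j b x * s x) : ℝ) : ℂ)‖ := by
    rw [Complex.norm_real, Real.norm_eq_abs]
  rw [e1, h]
  refine (norm_add_le _ _).trans ((add_le_add b1 b2).trans ?_)
  have n1 := y2_nonneg a
  have n2 := y2_nonneg b
  have n3 := x2_nonneg a
  have n4 := x2_nonneg b
  have m1 := mul_le_mul_of_nonneg_left (add_le_add (T1 a i hsa) (T2 b j hsb)) hκ
  have m2 := mul_le_mul_of_nonneg_left (add_le_add (T1 b j hsb) (T2 a i hsa)) hκ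
  have m3 := mul_le_mul_of_nonneg_left (T3 b j hsb) hE
  have m4 := mul_le_mul_of_nonneg_left (T3 a i hsa) hE
  refine (add_le_add (add_le_add m1 m3) (add_le_add m2 m4)).trans ?_
  have p1 : 0 ≤ κ * (y2 a + y2 b) := by positivity
  have p2 : 0 ≤ E * (x2 a + x2 b) := by positivity
  have e2 : (Ca + 4 * Real.pi ^ 2 * Cb + Cb) * (4 * Real.pi ^ 2)
        * (κ * (y2 a + y2 b) + E * (x2 a + x2 b))
      = (κ * (Ca * (4 * Real.pi ^ 2) * y2 a + 4 * Real.pi ^ 2 * Cb * (4 * Real.pi ^ 2) * y2 b)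
        + E * (Cb * (4 * Real.pi ^ 2) * x2 b)
        + (κ * (Ca * (4 * Real.pi ^ 2) * y2 b + 4 * Real.pi ^ 2 * Cb * (4 * Real.pi ^ 2) * y2 a)
        + E * (Cb * (4 * Real.pi ^ 2) * x2 a)))
        + (4 * Real.pi ^ 2 * Cb * (κ * (y2 a + y2 b))
          + (Ca + 4 * Real.pi ^ 2 * Cb) * (4 * Real.pi ^ 2) * (E * (x2 a + x2 b))) := by ring
  rw [e2]
  have p3 : 0 ≤ 4 * Real.pi ^ 2 * Cb * (κ * (y2 a + y2 b)) := by positivity
  have p4 : 0 ≤ (Ca + 4 * Real.pi ^ 2 * Cb) * (4 * Real.pi ^ 2) * (E * (x2 a + x2 b)) := by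
    positivity
  linarith

end Pool.Agent.H2NS
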