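import Pool.Agent.H2NS.NB

/-!
Bounds for Fourier coefficients which are uniform in time, and time derivatives.
-/

open MeasureTheory Set Filter Topology H459R3.NS
open scoped ENNReal ContDiff

set_option autoImplicit false

namespace Pool.Agent.H2NS

open Pool.Agent.W12.MD.R0 (kk kk_pos S_smooth' S_per)

/-- A summable weight. -/
noncomputable def wt (k : K3) : ℝ :=
  (1 / (1 + (k 0 : ℝ) ^ 2)) * ((1 / (1 + (k 1 : ℝ) ^ 2)) * (1 / (1 + (k 2 : ℝ) ^ 2)))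

theorem wt_pos (k : K3) : 0 < wt k := by unfold wt; positivity

theorem wt_summable : Summable wt := summable_K3

theorem one_le_wt (k : K3) : 1 ≤ (1 + (N k : ℝ)) ^ 6 * wt k := by
  have h0 := one_add_sq_le k 0
  have h1' := one_add_sq_le k 1
  have h2' := one_add_sq_le k 2
  have hprod : (1 + (k 0 : ℝ) ^ 2) * ((1 + (k 1 : ℝ) ^ 2) * (1 + (k 2 : ℝ) ^ 2))
      ≤ (1 + (N k : ℝ)) ^ 6 := by
    calc (1 + (k 0 : ℝ) ^ 2) * ((1 + (k 1 : ℝ) ^ 2) * (1 + (k 2 : ℝ) ^ 2))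
        ≤ (1 + (N k : ℝ)) ^ 2 * ((1 + (N k : ℝ)) ^ 2 * (1 + (N k : ℝ)) ^ 2) := by gcongr
      _ = _ := by ring
  have hP : (0 : ℝ) < (1 + (k 0 : ℝ) ^ 2) * ((1 + (k 1 : ℝ) ^ 2) * (1 + (k 2 : ℝ) ^ 2)) := by
    positivity
  have e : (1 + (N k : ℝ)) ^ 6 * wt k = (1 + (N k : ℝ)) ^ 6 /
      ((1 + (k 0 : ℝ) ^ 2) * ((1 + (k 1 : ℝ) ^ 2) * (1 + (k 2 : ℝ) ^ 2))) := by
    unfold wt
    field_simp
  rw [e, le_div_iff₀ hP, one_mul]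
  exact hprod

section

variable {T : ℝ} {f : ℝ → V → ℝ}

theorem contDiffOn_iter (hf : ContDiffOn ℝ ∞ (fun z : ℝ × V => f z.1 z.2) (Ico 0 T ×ˢ univ))
    (j : Fin 3) (n : ℕ) :
    ContDiffOn ℝ ∞ (fun z : ℝ × V => (pd j)^[n] (f z.1) z.2) (Ico 0 T ×ˢ univ) := by
  induction n with
  | zero => exact hf
  | succ n ih =>
    simp_rw [Function.iterate_succ_apply']
    exact contDiffOn_pd (f := fun t => (pd j)^[n] (f t)) ih j

theorem slice_sp (hf : ContDiffOn ℝ ∞ (fun z : ℝ × V => f z.1 z.2) (Ico 0 T ×ˢ univ))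
    (hp : ∀ t ∈ Ico 0 T, Per (f t)) {t : ℝ} (ht : t ∈ Ico 0 T) : SP (f t) :=
  ⟨contDiff_slice hf ht, hp t ht⟩

theorem norm_fr_le_const {g : V → ℝ} {C : ℝ} (hg : ∀ x ∈ cube, |g x| ≤ C) (k : K3) :
    ‖fr g k‖ ≤ C * volume.real cube := by
  unfold fr fc
  refine norm_setIntegral_le_of_norm_le_const ?_ fun x hx => ?_
  · unfold cube
    exact isCompact_Icc.measure_lt_top
  · rw [norm_mul, norm_ee, one_mul, Complex.norm_real]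
    exact hg x hx

theorem unif_N (hf : ContDiffOn ℝ ∞ (fun z : ℝ × V => f z.1 z.2) (Ico 0 T ×ˢ univ))
    (hp : ∀ t ∈ Ico 0 T, Per (f t)) {b : ℝ} (hb : b < T) (n : ℕ) :
    ∃ C : ℝ, 0 ≤ C ∧ ∀ t ∈ Icc 0 b, ∀ k, (N k : ℝ) ^ n * ‖fr (f t) k‖ ≤ C := by
  have hK : IsCompact (Icc 0 b ×ˢ cube) := isCompact_Icc.prod isCompact_Icc
  have hsub : Icc 0 b ×ˢ cube ⊆ Ico 0 T ×ˢ (univ : Set V) :=
    prod_mono (fun s hs => ⟨hs.1, hs.2.trans_lt hb⟩) (subset_univ _)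
  have h : ∀ j : Fin 3, ∃ C : ℝ, ∀ z ∈ Icc 0 b ×ˢ cube, ‖(pd j)^[n] (f z.1) z.2‖ ≤ C := fun j =>
    hK.exists_bound_of_continuousOn ((contDiffOn_iter hf j n).continuousOn.mono hsub)
  choose C hC using h
  refine ⟨∑ j, |C j| * volume.real cube, by positivity, fun t ht k => ?_⟩
  have hsp : SP (f t) := slice_sp hf hp ⟨ht.1, ht.2.trans_lt hb⟩
  have h1 : ∀ j, |(k j : ℝ)| ^ n * ‖fr (f t) k‖ ≤ |C j| * volume.real cube := by
    intro j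
    have h2 : ‖fr ((pd j)^[n] (f t)) k‖ ≤ |C j| * volume.real cube :=
      norm_fr_le_const (fun x hx => (hC j (t, x) ⟨ht, hx⟩).trans (le_abs_self _)) k
    refine le_trans ?_ h2
    rw [fr_iter hsp, norm_mul, norm_pow]
    gcongr
    rw [norm_mul, norm_mul, norm_mul, Complex.norm_I, mul_one, Complex.norm_real,
      Real.norm_eq_abs, abs_of_pos Real.pi_pos, Complex.norm_ofNat, Complex.norm_intCast]
    have h0 : 0 ≤ |(k j : ℝ)| := abs_nonneg _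
    have := Real.pi_gt_three
    nlinarith
  calc (N k : ℝ) ^ n * ‖fr (f t) k‖ ≤ (∑ j, |(k j : ℝ)| ^ n) * ‖fr (f t) k‖ := by
        gcongr
        exact N_pow_le k n
    _ = ∑ j, |(k j : ℝ)| ^ n * ‖fr (f t) k‖ := Finset.sum_mul _ _ _
    _ ≤ _ := Finset.sum_le_sum fun j _ => h1 j

theorem one_add_pow_le (x : ℝ) (hx : 0 ≤ x) (n : ℕ) : (1 + x) ^ n ≤ 2 ^ n * (1 + x ^ n) := by
  rcases le_total x 1 with h | h
  · have h1 : (1 + x) ^ n ≤ 2 ^ n := pow_le_pow_left₀ (by positivity) (by linarith) n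
    have h2 : 0 ≤ (2 : ℝ) ^ n * x ^ n := by positivity
    linarith [mul_add (2 ^ n) 1 (x ^ n)]
  · have h1 : (1 + x) ^ n ≤ (2 * x) ^ n := pow_le_pow_left₀ (by positivity) (by linarith) n
    rw [mul_pow] at h1
    have h2 : (0 : ℝ) ≤ 2 ^ n := by positivity
    linarith [mul_add ((2 : ℝ) ^ n) 1 (x ^ n)]

theorem unif_1N (hf : ContDiffOn ℝ ∞ (fun z : ℝ × V => f z.1 z.2) (Ico 0 T ×ˢ univ))
    (hp : ∀ t ∈ Ico 0 T, Per (f t)) {b : ℝ} (hb : b < T) (n : ℕ) :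
    ∃ C : ℝ, 0 ≤ C ∧ ∀ t ∈ Icc 0 b, ∀ k, (1 + (N k : ℝ)) ^ n * ‖fr (f t) k‖ ≤ C := by
  obtain ⟨C0, h0, hC0⟩ := unif_N hf hp hb 0
  obtain ⟨C1, h1, hC1⟩ := unif_N hf hp hb n
  refine ⟨2 ^ n * (C0 + C1), by positivity, fun t ht k => ?_⟩
  have a0 := hC0 t ht k
  have a1 := hC1 t ht k
  rw [pow_zero, one_mul] at a0
  calc (1 + (N k : ℝ)) ^ n * ‖fr (f t) k‖ ≤ 2 ^ n * (1 + (N k : ℝ) ^ n) * ‖fr (f t) k‖ :=
        mul_le_mul_of_nonneg_right (one_add_pow_le _ (by positivity) n) (norm_nonneg _)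
    _ = 2 ^ n * (‖fr (f t) k‖ + (N k : ℝ) ^ n * ‖fr (f t) k‖) := by ring
    _ ≤ _ := by gcongr

/-- Uniform decay. -/
theorem unif_wt (hf : ContDiffOn ℝ ∞ (fun z : ℝ × V => f z.1 z.2) (Ico 0 T ×ˢ univ))
    (hp : ∀ t ∈ Ico 0 T, Per (f t)) {b : ℝ} (hb : b < T) (n : ℕ) :
    ∃ C : ℝ, 0 ≤ C ∧ ∀ t ∈ Icc 0 b, ∀ k, eu k ^ n * ‖fr (f t) k‖ ≤ C * wt k := by
  obtain ⟨C, h, hC⟩ := unif_1N hf hp hb (n + 6)
  refine ⟨2 ^ n * C, by positivity, fun t ht k => ?_⟩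
  have a := hC t ht k
  have hN : (0 : ℝ) ≤ N k := by positivity
  have he : eu k ^ n ≤ 2 ^ n * (1 + (N k : ℝ)) ^ n := by
    rw [← mul_pow]
    exact pow_le_pow_left₀ (eu_nonneg k) ((eu_le k).trans (by linarith)) n
  have hw := wt_pos k
  calc eu k ^ n * ‖fr (f t) k‖ ≤ 2 ^ n * (1 + (N k : ℝ)) ^ n * ‖fr (f t) k‖ * 1 := by
        rw [mul_one]
        gcongr
    _ ≤ 2 ^ n * (1 + (N k : ℝ)) ^ n * ‖fr (f t) k‖ * ((1 + (N k : ℝ)) ^ 6 * wt k) := by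
        gcongr
        exact one_le_wt k
    _ = 2 ^ n * ((1 + (N k : ℝ)) ^ (n + 6) * ‖fr (f t) k‖) * wt k := by ring
    _ ≤ 2 ^ n * C * wt k := by gcongr

end

end Pool.Agent.H2NS
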