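import Pool.Agent.H2NS.Der

/-!
The critical energy identity.
-/

open MeasureTheory Set Filter Topology H459R3.NS
open scoped ENNReal ContDiff

set_option autoImplicit false

namespace Pool.Agent.H2NS

open Pool.Agent.W12.MD.R0 (kk kk_pos S_smooth' S_per)

theorem pars {f g : V → ℝ} (hf : SP f) (hg : SP g) :
    HasSum (fun k => ((starRingEnd ℂ) (fr f k) * fr g k).re) (∫ x in cube, f x * g x) := by
  have h := integral_S_mul (rap_fr hf).summable (g := fun x => (g x : ℂ))
    (Complex.continuous_ofReal.comp hg.cont)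
  have e1 : ∀ k, ∫ x in cube, ee k x * (g x : ℂ) = (starRingEnd ℂ) (fr g k) := by
    intro k
    rw [← fr_neg]
    unfold fr fc
    rw [neg_neg]
  have e2 : ∫ x in cube, S (fr f) x * (g x : ℂ) = ((∫ x in cube, f x * g x : ℝ) : ℂ) := by
    rw [← integral_complex_ofReal]
    congr 1
    funext x
    rw [S_fr hf]
    push_cast
    rfl
  simp_rw [e1] at h
  rw [e2] at h
  have h2 := Complex.reCLM.hasSum h
  simp only [Complex.reCLM_apply, Complex.ofReal_re] at h2
  have e3 : (fun k => ((starRingEnd ℂ) (fr f k) * fr g k).re)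
      = fun k => (fr f k * (starRingEnd ℂ) (fr g k)).re := by
    funext k
    simp only [Complex.mul_re, Complex.conj_re, Complex.conj_im]
    ring
  rw [e3]
  exact h2

theorem fr_lap {f : V → ℝ} (hf : SP f) (k : K3) :
    fr (lap f) k = -((4 * Real.pi ^ 2 * kk k : ℝ) : ℂ) * fr f k := by
  have e2 : fr (lap f) k = ∑ j, D j (D j (fr f)) k := by
    unfold lap
    rw [fr_sum fun j _ => (hf.pd j).pd j]
    refine Finset.sum_congr rfl fun j _ => ?_
    rw [fr_pd (hf.pd j), fr_pd hf]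
  rw [e2]
  unfold D kk
  push_cast
  rw [Finset.mul_sum, ← Finset.sum_neg_distrib, Finset.sum_mul]
  refine Finset.sum_congr rfl fun j _ => ?_
  have := Complex.I_sq
  linear_combination ((2 * Real.pi : ℂ) ^ 2 * (k j : ℂ) ^ 2 * fr f k) * this

/-- `∑ᵢ ∑ₖ |k|^n |v̂ᵢ(k)|²` -/
noncomputable def Zn (n : ℕ) (v : V → V) : ℝ := ∑ i, zn n (fun y => v y i)

theorem Zn_nonneg (n : ℕ) (v : V → V) : 0 ≤ Zn n v :=
  Finset.sum_nonneg fun _ _ => tsum_nonneg fun k => mul_nonneg (pow_nonneg (eu_nonneg k) n)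
    (sq_nonneg _)

variable {ν T : ℝ} {u : ℝ → V → V} {p : ℝ → V → ℝ}

theorem Zn_cont (h : IsSol ν T u p) (n : ℕ) : ContinuousOn (fun s => Zn n (u s)) (Ico 0 T) := by
  unfold Zn
  refine continuousOn_finsetSum _ fun i _ => ?_
  exact zn_cont (f := fun s y => u s y i) (h.smooth_c i) (fun t ht => (h.sp ht i).per) n

theorem Z1_deriv (h : IsSol ν T u p) {t : ℝ} (ht : t ∈ Ioo 0 T) :
    HasDerivAt (fun s => Zn 1 (u s))
      (-(8 * Real.pi ^ 2 * ν * Zn 3 (u t)) - 1 / Real.pi *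
        ∑ i, ∫ x in cube, tr (fun i y => u t y i) (fun y => u t y i) x
          * La (fun y => u t y i) x) t := by
  have hI : t ∈ Ico 0 T := ⟨ht.1.le, ht.2⟩
  set v : Fin 3 → V → ℝ := fun i y => u t y i with hv
  have hsp : ∀ i, SP (v i) := fun i => h.sp hI i
  have hdx : ∀ x, ∑ i, pd i (v i) x = 0 := h.divfree t hI
  have hdiv : ∀ k : K3, ∑ j, (k j : ℂ) * fr (v j) k = 0 := fun k => fr_div hsp hdx k
  have h1 : HasDerivAt (fun s => Zn 1 (u s))
      (∑ i, ∑' k, eu k ^ 1 * (2 * ((starRingEnd ℂ) (fr (v i) k)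
        * fr (dt (fun s y => u s y i) t) k).re)) t := by
    unfold Zn
    refine HasDerivAt.fun_sum fun i _ => ?_
    exact zn_deriv (f := fun s y => u s y i) (h.smooth_c i) (fun t ht => (h.sp ht i).per) 1 ht
  refine h1.congr_deriv ?_
  have hdt : ∀ i k, fr (dt (fun s y => u s y i) t) k
      = -((4 * Real.pi ^ 2 * ν * kk k : ℝ) : ℂ) * fr (v i) k - fr (tr v (v i)) k
        - D i (fr (p t)) k := by
    intro i k
    have e : dt (fun s y => u s y i) t = fun x => (ν * lap (v i) x - tr v (v i) x) - pd i (p t) x := by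
      funext x
      exact h.dt_eq ht i x
    rw [e, fr_sub' (sp_sub (sp_cmul ν (hsp i).lap) (tr_sp hsp (hsp i))) ((h.sp_p hI).pd i),
      fr_sub' (sp_cmul ν (hsp i).lap) (tr_sp hsp (hsp i)), fr_cmul, fr_lap (hsp i),
      fr_pd (h.sp_p hI)]
    push_cast
    ring
  -- summability of the pieces
  have hsd : ∀ i, SP (dt (fun s y => u s y i) t) := fun i => h.sp_dt ht i
  have A : ∀ i, HasSum (fun k => ((starRingEnd ℂ) (fr (La (v i)) k)
      * fr (dt (fun s y => u s y i) t) k).re) (∫ x in cube, La (v i) x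
        * dt (fun s y => u s y i) t x) := fun i => pars (La_sp (hsp i)) (hsd i)
  have B : ∀ i, HasSum (fun k => ((starRingEnd ℂ) (fr (La (v i)) k)
      * fr (tr v (v i)) k).re) (∫ x in cube, La (v i) x * tr v (v i) x) := fun i =>
    pars (La_sp (hsp i)) (tr_sp hsp (hsp i))
  have e1 : ∀ i k, ((starRingEnd ℂ) (fr (La (v i)) k) * fr (dt (fun s y => u s y i) t) k).re
      = 2 * Real.pi * (eu k * ((starRingEnd ℂ) (fr (v i) k)
        * fr (dt (fun s y => u s y i) t) k).re) := by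
    intro i k
    rw [fr_La (hsp i)]
    unfold lam
    rw [map_mul, Complex.conj_ofReal, mul_assoc, Complex.re_ofReal_mul]
    ring
  have hpi := Real.pi_pos
  have C1 : ∀ i, HasSum (fun k => eu k ^ 1 * (2 * ((starRingEnd ℂ) (fr (v i) k)
        * fr (dt (fun s y => u s y i) t) k).re))
      (1 / Real.pi * ∫ x in cube, La (v i) x * dt (fun s y => u s y i) t x) := by
    intro i
    have h2 := (A i).mul_left (1 / Real.pi)
    have e2 : (fun k => eu k ^ 1 * (2 * ((starRingEnd ℂ) (fr (v i) k)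
        * fr (dt (fun s y => u s y i) t) k).re))
        = fun k => 1 / Real.pi * ((starRingEnd ℂ) (fr (La (v i)) k)
          * fr (dt (fun s y => u s y i) t) k).re := by
      funext k
      rw [e1]
      field_simp
    rw [e2]
    exact h2
  have e3 : ∀ i, ∑' k, eu k ^ 1 * (2 * ((starRingEnd ℂ) (fr (v i) k)
        * fr (dt (fun s y => u s y i) t) k).re)
      = 1 / Real.pi * ∫ x in cube, La (v i) x * dt (fun s y => u s y i) t x := fun i => (C1 i).tsum_eq
  rw [Finset.sum_congr rfl fun i _ => e3 i, ← Finset.mul_sum]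
  -- the sum of the integrals
  have D1 := hasSum_sum (s := Finset.univ) fun i (_ : i ∈ Finset.univ) => A i
  have D2 := hasSum_sum (s := Finset.univ) fun i (_ : i ∈ Finset.univ) => B i
  have D3 : HasSum (fun k => ∑ i, eu k ^ 3 * ‖fr (v i) k‖ ^ 2) (Zn 3 (u t)) :=
    hasSum_sum (s := Finset.univ) fun i _ => (summ_eu (rap_fr (hsp i)) 3).hasSum
  have D4 := (D3.mul_left (-(8 * Real.pi ^ 3 * ν))).sub D2
  have e4 : (fun k => ∑ i, ((starRingEnd ℂ) (fr (La (v i)) k)
      * fr (dt (fun s y => u s y i) t) k).re)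
      = fun k => -(8 * Real.pi ^ 3 * ν) * ∑ i, eu k ^ 3 * ‖fr (v i) k‖ ^ 2
        - ∑ i, ((starRingEnd ℂ) (fr (La (v i)) k) * fr (tr v (v i)) k).re := by
    funext k
    have e5 : ∀ i, (starRingEnd ℂ) (fr (La (v i)) k) * fr (dt (fun s y => u s y i) t) k
        = ((-(8 * Real.pi ^ 3 * ν) * (eu k ^ 3 * ‖fr (v i) k‖ ^ 2) : ℝ) : ℂ)
          - (starRingEnd ℂ) (fr (La (v i)) k) * fr (tr v (v i)) k
          - (2 * Real.pi * Complex.I * fr (p t) k * lam k)
            * (starRingEnd ℂ) ((k i : ℂ) * fr (v i) k) := by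
      intro i
      rw [hdt, fr_La (hsp i)]
      have hn : ((‖fr (v i) k‖ ^ 2 : ℝ) : ℂ) = (starRingEnd ℂ) (fr (v i) k) * fr (v i) k := by
        rw [← Complex.normSq_eq_norm_sq, Complex.normSq_eq_conj_mul_self]
      have hk : (kk k : ℂ) = (eu k : ℂ) ^ 2 := by rw [← eu_sq]; push_cast; rfl
      have hR : ((-(8 * Real.pi ^ 3 * ν) * (eu k ^ 3 * ‖fr (v i) k‖ ^ 2) : ℝ) : ℂ)
          = -(8 * (Real.pi : ℂ) ^ 3 * (ν : ℂ)) * ((eu k : ℂ) ^ 3 * ((‖fr (v i) k‖ ^ 2 : ℝ) : ℂ)) := by
        push_cast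
        ring
      rw [hR, hn]
      unfold lam D
      have hi : (starRingEnd ℂ) ((k i : ℤ) : ℂ) = (k i : ℂ) := map_intCast _ _
      push_cast
      rw [hk]
      simp only [map_mul, Complex.conj_ofReal, hi, map_ofNat]
      ring
    rw [← Complex.re_sum, Finset.sum_congr rfl fun i _ => e5 i, Finset.sum_sub_distrib,
      Finset.sum_sub_distrib, ← Finset.mul_sum, ← map_sum, hdiv, map_zero, mul_zero, sub_zero,
      Complex.sub_re, Complex.re_sum, Complex.re_sum, Finset.mul_sum]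
    congr 1
  rw [e4] at D1
  have e6 := D1.unique D4
  rw [e6]
  have e7 : ∑ i, ∫ x in cube, La (v i) x * tr v (v i) x
      = ∑ i, ∫ x in cube, tr v (v i) x * La (v i) x := by
    refine Finset.sum_congr rfl fun i _ => ?_
    congr 1
    funext x
    ring
  rw [e7]
  field_simp
  ring

end Pool.Agent.H2NS
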